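import Mathlib

set_option autoImplicit false

open MeasureTheory Set Metric
open scoped ENNReal

namespace Pool.Agent.H361Z.PM

variable {E : Type*} [NormedAddCommGroup E] [InnerProductSpace ℝ E] [FiniteDimensional ℝ E]
  [MeasurableSpace E] [BorelSpace E]

/-- dimension -/
noncomputable abbrev dm (E : Type*) [NormedAddCommGroup E] [InnerProductSpace ℝ E] : ℕ := Module.finrank ℝ E

theorem polar_lintegral [Nontrivial E] (f : E → ℝ≥0∞) (hf : Measurable f) :
    ∫⁻ x, f x = ∫⁻ ω : sphere (0 : E) 1, (∫⁻ r in Ioi (0 : ℝ),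
      ENNReal.ofReal (r ^ (dm E - 1)) * f (r • (ω : E))) ∂((volume : Measure E).toSphere) := by
  have h1 : ∫⁻ x, f x = ∫⁻ x : ({(0 : E)}ᶜ : Set E), f x.1 ∂((volume : Measure E).comap (↑)) := by
    rw [lintegral_subtype_comap (measurableSet_singleton _).compl, restrict_compl_singleton]
  have hm : Measurable fun p : sphere (0 : E) 1 × Ioi (0 : ℝ) => f (p.2.1 • (p.1 : E)) := by
    apply hf.comp
    fun_prop
  have h2 := ((volume : Measure E).measurePreserving_homeomorphUnitSphereProd).lintegral_comp hm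
  have h3 : ∀ x : ({(0 : E)}ᶜ : Set E),
      f ((homeomorphUnitSphereProd E x).2.1 • ((homeomorphUnitSphereProd E x).1 : E)) = f x.1 := by
    intro x
    have hx : ‖x.1‖ ≠ 0 := norm_ne_zero_iff.2 x.2
    simp [smul_smul, hx]
  simp only [h3] at h2
  rw [h1, h2, lintegral_prod _ hm.aemeasurable]
  refine lintegral_congr fun ω => ?_
  have hm2 : Measurable fun r : Ioi (0 : ℝ) => f (r.1 • (ω : E)) := by
    apply hf.comp
    fun_prop
  rw [Measure.volumeIoiPow, lintegral_withDensity_eq_lintegral_mul _ (by fun_prop) hm2]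
  exact lintegral_subtype_comap measurableSet_Ioi
    (fun r : ℝ => ENNReal.ofReal (r ^ (dm E - 1)) * f (r • (ω : E)))

/-- parameter measure -/
noncomputable def nu (E : Type*) [NormedAddCommGroup E] [InnerProductSpace ℝ E]
    [FiniteDimensional ℝ E] [MeasurableSpace E] [BorelSpace E] :
    Measure (sphere (0 : E) 1 × ℝ) :=
  ((volume : Measure E).toSphere).prod (volume.restrict (Ioc (0 : ℝ) 1))

instance : IsFiniteMeasure (nu E) := by
  unfold nu
  infer_instance

/-- radius of the point with volume coordinate `y` -/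
noncomputable def rad (E : Type*) [NormedAddCommGroup E] [InnerProductSpace ℝ E] (y : ℝ) : ℝ :=
  y ^ ((dm E : ℝ)⁻¹)

theorem dm_pos [Nontrivial E] : 0 < dm E := Module.finrank_pos

omit [MeasurableSpace E] [BorelSpace E] in
theorem rad_pow [Nontrivial E] {y : ℝ} (hy : 0 ≤ y) : rad E y ^ dm E = y :=
  Real.rpow_inv_natCast_pow hy (Module.finrank_pos (R := ℝ) (M := E)).ne'

omit [MeasurableSpace E] [BorelSpace E] in
theorem rad_of_pow [Nontrivial E] {r : ℝ} (hr : 0 ≤ r) : rad E (r ^ dm E) = r :=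
  Real.pow_rpow_inv_natCast hr (Module.finrank_pos (R := ℝ) (M := E)).ne'

omit [MeasurableSpace E] [BorelSpace E] [FiniteDimensional ℝ E] in
theorem rad_nonneg {y : ℝ} (hy : 0 ≤ y) : 0 ≤ rad E y := Real.rpow_nonneg hy _

omit [MeasurableSpace E] [BorelSpace E] [FiniteDimensional ℝ E] in
theorem rad_pos {y : ℝ} (hy : 0 < y) : 0 < rad E y := Real.rpow_pos_of_pos hy _

omit [MeasurableSpace E] [BorelSpace E] [FiniteDimensional ℝ E] in
theorem continuous_rad : Continuous (rad E) :=
  Real.continuous_rpow_const (by positivity)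

omit [MeasurableSpace E] [BorelSpace E] in
theorem hasDerivAt_rad [Nontrivial E] {y : ℝ} (hy : 0 < y) :
    HasDerivAt (rad E) (rad E y / (dm E * y)) y := by
  have h := Real.hasDerivAt_rpow_const (x := y) (p := ((dm E : ℝ)⁻¹)) (Or.inl hy.ne')
  refine h.congr_deriv ?_
  rw [Real.rpow_sub_one hy.ne']
  unfold rad
  have : (0 : ℝ) < dm E := by exact_mod_cast (Module.finrank_pos (R := ℝ) (M := E))
  field_simp

/-- parametrisation of a shell -/
noncomputable def par (L h : ℝ) (z : sphere (0 : E) 1 × ℝ) : E :=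
  rad E (L + z.2 * h) • (z.1 : E)

/-- a spherical shell in the volume coordinate -/
def shellSet (E : Type*) [NormedAddCommGroup E] [InnerProductSpace ℝ E] (L h : ℝ) : Set E :=
  {x | L < ‖x‖ ^ dm E ∧ ‖x‖ ^ dm E ≤ L + h}

omit [FiniteDimensional ℝ E] in
theorem measurableSet_shellSet (L h : ℝ) : MeasurableSet (shellSet E L h) := by
  unfold shellSet
  have hm : Measurable fun x : E => ‖x‖ ^ dm E := by fun_prop
  exact (measurableSet_lt measurable_const hm).inter (measurableSet_le hm measurable_const)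

omit [MeasurableSpace E] [BorelSpace E] [FiniteDimensional ℝ E] in
theorem continuous_par : Continuous fun q : (ℝ × ℝ) × (sphere (0 : E) 1 × ℝ) =>
    par q.1.1 q.1.2 q.2 := by
  unfold par
  have := continuous_rad (E := E)
  fun_prop

omit [MeasurableSpace E] [BorelSpace E] [FiniteDimensional ℝ E] in
theorem continuous_par' (L h : ℝ) : Continuous (par (E := E) L h) := by
  unfold par
  have := continuous_rad (E := E)
  fun_prop

omit [MeasurableSpace E] [BorelSpace E] [FiniteDimensional ℝ E] in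
theorem norm_par {L h : ℝ} (z : sphere (0 : E) 1 × ℝ) (hz : 0 ≤ L + z.2 * h) :
    ‖par L h z‖ = rad E (L + z.2 * h) := by
  unfold par
  rw [norm_smul, norm_eq_of_mem_sphere, mul_one, Real.norm_of_nonneg (rad_nonneg hz)]

theorem lintegral_shell [Nontrivial E] {L h : ℝ} (hL : 0 ≤ L) (hh : 0 < h)
    (f : E → ℝ≥0∞) (hf : Measurable f) :
    ∫⁻ x in shellSet E L h, f x = ENNReal.ofReal (h / dm E) * ∫⁻ z, f (par L h z) ∂(nu E) := by
  have hN : (0 : ℝ) < dm E := by exact_mod_cast (dm_pos (E := E))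
  rw [← lintegral_indicator (measurableSet_shellSet L h),
    polar_lintegral _ (hf.indicator (measurableSet_shellSet L h)), nu,
    lintegral_prod (fun z => f (par L h z)) (hf.comp (continuous_par' L h).measurable).aemeasurable,
    ← lintegral_const_mul' _ _ ENNReal.ofReal_ne_top]
  refine lintegral_congr fun ω => ?_
  have hpos : ∀ θ ∈ Ioc (0 : ℝ) 1, 0 < L + θ * h := fun θ hθ => by
    have := mul_pos hθ.1 hh
    linarith
  have hder : ∀ θ ∈ Ioc (0 : ℝ) 1, HasDerivWithinAt (fun θ : ℝ => rad E (L + θ * h))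
      (rad E (L + θ * h) / (dm E * (L + θ * h)) * h) (Ioc (0 : ℝ) 1) θ := fun θ hθ => by
    have h1 : HasDerivAt (fun θ : ℝ => L + θ * h) h θ := by
      simpa using ((hasDerivAt_id θ).mul_const h).const_add L
    exact ((hasDerivAt_rad (E := E) (hpos θ hθ)).comp θ h1).hasDerivWithinAt
  have hinj : InjOn (fun θ : ℝ => rad E (L + θ * h)) (Ioc (0 : ℝ) 1) := by
    intro a ha b hb hab
    have h1 := congrArg (fun r => r ^ dm E) hab
    simp only [rad_pow (hpos a ha).le, rad_pow (hpos b hb).le] at h1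
    have h2 : a * h = b * h := by linarith
    exact mul_right_cancel₀ hh.ne' h2
  have him : (fun θ : ℝ => rad E (L + θ * h)) '' Ioc (0 : ℝ) 1 =
      Ioi 0 ∩ {r : ℝ | L < r ^ dm E ∧ r ^ dm E ≤ L + h} := by
    ext r
    constructor
    · rintro ⟨θ, hθ, rfl⟩
      refine ⟨rad_pos (hpos θ hθ), ?_⟩
      simp only [mem_setOf_eq, rad_pow (hpos θ hθ).le]
      have := mul_pos hθ.1 hh
      have := mul_le_mul_of_nonneg_right hθ.2 hh.le
      constructor <;> linarith
    · rintro ⟨hr, h1, h2⟩
      refine ⟨(r ^ dm E - L) / h, ⟨div_pos (by linarith) hh, ?_⟩, ?_⟩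
      · rw [div_le_one hh]; linarith
      · simp only
        rw [div_mul_cancel₀ _ hh.ne', add_sub_cancel, rad_of_pow (le_of_lt hr)]
  have hm0 : Measurable fun r : ℝ => r ^ dm E := by fun_prop
  have hms : MeasurableSet {r : ℝ | L < r ^ dm E ∧ r ^ dm E ≤ L + h} :=
    (measurableSet_lt measurable_const hm0).inter (measurableSet_le hm0 measurable_const)
  have key := lintegral_image_eq_lintegral_abs_deriv_mul measurableSet_Ioc hder hinj
    (fun r : ℝ => ENNReal.ofReal (r ^ (dm E - 1)) * f (r • (ω : E)))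
  rw [him] at key
  have e1 : ∫⁻ r in Ioi (0 : ℝ), ENNReal.ofReal (r ^ (dm E - 1)) *
      (shellSet E L h).indicator f (r • (ω : E)) =
      ∫⁻ r in Ioi 0 ∩ {r : ℝ | L < r ^ dm E ∧ r ^ dm E ≤ L + h},
        ENNReal.ofReal (r ^ (dm E - 1)) * f (r • (ω : E)) := by
    rw [inter_comm, ← Measure.restrict_restrict hms, ← lintegral_indicator hms]
    refine setLIntegral_congr_fun measurableSet_Ioi fun r hr => ?_
    have hn : ‖r • (ω : E)‖ = r := by
      rw [norm_smul, norm_eq_of_mem_sphere, mul_one, Real.norm_of_nonneg (le_of_lt hr)]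
    by_cases hc : L < r ^ dm E ∧ r ^ dm E ≤ L + h
    · rw [indicator_of_mem (show r • (ω : E) ∈ shellSet E L h by
        simpa only [shellSet, mem_setOf_eq, hn] using hc),
        indicator_of_mem (show r ∈ {r : ℝ | L < r ^ dm E ∧ r ^ dm E ≤ L + h} from hc)]
    · rw [indicator_of_notMem (show r • (ω : E) ∉ shellSet E L h by
        simpa only [shellSet, mem_setOf_eq, hn] using hc),
        indicator_of_notMem (show r ∉ {r : ℝ | L < r ^ dm E ∧ r ^ dm E ≤ L + h} from hc), mul_zero]
  rw [e1, key, ← lintegral_const_mul' _ _ ENNReal.ofReal_ne_top]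
  refine setLIntegral_congr_fun measurableSet_Ioc fun θ hθ => ?_
  simp only [par]
  rw [← mul_assoc, ← ENNReal.ofReal_mul (abs_nonneg _)]
  congr 2
  have hy := hpos θ hθ
  have hr := rad_pos (E := E) hy
  rw [abs_of_nonneg (by positivity)]
  have h3 : rad E (L + θ * h) * rad E (L + θ * h) ^ (dm E - 1) = L + θ * h := by
    rw [← pow_succ', Nat.sub_add_cancel (dm_pos (E := E)), rad_pow hy.le]
  field_simp
  linarith

theorem restrict_shell [Nontrivial E] {L h : ℝ} (hL : 0 ≤ L) (hh : 0 < h) :
    (volume : Measure E).restrict (shellSet E L h) =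
      ENNReal.ofReal (h / dm E) • Measure.map (par L h) (nu E) := by
  ext A hA
  rw [← lintegral_indicator_one hA, lintegral_shell hL hh _ (measurable_one.indicator hA),
    Measure.smul_apply, smul_eq_mul, ← lintegral_indicator_one hA,
    lintegral_map (measurable_one.indicator hA) (continuous_par' L h).measurable]

theorem integral_shell [Nontrivial E] {F : Type*} [NormedAddCommGroup F] [NormedSpace ℝ F]
    {L h : ℝ} (hL : 0 ≤ L) (hh : 0 < h) (f : E → F) (hf : StronglyMeasurable f) :
    ∫ x in shellSet E L h, f x = (h / dm E) • ∫ z, f (par L h z) ∂(nu E) := by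
  have hN : (0 : ℝ) < dm E := by exact_mod_cast (dm_pos (E := E))
  rw [restrict_shell hL hh, integral_smul_measure,
    integral_map (continuous_par' L h).measurable.aemeasurable hf.aestronglyMeasurable,
    ENNReal.toReal_ofReal (by positivity)]

theorem ae_nu : ∀ᵐ z ∂(nu E), z.2 ∈ Ioc (0 : ℝ) 1 := by
  unfold nu
  exact Measure.quasiMeasurePreserving_snd.ae (ae_restrict_mem measurableSet_Ioc)

end Pool.Agent.H361Z.PM
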