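import Mathlib
import Pool.Agent.H361Z.PM.Polar

set_option autoImplicit false
set_option linter.unusedSectionVars false

open MeasureTheory Set Metric Filter Topology
open scoped ENNReal

namespace Pool.Agent.H361Z.PM

variable {E : Type*} [NormedAddCommGroup E] [InnerProductSpace ℝ E] [FiniteDimensional ℝ E]
  [MeasurableSpace E] [BorelSpace E]

/-- the vector kernel -/
noncomputable def kk (a : ℝ) (z : E) : E := ‖z‖ ^ (-a - 2) • z

/-- the field generated by a density -/
noncomputable def Vk (a : ℝ) (f : E → ℝ) (x : E) : E := ∫ y, f y • kk a (x - y)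

/-- admissible densities -/
structure Adm (P : ℝ) (f : E → ℝ) : Prop where
  meas : Measurable f
  bd : ∀ y, |f y| ≤ P
  supp : ∀ y, 2 < ‖y‖ → f y = 0

theorem Adm.nonneg {P : ℝ} {f : E → ℝ} (h : Adm P f) : 0 ≤ P := (abs_nonneg _).trans (h.bd 0)

theorem Adm.mono {P Q : ℝ} {f : E → ℝ} (h : Adm P f) (hPQ : P ≤ Q) : Adm Q f :=
  ⟨h.meas, fun y => (h.bd y).trans hPQ, h.supp⟩

theorem Adm.sub {P Q : ℝ} {f g : E → ℝ} (h : Adm P f) (h' : Adm Q g) :
    Adm (P + Q) (fun y => f y - g y) :=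
  ⟨h.meas.sub h'.meas, fun y => (abs_sub _ _).trans (add_le_add (h.bd y) (h'.bd y)),
    fun y hy => by rw [h.supp y hy, h'.supp y hy, sub_zero]⟩

theorem norm_kk {a : ℝ} (ha : 0 < a) (z : E) : ‖kk a z‖ = ‖z‖ ^ (-(a + 1)) := by
  unfold kk
  rw [norm_smul, Real.norm_of_nonneg (Real.rpow_nonneg (norm_nonneg _) _)]
  rcases eq_or_ne z 0 with rfl | hz
  · rw [norm_zero, mul_zero, Real.zero_rpow (by linarith)]
  · have : 0 < ‖z‖ := norm_pos_iff.2 hz
    rw [← Real.rpow_add_one this.ne']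
    congr 1
    ring

theorem measurable_kk (a : ℝ) : Measurable (kk a : E → E) := by
  unfold kk
  fun_prop

theorem kk_neg (a : ℝ) (z : E) : kk a (-z) = -kk a z := by
  unfold kk
  rw [norm_neg, smul_neg]

theorem kk_map (a : ℝ) (A : E ≃ₗᵢ[ℝ] E) (z : E) : kk a (A z) = A (kk a z) := by
  unfold kk
  rw [A.norm_map, map_smul]

theorem integrableOn_rpow_ball [Nontrivial E] {β : ℝ} (hβ : β < dm E) (r : ℝ) :
    IntegrableOn (fun z : E => ‖z‖ ^ (-β)) (ball 0 r) := by
  refine integrableOn_ball_of_norm_le_rpow (C := 1) (dm_pos (E := E)) hβ ?_ ?_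
  · refine Eventually.of_forall fun z => ?_
    rw [one_mul, Real.norm_of_nonneg (Real.rpow_nonneg (norm_nonneg _) _)]
  · exact (by fun_prop : Measurable fun z : E => ‖z‖ ^ (-β)).aestronglyMeasurable

/-- dominating function -/
noncomputable def Dom (β : ℝ) (x y : E) : ℝ :=
  (closedBall (0 : E) 2).indicator (fun y => ‖x - y‖ ^ (-β)) y

theorem Dom_nonneg (β : ℝ) (x y : E) : 0 ≤ Dom β x y :=
  indicator_nonneg (fun _ _ => Real.rpow_nonneg (norm_nonneg _) _) _

theorem exists_Dom [Nontrivial E] {β : ℝ} (hβ0 : 0 ≤ β) (hβ : β < dm E) :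
    ∃ C : ℝ, 0 ≤ C ∧ ∀ x : E, Integrable (Dom β x) ∧ ∫ y, Dom β x y ≤ C := by
  set g : E → ℝ := (ball (0 : E) 1).indicator (fun z => ‖z‖ ^ (-β)) with hg
  have hgi : Integrable g := (integrable_indicator_iff measurableSet_ball).2
    (integrableOn_rpow_ball hβ 1)
  have hg0 : ∀ z, 0 ≤ g z := fun z =>
    indicator_nonneg (fun _ _ => Real.rpow_nonneg (norm_nonneg _) _) _
  set h : E → ℝ := (closedBall (0 : E) 2).indicator (fun _ => (1 : ℝ)) with hh
  have hhi : Integrable h := (integrable_indicator_iff measurableSet_closedBall).2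
    (integrableOn_const (measure_closedBall_lt_top).ne)
  have hh0 : ∀ z, 0 ≤ h z := fun z => indicator_nonneg (fun _ _ => zero_le_one) _
  refine ⟨(∫ z, g z) + ∫ z, h z, add_nonneg (integral_nonneg hg0) (integral_nonneg hh0),
    fun x => ?_⟩
  have hle : ∀ y, Dom β x y ≤ g (x - y) + h y := by
    intro y
    unfold Dom
    by_cases hy : y ∈ closedBall (0 : E) 2
    · rw [indicator_of_mem hy, hh, indicator_of_mem hy]
      by_cases hz : x - y ∈ ball (0 : E) 1
      · rw [hg, indicator_of_mem hz]; linarith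
      · have h1 : 1 ≤ ‖x - y‖ := by simpa using hz
        have := Real.rpow_le_one_of_one_le_of_nonpos h1 (neg_nonpos.2 hβ0)
        have := hg0 (x - y)
        linarith
    · rw [indicator_of_notMem hy]
      exact add_nonneg (hg0 _) (hh0 _)
  have hi2 : Integrable fun y => g (x - y) + h y := (hgi.comp_sub_left x).add hhi
  have hmeas : Measurable (Dom β x) := by
    unfold Dom
    exact (by fun_prop : Measurable fun y : E => ‖x - y‖ ^ (-β)).indicator
      measurableSet_closedBall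
  have hi : Integrable (Dom β x) := by
    refine hi2.mono' hmeas.aestronglyMeasurable (Eventually.of_forall fun y => ?_)
    rw [Real.norm_of_nonneg (Dom_nonneg _ _ _)]
    exact hle y
  refine ⟨hi, (integral_mono hi hi2 hle).trans ?_⟩
  rw [integral_add (hgi.comp_sub_left x) hhi, integral_sub_left_eq_self g volume x]

theorem Adm.norm_le {a P : ℝ} (ha : 0 < a) {f : E → ℝ} (hf : Adm P f) (x y : E) :
    ‖f y • kk a (x - y)‖ ≤ P * Dom (a + 1) x y := by
  rw [norm_smul, norm_kk ha, Real.norm_eq_abs]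
  unfold Dom
  by_cases hy : y ∈ closedBall (0 : E) 2
  · rw [indicator_of_mem hy]
    exact mul_le_mul_of_nonneg_right (hf.bd y) (Real.rpow_nonneg (norm_nonneg _) _)
  · rw [indicator_of_notMem hy, hf.supp y (by simpa using hy)]
    simp

theorem Adm.meas_kk (a : ℝ) {P : ℝ} {f : E → ℝ} (hf : Adm P f) (x : E) :
    Measurable fun y => f y • kk a (x - y) :=
  hf.meas.smul ((measurable_kk a).comp (measurable_const.sub measurable_id))

theorem Adm.integrable [Nontrivial E] {a P : ℝ} (ha : 0 < a) (ha' : a + 1 < dm E) {f : E → ℝ}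
    (hf : Adm P f) (x : E) : Integrable fun y => f y • kk a (x - y) := by
  obtain ⟨C, -, hC⟩ := exists_Dom (E := E) (β := a + 1) (by linarith) ha'
  exact ((hC x).1.const_mul P).mono' (hf.meas_kk a x).aestronglyMeasurable
    (Eventually.of_forall fun y => hf.norm_le ha x y)

theorem exists_Vk_bound [Nontrivial E] {a : ℝ} (ha : 0 < a) (ha' : a + 1 < dm E) :
    ∃ C : ℝ, 0 ≤ C ∧ ∀ (P : ℝ) (f : E → ℝ), Adm P f → ∀ x, ‖Vk a f x‖ ≤ P * C := by
  obtain ⟨C, hC0, hC⟩ := exists_Dom (E := E) (β := a + 1) (by linarith) ha'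
  refine ⟨C, hC0, fun P f hf x => ?_⟩
  unfold Vk
  refine (norm_integral_le_of_norm_le ((hC x).1.const_mul P)
    (Eventually.of_forall fun y => hf.norm_le ha x y)).trans ?_
  rw [integral_const_mul]
  exact mul_le_mul_of_nonneg_left (hC x).2 hf.nonneg

theorem Vk_tendsto [Nontrivial E] {a P : ℝ} (ha : 0 < a) (ha' : a + 1 < dm E)
    {f : ℕ → E → ℝ} {g : E → ℝ} (hf : ∀ n, Adm P (f n))
    (hfg : ∀ y, Tendsto (fun n => f n y) atTop (𝓝 (g y))) (x : E) :
    Tendsto (fun n => Vk a (f n) x) atTop (𝓝 (Vk a g x)) := by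
  obtain ⟨C, -, hC⟩ := exists_Dom (E := E) (β := a + 1) (by linarith) ha'
  refine tendsto_integral_of_dominated_convergence (fun y => P * Dom (a + 1) x y)
    (fun n => ((hf n).meas_kk a x).aestronglyMeasurable) ((hC x).1.const_mul P)
    (fun n => Eventually.of_forall fun y => (hf n).norm_le ha x y)
    (Eventually.of_forall fun y => (hfg y).smul_const _)

theorem Vk_sub [Nontrivial E] {a P Q : ℝ} (ha : 0 < a) (ha' : a + 1 < dm E) {f g : E → ℝ}
    (hf : Adm P f) (hg : Adm Q g) (x : E) :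
    Vk a (fun y => f y - g y) x = Vk a f x - Vk a g x := by
  unfold Vk
  rw [← integral_sub (hf.integrable ha ha' x) (hg.integrable ha ha' x)]
  simp only [sub_smul]

theorem Vk_sum [Nontrivial E] {a : ℝ} (ha : 0 < a) (ha' : a + 1 < dm E) {ι : Type*}
    (s : Finset ι) {f : ι → E → ℝ} {P : ι → ℝ} (hf : ∀ i ∈ s, Adm (P i) (f i)) (x : E) :
    Vk a (fun y => ∑ i ∈ s, f i y) x = ∑ i ∈ s, Vk a (f i) x := by
  unfold Vk
  rw [← integral_finsetSum s (fun i hi => (hf i hi).integrable ha ha' x)]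
  simp only [Finset.sum_smul]

/-- radial functions -/
def Radial (f : E → ℝ) : Prop := ∀ x y : E, ‖x‖ = ‖y‖ → f x = f y

theorem Vk_map (a : ℝ) {f : E → ℝ} (hf : Radial f) (A : E ≃ₗᵢ[ℝ] E) (x : E) :
    Vk a f (A x) = A (Vk a f x) := by
  unfold Vk
  have h1 := A.measurePreserving.integral_comp A.toHomeomorph.measurableEmbedding
    (fun y => f y • kk a (A x - y))
  rw [← h1]
  have h2 := A.toContinuousLinearEquiv.integral_comp_comm (μ := (volume : Measure E))
    (fun y => f y • kk a (x - y))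
  simp only [LinearIsometryEquiv.coe_toContinuousLinearEquiv] at h2
  rw [← h2]
  refine integral_congr_ae (Eventually.of_forall fun y => ?_)
  simp only
  rw [← map_sub, kk_map, map_smul, hf (A y) y (A.norm_map y)]

/-- the radial rate of the field -/
noncomputable def ww (a : ℝ) (f : E → ℝ) (x : E) : ℝ := inner ℝ (Vk a f x) x / ‖x‖ ^ 2

theorem Vk_eq_ww (a : ℝ) {f : E → ℝ} (hf : Radial f) {x : E} (hx : x ≠ 0) :
    Vk a f x = ww a f x • x := by
  have h1 := Vk_map a hf (ℝ ∙ x).reflection x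
  rw [Submodule.reflection_mem_subspace_eq_self (Submodule.mem_span_singleton_self x)] at h1
  have h2 := ((ℝ ∙ x).reflection_eq_self_iff _).1 h1.symm
  obtain ⟨c, hc⟩ := Submodule.mem_span_singleton.1 h2
  unfold ww
  rw [← hc, inner_smul_left, real_inner_self_eq_norm_sq]
  have : ‖x‖ ≠ 0 := norm_ne_zero_iff.2 hx
  congr 1
  simp only [conj_trivial]
  field_simp

theorem ww_radial (a : ℝ) {f : E → ℝ} (hf : Radial f) : Radial (ww a f) := by
  intro x y hxy
  have h1 := Vk_map a hf (ℝ ∙ (x - y))ᗮ.reflection x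
  have h2 := Submodule.reflection_sub hxy
  unfold ww
  have h3 := ((ℝ ∙ (x - y))ᗮ.reflection).inner_map_map (Vk a f x) x
  rw [← h1, h2] at h3
  rw [h3, hxy]

theorem abs_ww_sub_le (a : ℝ) (f g : E → ℝ) {x : E} (hx : x ≠ 0) {δ : ℝ}
    (h : ‖Vk a f x - Vk a g x‖ ≤ δ * ‖x‖) : |ww a f x - ww a g x| ≤ δ := by
  unfold ww
  have hn : 0 < ‖x‖ := norm_pos_iff.2 hx
  rw [← sub_div, ← inner_sub_left, abs_div, abs_of_pos (by positivity : 0 < ‖x‖ ^ 2),
    div_le_iff₀ (by positivity)]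
  calc _ ≤ ‖Vk a f x - Vk a g x‖ * ‖x‖ := abs_real_inner_le_norm _ _
    _ ≤ δ * ‖x‖ * ‖x‖ := mul_le_mul_of_nonneg_right h hn.le
    _ = _ := by ring

/-- truncated kernel -/
noncomputable def kt (a η : ℝ) (z : E) : E :=
  Real.smoothTransition (2 * ‖z‖ ^ 2 / η ^ 2 - 1) • kk a z

theorem kt_neg (a η : ℝ) (z : E) : kt a η (-z) = -kt a η z := by
  unfold kt
  rw [norm_neg, kk_neg, smul_neg]

theorem kt_eq {a η : ℝ} (hη : 0 < η) {z : E} (hz : η ≤ ‖z‖) : kt a η z = kk a z := by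
  unfold kt
  rw [Real.smoothTransition.one_of_one_le, one_smul]
  have h1 : η ^ 2 ≤ ‖z‖ ^ 2 := by gcongr
  rw [le_sub_iff_add_le, le_div_iff₀ (by positivity)]
  linarith

theorem norm_kk_sub_kt (a η : ℝ) (z : E) : ‖kk a z - kt a η z‖ ≤ ‖kk a z‖ := by
  unfold kt
  have h0 := Real.smoothTransition.nonneg (2 * ‖z‖ ^ 2 / η ^ 2 - 1)
  have h1 := Real.smoothTransition.le_one (2 * ‖z‖ ^ 2 / η ^ 2 - 1)
  have : kk a z - Real.smoothTransition (2 * ‖z‖ ^ 2 / η ^ 2 - 1) • kk a z =
      (1 - Real.smoothTransition (2 * ‖z‖ ^ 2 / η ^ 2 - 1)) • kk a z := by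
    rw [sub_smul, one_smul]
  rw [this, norm_smul, Real.norm_of_nonneg (by linarith)]
  have := norm_nonneg (kk a z)
  nlinarith

theorem contDiff_kt (a : ℝ) {η : ℝ} (hη : 0 < η) : ContDiff ℝ 1 (kt a η : E → E) := by
  rw [contDiff_iff_contDiffAt]
  intro z
  rcases eq_or_ne z 0 with rfl | hz
  · have h : (kt a η : E → E) =ᶠ[𝓝 0] fun _ => 0 := by
      filter_upwards [ball_mem_nhds (0 : E) (by positivity : 0 < η / 2)] with z hz
      unfold kt
      rw [Real.smoothTransition.zero_of_nonpos, zero_smul]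
      have h1 : ‖z‖ < η / 2 := by simpa using hz
      have h2 : ‖z‖ ^ 2 ≤ (η / 2) ^ 2 := by gcongr
      rw [sub_nonpos, div_le_one (by positivity)]
      nlinarith
    exact contDiffAt_const.congr_of_eventuallyEq h
  · unfold kt kk
    have hn : ContDiffAt ℝ 1 (fun z : E => ‖z‖) z := contDiffAt_norm ℝ hz
    have h1 : ContDiffAt ℝ 1 (fun z : E => 2 * ‖z‖ ^ 2 / η ^ 2 - 1) z :=
      (((hn.pow 2).const_smul (2 : ℝ)).div_const _).sub contDiffAt_const
    refine ((Real.smoothTransition.contDiff (n := 1)).contDiffAt.comp z h1).smul ?_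
    exact (hn.rpow_const_of_ne (norm_ne_zero_iff.2 hz)).smul contDiffAt_id

theorem kt_osc (a : ℝ) {η : ℝ} (hη : 0 < η) {ε : ℝ} (hε : 0 < ε) :
    ∃ ρ > 0, ∀ x y y' : E, ‖x‖ ≤ 2 → ‖y‖ ≤ 2 → ‖y'‖ ≤ 2 → ‖y - y'‖ ≤ ρ →
      ‖(kt a η (x - y) - kt a η (-y)) - (kt a η (x - y') - kt a η (-y'))‖ ≤ ε * ‖x‖ := by
  have hc := contDiff_kt (E := E) a hη
  have hd : Differentiable ℝ (kt a η : E → E) := hc.differentiable one_ne_zero
  have hD : Continuous (fderiv ℝ (kt a η : E → E)) := hc.continuous_fderiv one_ne_zero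
  have hu := (isCompact_closedBall (0 : E) 4).uniformContinuousOn_of_continuous hD.continuousOn
  rw [Metric.uniformContinuousOn_iff_le] at hu
  obtain ⟨ρ, hρ, hu⟩ := hu ε hε
  refine ⟨ρ, hρ, fun x y y' hx hy hy' hyy => ?_⟩
  have hF : ∀ z ∈ closedBall (0 : E) 2, HasFDerivWithinAt
      (fun z => kt a η (z - y) - kt a η (z - y'))
      (fderiv ℝ (kt a η) (z - y) - fderiv ℝ (kt a η) (z - y')) (closedBall (0 : E) 2) z := by
    intro z _
    have h1 : HasFDerivAt (fun z => kt a η (z - y)) (fderiv ℝ (kt a η) (z - y)) z := by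
      simpa [Function.comp_def] using (hd (z - y)).hasFDerivAt.comp z ((hasFDerivAt_id z).sub_const y)
    have h2 : HasFDerivAt (fun z => kt a η (z - y')) (fderiv ℝ (kt a η) (z - y')) z := by
      simpa [Function.comp_def] using (hd (z - y')).hasFDerivAt.comp z ((hasFDerivAt_id z).sub_const y')
    exact (h1.sub h2).hasFDerivWithinAt
  have hb : ∀ z ∈ closedBall (0 : E) 2,
      ‖fderiv ℝ (kt a η) (z - y) - fderiv ℝ (kt a η) (z - y')‖ ≤ ε := by
    intro z hz
    have hz' : ‖z‖ ≤ 2 := by simpa using hz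
    rw [← dist_eq_norm]
    refine hu _ ?_ _ ?_ ?_
    · rw [mem_closedBall_zero_iff]; linarith [norm_sub_le z y]
    · rw [mem_closedBall_zero_iff]; linarith [norm_sub_le z y']
    · rw [dist_eq_norm, show z - y - (z - y') = -(y - y') by abel, norm_neg]; exact hyy
  have := (convex_closedBall (0 : E) 2).norm_image_sub_le_of_norm_hasFDerivWithin_le hF hb
    (mem_closedBall_self (by norm_num)) (mem_closedBall_zero_iff.2 hx)
  simp only [zero_sub, sub_zero] at this
  convert this using 2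
  abel

theorem small_ball [Nontrivial E] {β : ℝ} (hβ : β < dm E) {ε η₀ : ℝ} (hε : 0 < ε) (h0 : 0 < η₀) :
    ∃ η > 0, η ≤ η₀ ∧ ∫ z in ball (0 : E) η, ‖z‖ ^ (-β) ≤ ε := by
  have hi := integrableOn_rpow_ball (E := E) hβ 1
  have ht : Tendsto (fun η : ℝ => (volume.restrict (ball (0 : E) 1)) (ball (0 : E) η))
      (𝓝[>] 0) (𝓝 0) := by
    have h1 : Tendsto (fun η : ℝ => ENNReal.ofReal (η ^ dm E) * volume (ball (0 : E) 1))
        (𝓝[>] 0) (𝓝 0) := by
      have h2 : Tendsto (fun η : ℝ => ENNReal.ofReal (η ^ dm E)) (𝓝[>] 0) (𝓝 0) := by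
        have h3 : Tendsto (fun η : ℝ => η ^ dm E) (𝓝 0) (𝓝 0) := by
          have := (continuous_pow (M := ℝ) (dm E)).tendsto 0
          rwa [zero_pow (dm_pos (E := E)).ne'] at this
        simpa using (ENNReal.tendsto_ofReal h3).mono_left nhdsWithin_le_nhds
      simpa using ENNReal.Tendsto.mul_const h2 (Or.inr measure_ball_lt_top.ne)
    refine tendsto_of_tendsto_of_tendsto_of_le_of_le' tendsto_const_nhds h1
      (Eventually.of_forall fun _ => zero_le) ?_
    filter_upwards [self_mem_nhdsWithin] with η hη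
    rw [← Measure.addHaar_ball _ _ (le_of_lt hη)]
    exact Measure.restrict_apply_le _ _
  have h2 := Integrable.tendsto_setIntegral_nhds_zero hi ht
  have h3 : ∀ᶠ η : ℝ in 𝓝[>] 0, η < min η₀ 1 :=
    mem_nhdsWithin_of_mem_nhds (Iio_mem_nhds (by positivity))
  obtain ⟨η, ⟨h4, h5⟩, h6⟩ := ((h2.eventually (gt_mem_nhds hε)).and h3).and self_mem_nhdsWithin
    |>.exists
  refine ⟨η, h6, (h5.trans_le (min_le_left _ _)).le, ?_⟩
  rw [Measure.restrict_restrict measurableSet_ball,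
    inter_eq_left.2 (ball_subset_ball (h5.trans_le (min_le_right _ _)).le)] at h4
  exact h4.le

end Pool.Agent.H361Z.PM
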