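import Mathlib
import Pool.Agent.H361Z.PM.Kernel

set_option autoImplicit false
set_option linter.unusedSectionVars false

open MeasureTheory Set Metric Filter Topology
open scoped ENNReal

namespace Pool.Agent.H361Z.PM

variable {E : Type*} [NormedAddCommGroup E] [InnerProductSpace ℝ E] [FiniteDimensional ℝ E]
  [MeasurableSpace E] [BorelSpace E]

/-- indicator of the closed ball -/
noncomputable def cb (R : ℝ) : E → ℝ := (closedBall (0 : E) R).indicator fun _ => 1

theorem cb_of_le {R : ℝ} {y : E} (h : ‖y‖ ≤ R) : cb R y = 1 :=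
  indicator_of_mem (mem_closedBall_zero_iff.2 h) _

theorem cb_of_lt {R : ℝ} {y : E} (h : R < ‖y‖) : cb R y = 0 :=
  indicator_of_notMem (by simpa using h) _

theorem adm_cb {R : ℝ} (hR : R ≤ 2) : Adm 1 (cb R : E → ℝ) := by
  refine ⟨measurable_const.indicator measurableSet_closedBall, fun y => ?_,
    fun y hy => cb_of_lt (hR.trans_lt hy)⟩
  rcases le_or_gt ‖y‖ R with h | h
  · rw [cb_of_le h]; simp
  · rw [cb_of_lt h]; simp

/-- symmetrised integrand -/
noncomputable def HH (a R : ℝ) (x z : E) : ℝ :=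
  (cb R (x - z) - cb R (x + z)) * (‖z‖ ^ (-a - 2) * inner ℝ z x)

theorem two_J [Nontrivial E] {a : ℝ} (ha : 0 < a) (ha' : a + 1 < dm E) {R : ℝ} (hR : R ≤ 2)
    (x : E) : Integrable (HH a R x) ∧ 2 * inner ℝ (Vk a (cb R) x) x = ∫ z, HH a R x z := by
  have h1 := (adm_cb (E := E) hR).integrable ha ha' x
  set A : E → ℝ := fun y => inner ℝ x (cb R y • kk a (x - y)) with hA
  have hAi : Integrable A := h1.const_inner x
  have hJ : inner ℝ (Vk a (cb R) x) x = ∫ y, A y := by
    rw [real_inner_comm]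
    exact (integral_inner h1 x).symm
  have h2 : Integrable fun z => A (x - z) := hAi.comp_sub_left x
  have h3 : Integrable fun z => A (x - -z) := h2.comp_neg
  have e2 : ∫ z, A (x - z) = ∫ y, A y := integral_sub_left_eq_self A volume x
  have e3 : ∫ z, A (x - -z) = ∫ y, A y := by
    rw [← e2]
    exact integral_neg_eq_self (fun z => A (x - z)) volume
  have hH : HH a R x = fun z => A (x - z) + A (x - -z) := by
    funext z
    simp only [hA, HH, sub_sub_cancel, sub_neg_eq_add]
    rw [show x - (x + z) = -z by abel, kk_neg]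
    simp only [kk, inner_smul_right, inner_neg_right, real_inner_comm x z]
    ring
  rw [hH]
  refine ⟨h2.add h3, ?_⟩
  rw [integral_add h2 h3, e2, e3, hJ]
  ring

theorem HH_nonneg (a R : ℝ) (x z : E) : 0 ≤ HH a R x z := by
  unfold HH
  have hp : 0 ≤ ‖z‖ ^ (-a - 2) := Real.rpow_nonneg (norm_nonneg _) _
  have e1 := norm_sub_sq_real x z
  have e2 := norm_add_sq_real x z
  rw [real_inner_comm] at e1 e2
  rcases le_total 0 (inner ℝ z x) with h | h
  · have h1 : ‖x - z‖ ≤ ‖x + z‖ :=
      le_of_pow_le_pow_left₀ two_ne_zero (norm_nonneg _) (by linarith)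
    refine mul_nonneg ?_ (mul_nonneg hp h)
    rcases le_or_gt ‖x + z‖ R with h2 | h2
    · rw [cb_of_le h2, cb_of_le (h1.trans h2)]; simp
    · rw [cb_of_lt h2, sub_zero]
      exact indicator_nonneg (fun _ _ => zero_le_one) _
  · have h1 : ‖x + z‖ ≤ ‖x - z‖ :=
      le_of_pow_le_pow_left₀ two_ne_zero (norm_nonneg _) (by linarith)
    refine mul_nonneg_of_nonpos_of_nonpos ?_ (mul_nonpos_of_nonneg_of_nonpos hp h)
    rcases le_or_gt ‖x - z‖ R with h2 | h2
    · rw [cb_of_le h2, cb_of_le (h1.trans h2)]; simp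
    · rw [cb_of_lt h2, zero_sub, neg_nonpos]
      exact indicator_nonneg (fun _ _ => zero_le_one) _

theorem pow_sub_ge {R h : ℝ} (hR : 1 ≤ R) (hh : 0 ≤ h) {n : ℕ} (hn : 0 < n) :
    R ^ n + h ≤ (R + h) ^ n := by
  obtain ⟨m, rfl⟩ := Nat.exists_eq_succ_of_ne_zero hn.ne'
  have h1 : R ^ m ≤ (R + h) ^ m := by gcongr; linarith
  have h2 : 1 ≤ (R + h) ^ m := one_le_pow₀ (by linarith)
  rw [pow_succ, pow_succ]
  nlinarith

theorem mem_shellSet_pow [Nontrivial E] {r R : ℝ} (hr : 0 ≤ r) (hR : 0 ≤ R) (z : E) :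
    z ∈ shellSet E (r ^ dm E) (R ^ dm E - r ^ dm E) ↔ r < ‖z‖ ∧ ‖z‖ ≤ R := by
  have hN := (dm_pos (E := E)).ne'
  simp only [shellSet, mem_ofPred_eq, add_sub_cancel]
  rw [pow_lt_pow_iff_left₀ hr (norm_nonneg _) hN, pow_le_pow_iff_left₀ (norm_nonneg _) hR hN]

theorem ball_lower [Nontrivial E] {a : ℝ} (ha : 0 < a) (ha' : a + 1 < dm E) :
    ∃ lo > 0, ∀ R : ℝ, 1 ≤ R → R ≤ 2 → ∀ x : E, x ≠ 0 → ‖x‖ ≤ R → lo ≤ ww a (cb R) x := by
  have hN : (0 : ℝ) < dm E := by exact_mod_cast (dm_pos (E := E))
  set v : ℝ := (Measure.toSphereBallBound (dm E) (1 / 2) : ℝ) *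
    (volume : Measure E).real (ball 0 1) with hv
  have hv0 : 0 < v := by
    refine mul_pos (by exact_mod_cast Measure.toSphereBallBound_pos _ _) ?_
    exact ENNReal.toReal_pos (measure_ball_pos _ _ one_pos).ne' measure_ball_lt_top.ne
  set c : ℝ := (3 / 4) * (3 : ℝ) ^ (-(a + 1)) with hc
  have hc0 : 0 < c := by positivity
  refine ⟨c * v / (10 * dm E), by positivity, fun R hR1 hR2 x hx hxR => ?_⟩
  obtain ⟨hHi, hJ⟩ := two_J ha ha' hR2 x
  set r := ‖x‖ with hr
  have hr0 : 0 < r := norm_pos_iff.2 hx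
  set h : ℝ := (R + r / 5) ^ dm E - R ^ dm E with hh
  have hh1 : r / 5 ≤ h := by
    have := pow_sub_ge hR1 (by positivity : 0 ≤ r / 5) (dm_pos (E := E))
    linarith
  have hh0 : 0 < h := lt_of_lt_of_le (by positivity) hh1
  set cone : Set E := {z | 3 / 4 * ‖z‖ * r ≤ inner ℝ z x} with hcone
  have hcm : MeasurableSet cone := by
    have m1 : Measurable fun z : E => 3 / 4 * ‖z‖ * r := by fun_prop
    have m2 : Measurable fun z : E => inner ℝ z x := by fun_prop
    exact measurableSet_le m1 m2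
  set g : E → ℝ := cone.indicator fun _ => c * r with hg
  have hgm : Measurable g := measurable_const.indicator hcm
  have hfin : volume (shellSet E (R ^ dm E) h) < ⊤ := by
    refine (measure_mono fun z hz => ?_).trans_lt (measure_closedBall_lt_top (x := (0 : E))
      (r := R + r / 5))
    exact mem_closedBall_zero_iff.2
      ((mem_shellSet_pow (by linarith) (by positivity) z).1 hz).2
  have hgi : IntegrableOn g (shellSet E (R ^ dm E) h) :=
    (integrableOn_const hfin.ne).indicator hcm
  have step1 : ∫ z in shellSet E (R ^ dm E) h, g z ≤ ∫ z, HH a R x z := by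
    refine le_trans ?_ (setIntegral_le_integral (s := shellSet E (R ^ dm E) h) hHi
      (Eventually.of_forall (HH_nonneg a R x)))
    refine setIntegral_mono_on hgi hHi.integrableOn (measurableSet_shellSet _ _) fun z hz => ?_
    obtain ⟨hz1, hz2⟩ := (mem_shellSet_pow (by linarith) (by positivity) z).1 hz
    by_cases hzc : z ∈ cone
    · rw [hg, indicator_of_mem hzc]
      have hzc' : 3 / 4 * ‖z‖ * r ≤ inner ℝ z x := hzc
      have e1 := norm_sub_sq_real x z
      have e2 := norm_add_sq_real x z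
      rw [real_inner_comm, ← hr] at e1 e2
      have hz0 : 0 < ‖z‖ := by linarith
      have p1 : 0 ≤ inner ℝ z x := le_trans (by positivity) hzc'
      have k1 : R < ‖x + z‖ :=
        lt_of_pow_lt_pow_left₀ 2 (norm_nonneg _) (by nlinarith)
      have k2 : ‖x - z‖ ≤ R := by
        refine le_of_pow_le_pow_left₀ two_ne_zero (by linarith) ?_
        have q1 : ‖z‖ ^ 2 ≤ (R + r / 5) ^ 2 := by gcongr
        have q2 : R * r ≤ ‖z‖ * r := by gcongr
        have q3 : r * r ≤ R * r := by gcongr
        nlinarith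
      unfold HH
      rw [cb_of_le k2, cb_of_lt k1, sub_zero, one_mul]
      have k3 : (3 : ℝ) ^ (-(a + 1)) ≤ ‖z‖ ^ (-(a + 1)) :=
        Real.rpow_le_rpow_of_nonpos hz0 (by linarith) (by linarith)
      have k4 : ‖z‖ ^ (-(a + 1)) = ‖z‖ ^ (-a - 2) * ‖z‖ := by
        rw [← Real.rpow_add_one hz0.ne']; congr 1; ring
      have hp : 0 ≤ ‖z‖ ^ (-a - 2) := Real.rpow_nonneg (norm_nonneg _) _
      calc c * r ≤ 3 / 4 * (‖z‖ ^ (-a - 2) * ‖z‖) * r := by
            rw [← k4, hc]; gcongr
        _ = ‖z‖ ^ (-a - 2) * (3 / 4 * ‖z‖ * r) := by ring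
        _ ≤ _ := mul_le_mul_of_nonneg_left hzc' hp
    · rw [hg, indicator_of_notMem hzc]
      exact HH_nonneg a R x z
  have hR0 : 0 ≤ R ^ dm E := by positivity
  rw [integral_shell hR0 hh0 g hgm.stronglyMeasurable] at step1
  set xh : sphere (0 : E) 1 := ⟨r⁻¹ • x, by
    rw [mem_sphere_zero_iff_norm, norm_smul, norm_inv, Real.norm_of_nonneg hr0.le, ← hr]
    field_simp⟩ with hxh
  have step2 : c * r * v ≤ ∫ z, g (par (R ^ dm E) h z) ∂(nu E) := by
    have hms : MeasurableSet (ball xh (1 / 2) ×ˢ (univ : Set ℝ)) :=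
      measurableSet_ball.prod MeasurableSet.univ
    have e1 : ∫ z, (ball xh (1 / 2) ×ˢ (univ : Set ℝ)).indicator (fun _ => c * r) z ∂(nu E) =
        c * r * (volume : Measure E).toSphere.real (ball xh (1 / 2)) := by
      rw [integral_indicator hms, setIntegral_const, smul_eq_mul, mul_comm]
      congr 1
      simp [nu, Measure.real]
    have e2 := Measure.toSphereBallBound_mul_measureReal_unitBall_le_toSphere_ball
      (volume : Measure E) (by norm_num : (0 : ℝ) < 1 / 2) xh
    refine le_trans (mul_le_mul_of_nonneg_left e2 (by positivity)) ?_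
    rw [← e1]
    refine integral_mono_ae ((integrable_const _).indicator hms) ?_ ?_
    · refine Integrable.of_bound (hgm.comp (continuous_par' _ _).measurable).aestronglyMeasurable
        (c * r) (Eventually.of_forall fun z => ?_)
      rw [hg]
      refine (norm_indicator_le_norm_self _ _).trans ?_
      rw [Real.norm_of_nonneg (by positivity)]
    · filter_upwards [ae_nu (E := E)] with z hz
      by_cases hzb : z ∈ ball xh (1 / 2) ×ˢ (univ : Set ℝ)
      · rw [indicator_of_mem hzb, hg, indicator_of_mem]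
        have hy : 0 ≤ R ^ dm E + z.2 * h := add_nonneg hR0 (mul_pos hz.1 hh0).le
        have hρ := rad_nonneg (E := E) hy
        show 3 / 4 * ‖par (R ^ dm E) h z‖ * r ≤ inner ℝ (par (R ^ dm E) h z) x
        rw [norm_par z hy, par, inner_smul_left]
        simp only [conj_trivial]
        have d1 : ‖(z.1 : E) - r⁻¹ • x‖ < 1 / 2 := by
          have := hzb.1
          rw [mem_ball, Subtype.dist_eq, dist_eq_norm] at this
          exact this
        have d2 := norm_sub_sq_real (z.1 : E) (r⁻¹ • x)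
        have d3 : ‖r⁻¹ • x‖ = 1 := norm_eq_of_mem_sphere xh
        rw [d3, norm_eq_of_mem_sphere, inner_smul_right] at d2
        have d4 : ‖(z.1 : E) - r⁻¹ • x‖ ^ 2 ≤ (1 / 2) ^ 2 := by gcongr
        have d5 : 3 / 4 ≤ r⁻¹ * inner ℝ (z.1 : E) x := by linarith
        have d6 : 3 / 4 * r ≤ inner ℝ (z.1 : E) x := by
          have := mul_le_mul_of_nonneg_right d5 hr0.le
          rwa [mul_comm r⁻¹, mul_assoc, inv_mul_cancel₀ hr0.ne', mul_one] at this
        nlinarith
      · rw [indicator_of_notMem hzb, hg]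
        exact indicator_nonneg (fun _ _ => by positivity) _
  unfold ww
  rw [le_div_iff₀ (by positivity), ← hr]
  have step3 : r / 5 / dm E * (c * r * v) ≤ h / dm E * ∫ z, g (par (R ^ dm E) h z) ∂(nu E) := by
    gcongr
  rw [smul_eq_mul] at step1
  have : c * v / (10 * dm E) * r ^ 2 = (r / 5 / dm E * (c * r * v)) / 2 := by
    field_simp; ring
  linarith

theorem ball_upper [Nontrivial E] {a : ℝ} (ha : 0 < a) (ha' : a + 1 < dm E) :
    ∃ hi > 0, ∀ R : ℝ, 1 ≤ R → R ≤ 2 → ∀ x : E, x ≠ 0 → ww a (cb R) x ≤ hi := by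
  have hN : (0 : ℝ) < dm E := by exact_mod_cast (dm_pos (E := E))
  obtain ⟨C, hC0, hC⟩ := exists_Vk_bound (E := E) ha ha'
  set c : ℝ := (3 / 4 : ℝ) ^ (-(a + 1)) with hc
  have hc0 : 0 < c := by positivity
  set v : ℝ := (nu E).real univ with hv
  have hv0 : 0 ≤ v := measureReal_nonneg
  refine ⟨4 * C + c * 3 ^ (dm E - 1) * v + 1, by positivity, fun R hR1 hR2 x hx => ?_⟩
  set r := ‖x‖ with hr
  have hr0 : 0 < r := norm_pos_iff.2 hx
  unfold ww
  rw [div_le_iff₀ (by positivity), ← hr]
  have hpos : 0 ≤ c * 3 ^ (dm E - 1) * v := by positivity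
  rcases le_or_gt (1 / 4) r with h4 | h4
  · have h1 := real_inner_le_norm (Vk a (cb R) x) x
    have h2 := hC 1 _ (adm_cb hR2) x
    have h3 : ‖Vk a (cb R) x‖ * r ≤ C * r := by gcongr; linarith
    have h5 : C * r ≤ 4 * C * r ^ 2 := by nlinarith [mul_nonneg hC0 hr0.le]
    nlinarith [sq_nonneg r]
  · obtain ⟨hHi, hJ⟩ := two_J ha ha' hR2 x
    set h : ℝ := (R + r) ^ dm E - (R - r) ^ dm E with hh
    have hh0 : 0 < h := by
      have : (R - r) ^ dm E < (R + r) ^ dm E :=
        pow_lt_pow_left₀ (by linarith) (by linarith) (dm_pos (E := E)).ne'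
      linarith
    have hh1 : h ≤ 2 * r * dm E * 3 ^ (dm E - 1) := by
      have h1 := abs_pow_sub_pow_le (R + r) (R - r) (dm E)
      rw [abs_of_pos hh0, show R + r - (R - r) = 2 * r by ring, abs_of_pos (by positivity),
        abs_of_pos (by linarith), abs_of_pos (by linarith)] at h1
      refine h1.trans ?_
      gcongr
      exact max_le (by linarith) (by linarith)
    have hms := measurableSet_shellSet (E := E) ((R - r) ^ dm E) h
    have hfin : volume (shellSet E ((R - r) ^ dm E) h) < ⊤ := by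
      refine (measure_mono fun z hz => ?_).trans_lt (measure_closedBall_lt_top (x := (0 : E))
        (r := R + r))
      exact mem_closedBall_zero_iff.2
        ((mem_shellSet_pow (by linarith) (by positivity) z).1 hz).2
    have step1 : ∫ z, HH a R x z ≤
        ∫ z, (shellSet E ((R - r) ^ dm E) h).indicator (fun _ => c * r) z := by
      refine integral_mono hHi ((integrable_indicator_iff hms).2 (integrableOn_const hfin.ne))
        fun z => ?_
      by_cases hz : z ∈ shellSet E ((R - r) ^ dm E) h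
      · rw [indicator_of_mem hz]
        obtain ⟨hz1, hz2⟩ := (mem_shellSet_pow (by linarith) (by positivity) z).1 hz
        have hz0 : 0 < ‖z‖ := by linarith
        have k3 : ‖z‖ ^ (-(a + 1)) ≤ c :=
          Real.rpow_le_rpow_of_nonpos (by norm_num) (by linarith) (by linarith)
        have k4 : ‖z‖ ^ (-(a + 1)) = ‖z‖ ^ (-a - 2) * ‖z‖ := by
          rw [← Real.rpow_add_one hz0.ne']; congr 1; ring
        have hp : 0 ≤ ‖z‖ ^ (-a - 2) := Real.rpow_nonneg (norm_nonneg _) _
        have k5 : |cb R (x - z) - cb R (x + z)| ≤ 1 := by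
          rcases le_or_gt ‖x - z‖ R with q1 | q1 <;> rcases le_or_gt ‖x + z‖ R with q2 | q2 <;>
            simp [cb_of_le, cb_of_lt, q1, q2]
        have k6 : |‖z‖ ^ (-a - 2) * inner ℝ z x| ≤ c * r := by
          rw [abs_mul, abs_of_nonneg hp]
          calc _ ≤ ‖z‖ ^ (-a - 2) * (‖z‖ * r) :=
                mul_le_mul_of_nonneg_left (abs_real_inner_le_norm _ _) hp
            _ = ‖z‖ ^ (-(a + 1)) * r := by rw [k4]; ring
            _ ≤ _ := by gcongr
        unfold HH
        refine (le_abs_self _).trans ?_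
        rw [abs_mul]
        calc _ ≤ 1 * (c * r) := by gcongr
          _ = _ := one_mul _
      · rw [indicator_of_notMem hz]
        rw [mem_shellSet_pow (by linarith) (by positivity) z, not_and_or, not_lt, not_le] at hz
        unfold HH
        rcases hz with hz | hz
        · rw [cb_of_le (by linarith [norm_sub_le x z]), cb_of_le (by linarith [norm_add_le x z])]
          simp
        · have q1 : ‖z‖ ≤ ‖x - z‖ + r := by
            have := norm_sub_le x (x - z)
            rw [sub_sub_cancel] at this; linarith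
          have q2 : ‖z‖ ≤ ‖x + z‖ + r := by
            have := norm_sub_le (x + z) x
            rw [add_sub_cancel_left] at this; linarith
          rw [cb_of_lt (by linarith), cb_of_lt (by linarith)]
          simp
    rw [integral_indicator hms, integral_shell (by apply pow_nonneg; linarith) hh0 _
      stronglyMeasurable_const, integral_const, smul_eq_mul, smul_eq_mul, ← hv] at step1
    have step2 : h / dm E * (v * (c * r)) ≤ 2 * r * 3 ^ (dm E - 1) * (v * (c * r)) := by
      gcongr
      rw [div_le_iff₀ hN]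
      linarith
    nlinarith [sq_nonneg r, mul_nonneg hC0 (sq_nonneg r)]

end Pool.Agent.H361Z.PM
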