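import Mathlib
import Pool.Agent.H361Z.PM.Kernel

set_option autoImplicit false
set_option linter.unusedSectionVars false

open MeasureTheory Set Metric Filter Topology
open scoped ENNReal

namespace Pool.Agent.H361Z.PM

variable {E : Type*} [NormedAddCommGroup E] [InnerProductSpace ℝ E] [FiniteDimensional ℝ E]
  [MeasurableSpace E] [BorelSpace E]

/-- a moving shell of uniform density -/
structure Shell where
  μ : ℝ
  L : ℝ → ℝ
  b : ℝ → ℝ

/-- region of the shell -/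
def Shell.S (s : Shell) (E : Type*) [NormedAddCommGroup E] [InnerProductSpace ℝ E] (t : ℝ) :
    Set E := shellSet E (s.L t) (s.μ * s.b t)

/-- density of the shell -/
noncomputable def Shell.den (s : Shell) (t : ℝ) (x : E) : ℝ :=
  (s.S E t).indicator (fun _ => (s.b t)⁻¹) x

/-- radial velocity rate -/
noncomputable def Shell.gam (s : Shell) (N : ℕ) (y t : ℝ) : ℝ :=
  (deriv s.L t + (y - s.L t) * (deriv s.b t / s.b t)) / (N * y)

/-- well-formed shells -/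
structure Shell.Ok (s : Shell) (N : ℕ) (T : ℝ) : Prop where
  μpos : 0 < s.μ
  cL : ContDiff ℝ 1 s.L
  cb : ContDiff ℝ 1 s.b
  Lnn : ∀ t ∈ Icc 0 T, 0 ≤ s.L t
  bpos : ∀ t ∈ Icc 0 T, 0 < s.b t
  top : ∀ t ∈ Icc 0 T, s.L t + s.μ * s.b t ≤ 2 ^ N

theorem Shell.den_of_mem (s : Shell) {t : ℝ} {x : E} (h : x ∈ s.S E t) :
    s.den t x = (s.b t)⁻¹ := indicator_of_mem h _

theorem Shell.den_of_notMem (s : Shell) {t : ℝ} {x : E} (h : x ∉ s.S E t) :
    s.den t x = 0 := indicator_of_notMem h _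

theorem Shell.Ok.meas_den {s : Shell} {N : ℕ} {T : ℝ} (h : s.Ok N T) :
    Measurable fun p : E × ℝ => s.den p.2 p.1 := by
  have hL := h.cL.continuous.measurable
  have hb := h.cb.continuous.measurable
  have m1 : Measurable fun p : E × ℝ => ‖p.1‖ ^ dm E := by fun_prop
  have m2 : Measurable fun p : E × ℝ => s.L p.2 := by fun_prop
  have m3 : Measurable fun p : E × ℝ => s.L p.2 + s.μ * s.b p.2 := by fun_prop
  have hs : MeasurableSet {p : E × ℝ | s.L p.2 < ‖p.1‖ ^ dm E ∧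
      ‖p.1‖ ^ dm E ≤ s.L p.2 + s.μ * s.b p.2} :=
    (measurableSet_lt m2 m1).inter (measurableSet_le m1 m3)
  have : (fun p : E × ℝ => s.den p.2 p.1) = indicator {p : E × ℝ | s.L p.2 < ‖p.1‖ ^ dm E ∧
      ‖p.1‖ ^ dm E ≤ s.L p.2 + s.μ * s.b p.2} (fun p => (s.b p.2)⁻¹) := by
    funext p
    simp only [Shell.den, Shell.S, shellSet, indicator, mem_ofPred_eq]
  rw [this]
  exact (by fun_prop : Measurable fun p : E × ℝ => (s.b p.2)⁻¹).indicator hs

theorem Shell.meas_den' (s : Shell) (t : ℝ) : Measurable fun x : E => s.den t x :=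
  measurable_const.indicator (measurableSet_shellSet _ _)

theorem Shell.Ok.meas_gam {s : Shell} {N : ℕ} {T : ℝ} (h : s.Ok N T) :
    Measurable fun p : ℝ × ℝ => s.gam N p.1 p.2 := by
  have hL := h.cL.continuous.measurable
  have hb := h.cb.continuous.measurable
  have hL' := (h.cL.continuous_deriv le_rfl).measurable
  have hb' := (h.cb.continuous_deriv le_rfl).measurable
  unfold Shell.gam
  fun_prop

theorem Shell.radial_den (s : Shell) (t : ℝ) : Radial (s.den t : E → ℝ) := by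
  intro x y hxy
  simp only [Shell.den, Shell.S, shellSet, indicator, mem_ofPred_eq, hxy]

theorem norm_le_two [Nontrivial E] {x : E} (h : ‖x‖ ^ dm E ≤ 2 ^ dm E) : ‖x‖ ≤ 2 :=
  le_of_pow_le_pow_left₀ (dm_pos (E := E)).ne' (by norm_num) h

theorem Shell.Ok.norm_le [Nontrivial E] {s : Shell} {T : ℝ} (h : s.Ok (dm E) T) {t : ℝ}
    (ht : t ∈ Icc 0 T) {x : E} (hx : x ∈ s.S E t) : ‖x‖ ≤ 2 :=
  norm_le_two (hx.2.trans (h.top t ht))

theorem Shell.Ok.den_nonneg {s : Shell} {N : ℕ} {T : ℝ} (h : s.Ok N T) {t : ℝ}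
    (ht : t ∈ Icc 0 T) (x : E) : 0 ≤ s.den t x :=
  indicator_nonneg (fun _ _ => inv_nonneg.2 (h.bpos t ht).le) _

theorem Shell.Ok.adm [Nontrivial E] {s : Shell} {T : ℝ} (h : s.Ok (dm E) T) {t : ℝ}
    (ht : t ∈ Icc 0 T) : Adm (s.b t)⁻¹ (s.den t : E → ℝ) := by
  refine ⟨s.meas_den' t, fun y => ?_, fun y hy => ?_⟩
  · by_cases hy : y ∈ s.S E t
    · rw [s.den_of_mem hy, abs_of_pos (inv_pos.2 (h.bpos t ht))]
    · rw [s.den_of_notMem hy, abs_zero]
      exact inv_nonneg.2 (h.bpos t ht).le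
  · exact s.den_of_notMem fun hs => absurd (h.norm_le ht hs) (not_le.2 hy)

theorem Shell.Ok.exists_lb {s : Shell} {N : ℕ} {T : ℝ} (h : s.Ok N T) (hT : 0 ≤ T) :
    ∃ β > 0, ∀ t ∈ Icc 0 T, β ≤ s.b t := by
  obtain ⟨t₀, ht₀, hmin⟩ := isCompact_Icc.exists_isMinOn (nonempty_Icc.2 hT)
    h.cb.continuous.continuousOn
  exact ⟨s.b t₀, h.bpos t₀ ht₀, fun t ht => hmin ht⟩

theorem Shell.Ok.integral_den [Nontrivial E] {s : Shell} {T : ℝ} (h : s.Ok (dm E) T) {t : ℝ}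
    (ht : t ∈ Icc 0 T) {F : Type*} [NormedAddCommGroup F] [NormedSpace ℝ F] (f : E → F)
    (hf : StronglyMeasurable f) :
    ∫ y, s.den t y • f y = (s.μ / dm E) • ∫ z, f (par (s.L t) (s.μ * s.b t) z) ∂(nu E) := by
  have hb := h.bpos t ht
  have e1 : (fun y => s.den t y • f y) = (s.S E t).indicator fun y => (s.b t)⁻¹ • f y := by
    funext y
    by_cases hy : y ∈ s.S E t
    · rw [s.den_of_mem hy, indicator_of_mem hy]
    · rw [s.den_of_notMem hy, indicator_of_notMem hy, zero_smul]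
  rw [e1, Shell.S, integral_indicator (measurableSet_shellSet _ _), integral_smul,
    integral_shell (h.Lnn t ht) (mul_pos h.μpos hb) f hf, smul_smul]
  congr 1
  field_simp

theorem Shell.Ok.par_pos {s : Shell} {N : ℕ} {T : ℝ} (h : s.Ok N T) {t : ℝ}
    (ht : t ∈ Icc 0 T) {θ : ℝ} (hθ : θ ∈ Ioc (0 : ℝ) 1) :
    s.L t < s.L t + θ * (s.μ * s.b t) ∧ s.L t + θ * (s.μ * s.b t) ≤ s.L t + s.μ * s.b t := by
  have h1 := mul_pos h.μpos (h.bpos t ht)
  have h2 := mul_pos hθ.1 h1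
  have h3 := mul_le_mul_of_nonneg_right hθ.2 h1.le
  constructor <;> linarith

theorem Shell.Ok.par_mem [Nontrivial E] {s : Shell} {T : ℝ} (h : s.Ok (dm E) T) {t : ℝ}
    (ht : t ∈ Icc 0 T) {z : sphere (0 : E) 1 × ℝ} (hz : z.2 ∈ Ioc (0 : ℝ) 1) :
    ‖par (s.L t) (s.μ * s.b t) z‖ ^ dm E = s.L t + z.2 * (s.μ * s.b t) ∧
      par (s.L t) (s.μ * s.b t) z ∈ s.S E t := by
  obtain ⟨h1, h2⟩ := h.par_pos ht hz
  have h0 : 0 ≤ s.L t + z.2 * (s.μ * s.b t) := (h.Lnn t ht).trans h1.le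
  have e : ‖par (s.L t) (s.μ * s.b t) z‖ ^ dm E = s.L t + z.2 * (s.μ * s.b t) := by
    rw [norm_par z h0, rad_pow h0]
  refine ⟨e, ?_⟩
  simp only [Shell.S, shellSet, mem_ofPred_eq, e]
  exact ⟨h1, h2⟩

theorem ae_norm_pow_ne [Nontrivial E] (x : E) (c : ℝ) : ∀ᵐ z : E, ‖x - z‖ ^ dm E ≠ c := by
  have h := Measure.addHaar_sphere (volume : Measure E) x (rad E c)
  rw [ae_iff]
  refine measure_mono_null (fun z hz => ?_) h
  simp only [ne_eq, not_not, mem_ofPred_eq] at hz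
  rw [mem_sphere, dist_comm, dist_eq_norm, ← hz, rad_of_pow (norm_nonneg _)]

theorem Shell.Ok.continuousAt_den {s : Shell} {N : ℕ} {T : ℝ} (h : s.Ok N T) {t : ℝ}
    (ht : t ∈ Icc 0 T) {y : E} (h1 : ‖y‖ ^ dm E ≠ s.L t)
    (h2 : ‖y‖ ^ dm E ≠ s.L t + s.μ * s.b t) :
    ContinuousAt (fun p : E × ℝ => s.den p.2 p.1) (y, t) := by
  have hL := h.cL.continuous
  have hb := h.cb.continuous
  have c1 : Continuous fun p : E × ℝ => ‖p.1‖ ^ dm E := by fun_prop
  have c2 : Continuous fun p : E × ℝ => s.L p.2 := by fun_prop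
  have c3 : Continuous fun p : E × ℝ => s.L p.2 + s.μ * s.b p.2 := by fun_prop
  rcases lt_or_gt_of_ne h1 with k1 | k1
  · refine (continuousAt_const (y := (0 : ℝ))).congr ?_
    filter_upwards [(isOpen_lt c1 c2).mem_nhds (show (y, t) ∈ _ from k1)] with p hp
    exact (s.den_of_notMem fun hs => absurd hs.1 (not_lt.2 (le_of_lt hp))).symm
  rcases lt_or_gt_of_ne h2 with k2 | k2
  · have c4 : ContinuousAt (fun p : E × ℝ => (s.b p.2)⁻¹) (y, t) :=
      (hb.comp continuous_snd).continuousAt.inv₀ (h.bpos t ht).ne'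
    refine c4.congr ?_
    filter_upwards [(isOpen_lt c2 c1).mem_nhds (show (y, t) ∈ _ from k1),
      (isOpen_lt c1 c3).mem_nhds (show (y, t) ∈ _ from k2)] with p hp hp'
    exact (s.den_of_mem ⟨hp, le_of_lt hp'⟩).symm
  · refine (continuousAt_const (y := (0 : ℝ))).congr ?_
    filter_upwards [(isOpen_lt c3 c1).mem_nhds (show (y, t) ∈ _ from k2)] with p hp
    exact (s.den_of_notMem fun hs => absurd hs.2 (not_le.2 hp)).symm

theorem Shell.Ok.continuousOn_Vk [Nontrivial E] {a : ℝ} (ha : 0 < a) (ha' : a + 1 < dm E)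
    {s : Shell} {T : ℝ} (h : s.Ok (dm E) T) :
    ContinuousOn (fun p : E × ℝ => Vk a (s.den p.2) p.1) (univ ×ˢ Icc 0 T) := by
  rintro ⟨x, t⟩ ⟨-, ht⟩
  obtain ⟨β, hβ, hβb⟩ := h.exists_lb (ht.1.trans ht.2)
  have e : (fun p : E × ℝ => Vk a (s.den p.2) p.1) =
      fun p : E × ℝ => ∫ z, s.den p.2 (p.1 - z) • kk a z := by
    funext p
    unfold Vk
    rw [← integral_sub_left_eq_self _ volume p.1]
    simp only [sub_sub_cancel]
  rw [e]
  refine continuousWithinAt_of_dominated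
    (bound := fun z => β⁻¹ * (ball (0 : E) (‖x‖ + 4)).indicator (fun z => ‖z‖ ^ (-(a + 1))) z)
    (Eventually.of_forall fun p => ?_) ?_ ?_ ?_
  · exact (((s.meas_den' p.2).comp (measurable_const.sub measurable_id)).smul
      (measurable_kk a)).aestronglyMeasurable
  · have h1 : ∀ᶠ p : E × ℝ in 𝓝[univ ×ˢ Icc 0 T] (x, t), ‖p.1‖ < ‖x‖ + 1 :=
      mem_nhdsWithin_of_mem_nhds ((isOpen_lt (by fun_prop) continuous_const).mem_nhds
        (by simp))
    filter_upwards [h1, self_mem_nhdsWithin] with p hp hp'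
    refine Eventually.of_forall fun z => ?_
    by_cases hz : p.1 - z ∈ s.S E p.2
    · have h2 := h.norm_le hp'.2 hz
      have h3 : ‖z‖ < ‖x‖ + 4 := by
        have := norm_sub_le p.1 (p.1 - z)
        rw [sub_sub_cancel] at this
        linarith
      rw [indicator_of_mem (mem_ball_zero_iff.2 h3), norm_smul, norm_kk ha, s.den_of_mem hz,
        Real.norm_of_nonneg (inv_nonneg.2 (h.bpos _ hp'.2).le)]
      have := hβb _ hp'.2
      gcongr
    · rw [s.den_of_notMem hz, zero_smul, norm_zero]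
      exact mul_nonneg (inv_nonneg.2 hβ.le)
        (indicator_nonneg (fun _ _ => Real.rpow_nonneg (norm_nonneg _) _) _)
  · exact ((integrable_indicator_iff measurableSet_ball).2
      (integrableOn_rpow_ball ha' _)).const_mul _
  · filter_upwards [ae_norm_pow_ne x (s.L t), ae_norm_pow_ne x (s.L t + s.μ * s.b t)]
      with z hz1 hz2
    have c1 : ContinuousAt (fun p : E × ℝ => (p.1 - z, p.2)) (x, t) := by fun_prop
    exact ((ContinuousAt.comp (f := fun p : E × ℝ => (p.1 - z, p.2))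
      (h.continuousAt_den ht hz1 hz2) c1).smul continuousAt_const).continuousWithinAt

/-- sub-shells -/
noncomputable def Shell.sub (s : Shell) (n : ℕ) (b' : ℝ → ℝ) (i : ℕ) : Shell :=
  ⟨s.μ / n, fun t => s.L t + (i : ℝ) / n * (s.μ * s.b t), b'⟩

theorem Shell.Ok.sub_top {s : Shell} {N : ℕ} {T : ℝ} (h : s.Ok N T) {n : ℕ} (hn : 0 < n)
    {b' : ℝ → ℝ} {t : ℝ} (ht : t ∈ Icc 0 T) (hb : b' t ≤ s.b t) (i : ℕ) :
    (s.sub n b' i).L t + (s.sub n b' i).μ * (s.sub n b' i).b t ≤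
      s.L t + ((i : ℝ) + 1) / n * (s.μ * s.b t) := by
  have hn' : (0 : ℝ) < n := by exact_mod_cast hn
  simp only [Shell.sub]
  have h1 : s.μ / n * b' t ≤ s.μ / n * s.b t :=
    mul_le_mul_of_nonneg_left hb (div_pos h.μpos hn').le
  have h2 : ((i : ℝ) + 1) / n * (s.μ * s.b t) = (i : ℝ) / n * (s.μ * s.b t) + s.μ / n * s.b t := by
    ring
  linarith

theorem Shell.Ok.sub_range {s : Shell} {N : ℕ} {T : ℝ} (h : s.Ok N T) {n : ℕ}
    {b' : ℝ → ℝ} {t : ℝ} (ht : t ∈ Icc 0 T) (hb : b' t ≤ s.b t) {i : ℕ} (hi : i < n) :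
    s.L t ≤ (s.sub n b' i).L t ∧
    (s.sub n b' i).L t + (s.sub n b' i).μ * (s.sub n b' i).b t ≤ s.L t + s.μ * s.b t := by
  have hn : 0 < n := lt_of_le_of_lt (Nat.zero_le _) hi
  have hn' : (0 : ℝ) < n := by exact_mod_cast hn
  have h1 := mul_pos h.μpos (h.bpos t ht)
  constructor
  · simp only [Shell.sub]
    have : 0 ≤ (i : ℝ) / n * (s.μ * s.b t) := by positivity
    linarith
  · refine (h.sub_top hn ht hb i).trans ?_
    have h2 : ((i : ℝ) + 1) / n ≤ 1 := by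
      rw [div_le_one hn']; exact_mod_cast hi
    nlinarith

theorem Shell.Ok.sub {s : Shell} {N : ℕ} {T : ℝ} (h : s.Ok N T) {n : ℕ}
    {b' : ℝ → ℝ} (hc : ContDiff ℝ 1 b') (hb0 : ∀ t ∈ Icc 0 T, 0 < b' t)
    (hb : ∀ t ∈ Icc 0 T, b' t ≤ s.b t) {i : ℕ} (hi : i < n) : (s.sub n b' i).Ok N T := by
  have hn : 0 < n := lt_of_le_of_lt (Nat.zero_le _) hi
  have hn' : (0 : ℝ) < n := by exact_mod_cast hn
  refine ⟨div_pos h.μpos hn', ?_, hc, fun t ht => ?_, hb0, fun t ht => ?_⟩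
  · exact h.cL.add (contDiff_const.mul (contDiff_const.mul h.cb))
  · exact (h.Lnn t ht).trans (h.sub_range ht (hb t ht) hi).1
  · exact (h.sub_range ht (hb t ht) hi).2.trans (h.top t ht)

theorem Shell.Ok.sub_subset {s : Shell} {N : ℕ} {T : ℝ} (h : s.Ok N T) {n : ℕ}
    {b' : ℝ → ℝ} {t : ℝ} (ht : t ∈ Icc 0 T) (hb : b' t ≤ s.b t) {i : ℕ} (hi : i < n) :
    (s.sub n b' i).S E t ⊆ s.S E t := by
  intro x hx
  obtain ⟨h1, h2⟩ := h.sub_range ht hb hi
  exact ⟨h1.trans_lt hx.1, hx.2.trans h2⟩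

theorem Shell.Ok.sub_disjoint {s : Shell} {N : ℕ} {T : ℝ} (h : s.Ok N T) {n : ℕ} (hn : 0 < n)
    {b' b'' : ℝ → ℝ} {t : ℝ} (ht : t ∈ Icc 0 T) (hb : b' t ≤ s.b t) (hb' : b'' t ≤ s.b t)
    {i j : ℕ} (hij : i ≠ j) :
    Disjoint ((s.sub n b' i).S E t) ((s.sub n b'' j).S E t) := by
  have hn' : (0 : ℝ) < n := by exact_mod_cast hn
  have h1 := mul_pos h.μpos (h.bpos t ht)
  wlog hlt : i < j generalizing i j b' b''
  · exact (this hb' hb hij.symm (lt_of_le_of_ne (not_lt.1 hlt) hij.symm)).symm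
  rw [Set.disjoint_left]
  intro x hx hx'
  have k1 := hx.2.trans (h.sub_top hn ht hb i)
  have k2 : s.L t + (j : ℝ) / n * (s.μ * s.b t) < ‖x‖ ^ dm E := hx'.1
  have k3 : ((i : ℝ) + 1) / n ≤ (j : ℝ) / n := by
    gcongr; exact_mod_cast hlt
  nlinarith

theorem Shell.Ok.exists_sub {s : Shell} {N : ℕ} {T : ℝ} (h : s.Ok N T) {n : ℕ} (hn : 0 < n)
    {t : ℝ} (ht : t ∈ Icc 0 T) {b' : ℝ → ℝ} (hb : b' t = s.b t) {x : E} (hx : x ∈ s.S E t) :
    ∃ i < n, x ∈ (s.sub n b' i).S E t := by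
  have hn' : (0 : ℝ) < n := by exact_mod_cast hn
  have h1 := mul_pos h.μpos (h.bpos t ht)
  set θ : ℝ := (‖x‖ ^ dm E - s.L t) / (s.μ * s.b t) * n with hθ
  have hθ0 : 0 < θ := mul_pos (div_pos (sub_pos.2 hx.1) h1) hn'
  have hθ1 : θ ≤ n := by
    have : (‖x‖ ^ dm E - s.L t) / (s.μ * s.b t) ≤ 1 := by
      rw [div_le_one h1]; linarith [hx.2]
    nlinarith
  have hc : 0 < ⌈θ⌉₊ := Nat.ceil_pos.2 hθ0
  obtain ⟨i, hi⟩ := Nat.exists_eq_succ_of_ne_zero hc.ne'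
  have k1 : θ ≤ (i : ℝ) + 1 := by
    have := Nat.le_ceil θ
    rw [hi] at this; exact_mod_cast this
  have k2 : (i : ℝ) < θ := Nat.lt_ceil.1 (by omega)
  have e : ‖x‖ ^ dm E = s.L t + θ / n * (s.μ * s.b t) := by
    have q1 := h.μpos.ne'
    have q2 := (h.bpos t ht).ne'
    rw [hθ]; field_simp; ring
  refine ⟨i, by exact_mod_cast k2.trans_le hθ1, ?_⟩
  simp only [Shell.S, Shell.sub, shellSet, mem_ofPred_eq, e, hb]
  constructor
  · gcongr
  · have : θ / n * (s.μ * s.b t) ≤ ((i : ℝ) + 1) / n * (s.μ * s.b t) := by gcongr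
    have h2 : ((i : ℝ) + 1) / n * (s.μ * s.b t) =
      (i : ℝ) / n * (s.μ * s.b t) + s.μ / n * s.b t := by ring
    linarith

theorem sum_den_eq {ι : Type*} [Fintype ι] (f : ι → Shell) {t : ℝ}
    (hd : Pairwise fun i j => Disjoint ((f i).S E t) ((f j).S E t)) {x : E} {i : ι}
    (hx : x ∈ (f i).S E t) (g : ι → ℝ) :
    ∑ j, (f j).den t x * g j = ((f i).b t)⁻¹ * g i := by
  rw [Finset.sum_eq_single i, (f i).den_of_mem hx]
  · intro j _ hj
    rw [(f j).den_of_notMem (Set.disjoint_left.1 (hd hj.symm) hx), zero_mul]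
  · simp

theorem sum_den_eq' {ι : Type*} [Fintype ι] (f : ι → Shell) {t : ℝ}
    (hd : Pairwise fun i j => Disjoint ((f i).S E t) ((f j).S E t)) {x : E} {i : ι}
    (hx : x ∈ (f i).S E t) : ∑ j, (f j).den t x = ((f i).b t)⁻¹ := by
  simpa using sum_den_eq f hd hx fun _ => 1

theorem sum_den_zero {ι : Type*} [Fintype ι] (f : ι → Shell) {t : ℝ} {x : E}
    (hx : ∀ i, x ∉ (f i).S E t) (g : ι → ℝ) : ∑ j, (f j).den t x * g j = 0 :=
  Finset.sum_eq_zero fun j _ => by rw [(f j).den_of_notMem (hx j), zero_mul]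

theorem sum_den_zero' {ι : Type*} [Fintype ι] (f : ι → Shell) {t : ℝ} {x : E}
    (hx : ∀ i, x ∉ (f i).S E t) : ∑ j, (f j).den t x = 0 := by
  simpa using sum_den_zero f hx fun _ => 1

theorem Shell.Ok.tile {s : Shell} {N : ℕ} {T : ℝ} (h : s.Ok N T) {n : ℕ} (hn : 0 < n)
    {t : ℝ} (ht : t ∈ Icc 0 T) {b' : ℝ → ℝ} (hb : b' t = s.b t) (x : E) :
    ∑ i : Fin n, (s.sub n b' i).den t x = s.den t x := by
  by_cases hx : x ∈ s.S E t
  · obtain ⟨i, hi, hxi⟩ := h.exists_sub hn ht hb hx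
    rw [sum_den_eq' (fun i : Fin n => s.sub n b' i) (i := ⟨i, hi⟩) ?_ hxi, s.den_of_mem hx]
    · simp only [Shell.sub, hb]
    · intro i j hij
      exact h.sub_disjoint hn ht hb.le hb.le fun e => hij (Fin.ext e)
  · rw [s.den_of_notMem hx]
    exact sum_den_zero' (fun i : Fin n => s.sub n b' i)
      fun i hi => hx (h.sub_subset ht hb.le i.2 hi)

theorem Shell.Ok.gam_sub {s : Shell} {N : ℕ} {T : ℝ} (h : s.Ok N T) (n : ℕ) (b' : ℝ → ℝ)
    (i : ℕ) {t : ℝ} (ht : t ∈ Icc 0 T) (y : ℝ) :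
    (s.sub n b' i).gam N y t - s.gam N y t =
      (y - (s.sub n b' i).L t) * (deriv b' t / b' t - deriv s.b t / s.b t) / (N * y) := by
  have hL := (h.cL.differentiable one_ne_zero t).hasDerivAt
  have hb := (h.cb.differentiable one_ne_zero t).hasDerivAt
  have e : deriv (s.sub n b' i).L t = deriv s.L t + (i : ℝ) / n * (s.μ * deriv s.b t) :=
    (hL.add ((hb.const_mul s.μ).const_mul ((i : ℝ) / n))).deriv
  unfold Shell.gam
  rw [e, ← sub_div]
  congr 1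
  have := (h.bpos t ht).ne'
  simp only [Shell.sub]
  field_simp
  ring

end Pool.Agent.H361Z.PM
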