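import Mathlib
import Pool.Agent.H361Z.PM.Shell

set_option autoImplicit false
set_option linter.unusedSectionVars false

open MeasureTheory Set Metric Filter Topology
open scoped ENNReal

namespace Pool.Agent.H361Z.PM

variable {E : Type*} [NormedAddCommGroup E] [InnerProductSpace ℝ E] [FiniteDimensional ℝ E]
  [MeasurableSpace E] [BorelSpace E]

theorem Adm.integrable_cont {P : ℝ} {f : E → ℝ} (hf : Adm P f) {F : Type*}
    [NormedAddCommGroup F] [NormedSpace ℝ F] {h : E → F} (hh : Continuous h) :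
    Integrable fun y => f y • h y := by
  have h1 : IntegrableOn h (closedBall (0 : E) 2) :=
    hh.continuousOn.integrableOn_compact (isCompact_closedBall _ _)
  have h2 : Integrable ((closedBall (0 : E) 2).indicator fun y => P * ‖h y‖) :=
    (integrable_indicator_iff measurableSet_closedBall).2 (h1.norm.const_mul P)
  refine h2.mono' (hf.meas.aestronglyMeasurable.smul hh.aestronglyMeasurable)
    (Eventually.of_forall fun y => ?_)
  by_cases hy : y ∈ closedBall (0 : E) 2
  · rw [indicator_of_mem hy, norm_smul, Real.norm_eq_abs]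
    exact mul_le_mul_of_nonneg_right (hf.bd y) (norm_nonneg _)
  · rw [indicator_of_notMem hy, hf.supp y (by simpa using hy), zero_smul, norm_zero]

theorem Vk_split [Nontrivial E] {a P η : ℝ} (ha : 0 < a) (ha' : a + 1 < dm E) (hη : 0 < η)
    {f : E → ℝ} (hf : Adm P f) (hr : Radial f) (x : E) :
    Vk a f x = (∫ y, f y • (kt a η (x - y) - kt a η (-y))) +
      ∫ y, f y • (kk a (x - y) - kt a η (x - y)) := by
  have hc := (contDiff_kt (E := E) a hη).continuous
  have i1 : Integrable fun y => f y • kt a η (x - y) := hf.integrable_cont (by fun_prop)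
  have i2 : Integrable fun y => f y • kt a η (-y) := hf.integrable_cont (by fun_prop)
  have i3 := hf.integrable ha ha' x
  have e0 : ∫ y, f y • kt a η (-y) = 0 := by
    have h1 := integral_neg_eq_self (fun y => f y • kt a η (-y)) (volume : Measure E)
    have h2 : ∫ y, f (-y) • kt a η (- -y) = -∫ y, f y • kt a η (-y) := by
      rw [← integral_neg]
      refine integral_congr_ae (Eventually.of_forall fun y => ?_)
      simp only
      rw [kt_neg a η (-y), hr (-y) y (norm_neg y), smul_neg]
    rw [h2] at h1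
    have h3 : (2 : ℝ) • ∫ y, f y • kt a η (-y) = 0 := by
      rw [two_smul]
      nth_rewrite 1 [← h1]
      exact neg_add_cancel _
    exact (smul_eq_zero.1 h3).resolve_left two_ne_zero
  simp only [smul_sub]
  rw [integral_sub i1 i2, integral_sub i3 i1, e0]
  unfold Vk
  abel

theorem rem_bound [Nontrivial E] {a P η : ℝ} (ha : 0 < a) (ha' : a + 1 < dm E) (hη : 0 < η)
    {f : E → ℝ} (hf : Adm P f) (x : E) :
    ‖∫ y, f y • (kk a (x - y) - kt a η (x - y))‖ ≤ P * ∫ z in ball (0 : E) η, ‖z‖ ^ (-(a + 1)) := by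
  set g : E → ℝ := (ball (0 : E) η).indicator fun z => ‖z‖ ^ (-(a + 1)) with hg
  have hgi : Integrable g := (integrable_indicator_iff measurableSet_ball).2
    (integrableOn_rpow_ball ha' η)
  refine (norm_integral_le_of_norm_le ((hgi.comp_sub_left x).const_mul P)
    (Eventually.of_forall fun y => ?_)).trans ?_
  · by_cases hy : x - y ∈ ball (0 : E) η
    · rw [hg, indicator_of_mem hy, norm_smul, Real.norm_eq_abs, ← norm_kk ha]
      exact mul_le_mul (hf.bd y) (norm_kk_sub_kt a η _) (norm_nonneg _) hf.nonneg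
    · rw [hg, indicator_of_notMem hy, kt_eq hη (by simpa using hy)]
      simp
  · rw [integral_const_mul, integral_sub_left_eq_self g volume x, hg,
      integral_indicator measurableSet_ball]

theorem adm_sum_den [Nontrivial E] {ι : Type*} [Fintype ι] (f : ι → Shell) {T t P : ℝ}
    (hf : ∀ i, (f i).Ok (dm E) T) (ht : t ∈ Icc 0 T) (hP : 0 ≤ P)
    (hb : ∀ i, ((f i).b t)⁻¹ ≤ P)
    (hd : Pairwise fun i j => Disjoint ((f i).S E t) ((f j).S E t)) :
    Adm P (fun y : E => ∑ i, (f i).den t y) := by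
  refine ⟨Finset.measurable_sum _ fun i _ => (f i).meas_den' t, fun y => ?_, fun y hy => ?_⟩
  · by_cases hy : ∃ i, y ∈ (f i).S E t
    · obtain ⟨i, hi⟩ := hy
      rw [sum_den_eq' f hd hi, abs_of_pos (inv_pos.2 ((hf i).bpos t ht))]
      exact hb i
    · rw [sum_den_zero' f (not_exists.1 hy), abs_zero]
      exact hP
  · exact Finset.sum_eq_zero fun i _ => ((hf i).adm ht).supp y hy

theorem radial_sum_den {ι : Type*} [Fintype ι] (f : ι → Shell) (t : ℝ) :
    Radial (fun y : E => ∑ i, (f i).den t y) := fun x y hxy =>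
  Finset.sum_congr rfl fun i _ => (f i).radial_den t x y hxy

theorem Shell.Ok.integrable_par [Nontrivial E] {s : Shell} {T : ℝ} (h : s.Ok (dm E) T) {t : ℝ}
    (ht : t ∈ Icc 0 T) {g : E → E} (hg : Continuous g) :
    Integrable (fun z => g (par (s.L t) (s.μ * s.b t) z)) (nu E) := by
  obtain ⟨C, hC⟩ := (isCompact_closedBall (0 : E) 2).exists_bound_of_continuousOn hg.continuousOn
  refine Integrable.of_bound (hg.comp (continuous_par' _ _)).aestronglyMeasurable C ?_
  filter_upwards [ae_nu (E := E)] with z hz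
  exact hC _ (mem_closedBall_zero_iff.2 (h.norm_le ht (h.par_mem ht hz).2))

theorem Shell.Ok.compress [Nontrivial E] {a : ℝ} (ha : 0 < a) (ha' : a + 1 < dm E)
    {s : Shell} {T : ℝ} (hT : 0 ≤ T) (h : s.Ok (dm E) T) (hL : ∀ t ∈ Icc 0 T, 0 < s.L t)
    {b' : ℝ → ℝ} (hc : ContDiff ℝ 1 b') (hb0 : ∀ t ∈ Icc 0 T, 0 < b' t)
    (hb : ∀ t ∈ Icc 0 T, b' t ≤ s.b t) {δ : ℝ} (hδ : 0 < δ) :
    ∃ n > 0, ∀ t ∈ Icc 0 T,
      (∀ x : E, ‖x‖ ≤ 2 → ‖Vk a (fun y => ∑ i : Fin n, (s.sub n b' i).den t y) x -
        Vk a (s.den t) x‖ ≤ δ * ‖x‖) ∧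
      (∀ i < n, ∀ y, (s.sub n b' i).L t ≤ y →
        y ≤ (s.sub n b' i).L t + (s.sub n b' i).μ * (s.sub n b' i).b t →
        |(s.sub n b' i).gam (dm E) y t - s.gam (dm E) y t| ≤ δ) := by
  have hN : (0 : ℝ) < dm E := by exact_mod_cast (dm_pos (E := E))
  obtain ⟨t₀, ht₀, hmin⟩ := isCompact_Icc.exists_isMinOn (nonempty_Icc.2 hT)
    h.cL.continuous.continuousOn
  set ℓ := s.L t₀ with hℓ
  have hℓ0 : 0 < ℓ := hL t₀ ht₀
  have hℓb : ∀ t ∈ Icc 0 T, ℓ ≤ s.L t := fun t ht => hmin ht
  obtain ⟨t₁, ht₁, hmin'⟩ := isCompact_Icc.exists_isMinOn (nonempty_Icc.2 hT)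
    hc.continuous.continuousOn
  set β := b' t₁ with hβ
  have hβ0 : 0 < β := hb0 t₁ ht₁
  have hβb : ∀ t ∈ Icc 0 T, β ≤ b' t := fun t ht => hmin' ht
  set r₀ := rad E ℓ with hr₀
  have hr0 : 0 < r₀ := rad_pos hℓ0
  obtain ⟨η, hη, hη1, hη2⟩ := small_ball (E := E) ha' (ε := δ * r₀ * β / 8) (η₀ := r₀ / 2)
    (by positivity) (by positivity)
  set v : ℝ := (nu E).real univ with hv
  have hv0 : 0 ≤ v := measureReal_nonneg
  have hμ := h.μpos
  obtain ⟨ρ, hρ, hosc⟩ := kt_osc (E := E) a hη (ε := δ / (2 * (s.μ / dm E * v + 1)))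
    (by positivity)
  have hu := (isCompact_Icc (a := (0 : ℝ)) (b := 2 ^ dm E)).uniformContinuousOn_of_continuous
    (continuous_rad (E := E)).continuousOn
  rw [Metric.uniformContinuousOn_iff_le] at hu
  obtain ⟨ρ', hρ', hu⟩ := hu ρ hρ
  have hKc : ContinuousOn (fun t => deriv b' t / b' t - deriv s.b t / s.b t) (Icc 0 T) :=
    ((hc.continuous_deriv le_rfl).continuousOn.div hc.continuous.continuousOn
      fun t ht => (hb0 t ht).ne').sub
    ((h.cb.continuous_deriv le_rfl).continuousOn.div h.cb.continuous.continuousOn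
      fun t ht => (h.bpos t ht).ne')
  obtain ⟨K, hK⟩ := isCompact_Icc.exists_bound_of_continuousOn hKc
  have hK0 : 0 ≤ K := (norm_nonneg _).trans (hK t₀ ht₀)
  obtain ⟨n, hn⟩ := exists_nat_gt (max (2 ^ dm E / ρ') (2 ^ dm E * K / (dm E * ℓ) / δ))
  have hn1 : 2 ^ dm E / ρ' < n := (le_max_left _ _).trans_lt hn
  have hn2 : 2 ^ dm E * K / (dm E * ℓ) / δ < n := (le_max_right _ _).trans_lt hn
  have hn' : (0 : ℝ) < n := lt_of_le_of_lt (by positivity) hn1
  have hn0 : 0 < n := by exact_mod_cast hn'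
  refine ⟨n, hn0, fun t ht => ⟨fun x hx => ?_, fun i hi y hy1 hy2 => ?_⟩⟩
  · have ok' : ∀ i : Fin n, (s.sub n b' i).Ok (dm E) T := fun i => h.sub hc hb0 hb i.2
    have ok : ∀ i : Fin n, (s.sub n s.b i).Ok (dm E) T :=
      fun i => h.sub h.cb h.bpos (fun _ _ => le_rfl) i.2
    have hA : Adm β⁻¹ (fun y : E => ∑ i : Fin n, (s.sub n b' i).den t y) :=
      adm_sum_den (fun i : Fin n => s.sub n b' i) ok' ht (by positivity)
        (fun i => inv_anti₀ hβ0 (hβb t ht))
        fun i j hij => h.sub_disjoint hn0 ht (hb t ht) (hb t ht) fun e => hij (Fin.ext e)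
    have hB : Adm β⁻¹ (s.den t : E → ℝ) :=
      (h.adm ht).mono (inv_anti₀ hβ0 ((hβb t ht).trans (hb t ht)))
    have hG := hA.sub hB
    have hR : Radial (fun y : E => ∑ i : Fin n, (s.sub n b' i).den t y - s.den t y) := by
      intro x y hxy
      simp only
      rw [s.radial_den t x y hxy]
      congr 1
      exact radial_sum_den (fun i : Fin n => s.sub n b' i) t x y hxy
    rw [← Vk_sub ha ha' hA hB, Vk_split ha ha' hη hG hR]
    refine (norm_add_le _ _).trans ?_
    have part2 : ‖∫ y, (∑ i : Fin n, (s.sub n b' i).den t y - s.den t y) •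
        (kk a (x - y) - kt a η (x - y))‖ ≤ δ / 2 * ‖x‖ := by
      rcases le_or_gt (r₀ / 2) ‖x‖ with hxr | hxr
      · refine (rem_bound ha ha' hη hG x).trans ?_
        calc _ ≤ (β⁻¹ + β⁻¹) * (δ * r₀ * β / 8) := by gcongr
          _ = δ / 2 * (r₀ / 2) := by field_simp; ring
          _ ≤ _ := by gcongr
      · rw [integral_eq_zero_of_ae (Eventually.of_forall fun y => ?_), norm_zero]
        · positivity
        · simp only [Pi.zero_apply]
          by_cases hy : y ∈ s.S E t
          · have k1 : r₀ < ‖y‖ := by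
              refine lt_of_pow_lt_pow_left₀ (dm E) (norm_nonneg _) ?_
              rw [hr₀, rad_pow hℓ0.le]
              exact (hℓb t ht).trans_lt hy.1
            have k2 : ‖y‖ ≤ ‖x‖ + ‖x - y‖ := by
              have := norm_sub_le x (x - y)
              rwa [sub_sub_cancel] at this
            rw [kt_eq hη (by linarith), sub_self, smul_zero]
          · rw [s.den_of_notMem hy, sum_den_zero' (fun i : Fin n => s.sub n b' i)
              fun i hi => hy (h.sub_subset ht (hb t ht) i.2 hi), sub_zero, zero_smul]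
    have part1 : ‖∫ y, (∑ i : Fin n, (s.sub n b' i).den t y - s.den t y) •
        (kt a η (x - y) - kt a η (-y))‖ ≤ δ / 2 * ‖x‖ := by
      have hkc := (contDiff_kt (E := E) a hη).continuous
      set g : E → E := fun y => kt a η (x - y) - kt a η (-y) with hg
      have hgc : Continuous g := by rw [hg]; fun_prop
      have e1 : ∫ y, (∑ i : Fin n, (s.sub n b' i).den t y - s.den t y) • g y =
          ∑ i : Fin n, ((∫ y, (s.sub n b' i).den t y • g y) -
            ∫ y, (s.sub n s.b i).den t y • g y) := by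
        have e2 : ∀ y, (∑ i : Fin n, (s.sub n b' i).den t y - s.den t y) • g y =
            ∑ i : Fin n, ((s.sub n b' i).den t y • g y - (s.sub n s.b i).den t y • g y) := by
          intro y
          rw [← h.tile hn0 ht (b' := s.b) rfl y, ← Finset.sum_sub_distrib, Finset.sum_smul]
          simp only [sub_smul]
        simp only [e2]
        rw [integral_finsetSum (f := fun (i : Fin n) (y : E) => (s.sub n b' i).den t y • g y -
          (s.sub n s.b i).den t y • g y) _ fun i _ => (((ok' i).adm ht).integrable_cont hgc).sub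
          (((ok i).adm ht).integrable_cont hgc)]
        exact Finset.sum_congr rfl fun i _ => integral_sub
          (((ok' i).adm ht).integrable_cont hgc) (((ok i).adm ht).integrable_cont hgc)
      have e3 : ∀ i : Fin n, ‖(∫ y, (s.sub n b' i).den t y • g y) -
          ∫ y, (s.sub n s.b i).den t y • g y‖ ≤
          s.μ / n / dm E * (v * (δ / (2 * (s.μ / dm E * v + 1)) * ‖x‖)) := by
        intro i
        rw [(ok' i).integral_den ht g hgc.stronglyMeasurable,
          (ok i).integral_den ht g hgc.stronglyMeasurable]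
        have e4 : (s.sub n b' i).μ = s.μ / n := rfl
        have e5 : (s.sub n s.b i).μ = s.μ / n := rfl
        nth_rewrite 1 [e4]
        nth_rewrite 1 [e5]
        rw [← smul_sub, norm_smul, Real.norm_of_nonneg (by positivity),
          ← integral_sub ((ok' i).integrable_par ht hgc) ((ok i).integrable_par ht hgc)]
        gcongr
        rw [mul_comm v]
        refine norm_integral_le_of_norm_le_const ?_
        filter_upwards [ae_nu (E := E)] with z hz
        obtain ⟨p1, p2⟩ := (ok' i).par_pos ht hz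
        obtain ⟨q1, q2⟩ := (ok i).par_pos ht hz
        refine hosc x _ _ hx ((ok' i).norm_le ht ((ok' i).par_mem ht hz).2)
          ((ok i).norm_le ht ((ok i).par_mem ht hz).2) ?_
        unfold par
        rw [← sub_smul, norm_smul, norm_eq_of_mem_sphere, mul_one, ← dist_eq_norm]
        refine hu _ ⟨((ok' i).Lnn t ht).trans p1.le, p2.trans ((ok' i).top t ht)⟩ _
          ⟨((ok i).Lnn t ht).trans q1.le, q2.trans ((ok i).top t ht)⟩ ?_
        have w1 : s.μ * s.b t ≤ 2 ^ dm E := by linarith [h.top t ht, h.Lnn t ht]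
        have w2 : s.μ / n * s.b t ≤ ρ' := by
          rw [div_lt_iff₀ hρ'] at hn1
          rw [div_mul_eq_mul_div, div_le_iff₀ hn']
          linarith
        have w3 : s.μ / n * b' t ≤ s.μ / n * s.b t := by gcongr; exact hb t ht
        simp only [Shell.sub] at p1 p2 q1 q2 ⊢
        rw [Real.dist_eq, abs_le]
        constructor <;> linarith
      rw [e1]
      refine (norm_sum_le _ _).trans ((Finset.sum_le_sum fun i _ => e3 i).trans ?_)
      rw [Finset.sum_const, Finset.card_univ, Fintype.card_fin, nsmul_eq_mul]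
      have w : (n : ℝ) * (s.μ / n / dm E * (v * (δ / (2 * (s.μ / dm E * v + 1)) * ‖x‖))) =
          (s.μ / dm E * v) / (s.μ / dm E * v + 1) * (δ / 2 * ‖x‖) := by
        field_simp
      rw [w]
      refine mul_le_of_le_one_left (by positivity) ?_
      rw [div_le_one (by positivity)]
      linarith
    linarith
  · rw [h.gam_sub n b' i ht y]
    obtain ⟨k1, k2⟩ := h.sub_range ht (hb t ht) hi
    have hy0 : ℓ ≤ y := (hℓb t ht).trans (k1.trans hy1)
    have w1 : s.μ * s.b t ≤ 2 ^ dm E := by linarith [h.top t ht, h.Lnn t ht]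
    have w3 : s.μ / n * b' t ≤ 2 ^ dm E / n := by
      rw [div_mul_eq_mul_div]
      gcongr
      exact le_trans (by gcongr; exact hb t ht) w1
    have w4 : y - (s.sub n b' i).L t ≤ 2 ^ dm E / n := by
      have : (s.sub n b' i).μ * (s.sub n b' i).b t = s.μ / n * b' t := rfl
      linarith
    have w5 := hK t ht
    rw [Real.norm_eq_abs] at w5
    rw [abs_div, abs_mul, abs_of_nonneg (sub_nonneg.2 hy1),
      abs_of_pos (mul_pos hN (hℓ0.trans_le hy0))]
    calc _ ≤ 2 ^ dm E / n * K / (dm E * ℓ) := by gcongr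
      _ = 2 ^ dm E * K / (dm E * ℓ) / n := by ring
      _ ≤ δ := by
        rw [div_lt_iff₀ hδ] at hn2
        rw [div_le_iff₀ hn']
        linarith

end Pool.Agent.H361Z.PM
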