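import Mathlib
import Pool.Agent.H361Z.PM.Kernel

set_option autoImplicit false
set_option linter.unusedSectionVars false

open MeasureTheory Set Metric Filter Topology
open scoped ENNReal

namespace Pool.Agent.H361Z.PM

variable {E : Type*} [NormedAddCommGroup E] [InnerProductSpace ℝ E] [FiniteDimensional ℝ E]
  [MeasurableSpace E] [BorelSpace E]

theorem Adm.dom {P β A : ℝ} {f : E → ℝ} (hf : Adm P f) {x y : E} {r : ℝ}
    (hr : |r| ≤ A * ‖x - y‖ ^ (-β)) : ‖r * f y‖ ≤ A * P * Dom β x y := by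
  rw [norm_mul, Real.norm_eq_abs, Real.norm_eq_abs]
  unfold Dom
  by_cases hy : y ∈ closedBall (0 : E) 2
  · rw [indicator_of_mem hy]
    calc _ ≤ A * ‖x - y‖ ^ (-β) * P :=
          mul_le_mul hr (hf.bd y) (abs_nonneg _) ((abs_nonneg _).trans hr)
      _ = _ := by ring
  · rw [indicator_of_notMem hy, hf.supp y (by simpa using hy)]
    simp

theorem abs_rpow_le (β : ℝ) (z : E) : |‖z‖ ^ (-β)| ≤ 1 * ‖z‖ ^ (-β) := by
  rw [one_mul, abs_of_nonneg (Real.rpow_nonneg (norm_nonneg _) _)]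

theorem Adm.integrable_pot [Nontrivial E] {a P : ℝ} (ha : 0 ≤ a) (ha' : a < dm E) {f : E → ℝ}
    (hf : Adm P f) (x : E) : Integrable fun y => ‖x - y‖ ^ (-a) * f y := by
  obtain ⟨C, -, hC⟩ := exists_Dom (E := E) ha ha'
  have hm : Measurable fun y => ‖x - y‖ ^ (-a) * f y := by
    have := hf.meas
    fun_prop
  exact ((hC x).1.const_mul (1 * P)).mono' hm.aestronglyMeasurable
    (Eventually.of_forall fun y => hf.dom (abs_rpow_le a _))

theorem exists_pot_bound [Nontrivial E] {a : ℝ} (ha : 0 ≤ a) (ha' : a < dm E) :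
    ∃ C : ℝ, 0 ≤ C ∧ ∀ (P A : ℝ) (f : E → ℝ), Adm P f → 0 ≤ A → ∀ (x : E) (g : E → ℝ),
      (∀ y, y ≠ x → |g y| ≤ A * ‖x - y‖ ^ (-a)) → ‖∫ y, g y * f y‖ ≤ A * P * C := by
  obtain ⟨C, hC0, hC⟩ := exists_Dom (E := E) ha ha'
  refine ⟨C, hC0, fun P A f hf hA x g hg => ?_⟩
  have h0 : ∀ᵐ y : E, y ≠ x := by
    rw [ae_iff]
    simp
  refine (norm_integral_le_of_norm_le ((hC x).1.const_mul (A * P)) ?_).trans ?_
  · filter_upwards [h0] with y hy
    exact hf.dom (hg y hy)
  · rw [integral_const_mul]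
    exact mul_le_mul_of_nonneg_left (hC x).2 (mul_nonneg hA hf.nonneg)

theorem tendsto_pot [Nontrivial E] {a P A : ℝ} (ha : 0 ≤ a) (ha' : a < dm E) {f : E → ℝ}
    (hf : Adm P f) (x : E) {g : ℕ → E → ℝ} {g' : E → ℝ} (hm : ∀ n, Measurable (g n))
    (hg : ∀ n y, y ≠ x → |g n y| ≤ A * ‖x - y‖ ^ (-a))
    (ht : ∀ y, y ≠ x → Tendsto (fun n => g n y) atTop (𝓝 (g' y))) :
    Tendsto (fun n => ∫ y, g n y * f y) atTop (𝓝 (∫ y, g' y * f y)) := by
  obtain ⟨C, hC0, hC⟩ := exists_Dom (E := E) ha ha'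
  have h0 : ∀ᵐ y : E, y ≠ x := by
    rw [ae_iff]
    simp
  refine tendsto_integral_of_dominated_convergence (fun y => A * P * Dom a x y)
    (fun n => ((hm n).mul hf.meas).aestronglyMeasurable) ((hC x).1.const_mul _)
    (fun n => ?_) ?_
  · filter_upwards [h0] with y hy
    exact hf.dom (hg n y hy)
  · filter_upwards [h0] with y hy
    exact (ht y hy).mul_const _

theorem measurable_conv {u : E × ℝ → ℝ} (hu : Measurable u) {g : E → ℝ} (hg : Measurable g) :
    Measurable fun p : E × ℝ => ∫ y, g (p.1 - y) * u (y, p.2) := by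
  have : Measurable fun q : (E × ℝ) × E => g (q.1.1 - q.2) * u (q.2, q.1.2) := by fun_prop
  exact (this.stronglyMeasurable.integral_prod_right' (ν := volume)).measurable

theorem measurable_Vk (a : ℝ) {u : E × ℝ → ℝ} (hu : Measurable u) :
    Measurable fun p : E × ℝ => Vk a (fun y => u (y, p.2)) p.1 := by
  have hk := measurable_kk (E := E) a
  have : Measurable fun q : (E × ℝ) × E => u (q.2, q.1.2) • kk a (q.1.1 - q.2) := by fun_prop
  exact (this.stronglyMeasurable.integral_prod_right' (ν := volume)).measurable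

/-- regularised kernel -/
noncomputable def Kr (a η : ℝ) (z : E) : ℝ := (‖z‖ ^ 2 + η ^ 2) ^ (-a / 2)

/-- directional derivative of the regularised kernel -/
noncomputable def Kd (a η : ℝ) (e z : E) : ℝ :=
  -a * inner ℝ z e * (‖z‖ ^ 2 + η ^ 2) ^ (-a / 2 - 1)

theorem measurable_Kr (a η : ℝ) : Measurable (Kr a η : E → ℝ) := by
  unfold Kr; fun_prop

theorem measurable_Kd (a η : ℝ) (e : E) : Measurable (Kd a η e : E → ℝ) := by
  unfold Kd; fun_prop

theorem sq_rpow {r : ℝ} (hr : 0 ≤ r) (β : ℝ) : (r ^ 2) ^ β = r ^ (2 * β) := by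
  rw [Real.rpow_mul hr]
  norm_num

theorem Kr_le {a : ℝ} (ha : 0 < a) (η : ℝ) {z : E} (hz : z ≠ 0) :
    |Kr a η z| ≤ 1 * ‖z‖ ^ (-a) := by
  have hn := norm_pos_iff.2 hz
  unfold Kr
  rw [abs_of_nonneg (Real.rpow_nonneg (by positivity) _), one_mul]
  calc _ ≤ (‖z‖ ^ 2) ^ (-a / 2) := Real.rpow_le_rpow_of_nonpos (by positivity)
        (le_add_of_nonneg_right (sq_nonneg _)) (by linarith)
    _ = _ := by rw [sq_rpow hn.le]; congr 1; ring

theorem Kd_le {a : ℝ} (ha : 0 < a) (η : ℝ) (e : E) {z : E} (hz : z ≠ 0) :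
    |Kd a η e z| ≤ a * ‖e‖ * ‖z‖ ^ (-(a + 1)) := by
  have hn := norm_pos_iff.2 hz
  unfold Kd
  rw [abs_mul, abs_mul, abs_neg, abs_of_pos ha, abs_of_nonneg (Real.rpow_nonneg (by positivity) _)]
  have h1 : (‖z‖ ^ 2 + η ^ 2) ^ (-a / 2 - 1) ≤ (‖z‖ ^ 2) ^ (-a / 2 - 1) :=
    Real.rpow_le_rpow_of_nonpos (by positivity) (le_add_of_nonneg_right (sq_nonneg _))
      (by linarith)
  have h2 : ‖z‖ ^ (-(a + 1)) = (‖z‖ ^ 2) ^ (-a / 2 - 1) * ‖z‖ := by
    rw [sq_rpow hn.le, ← Real.rpow_add_one hn.ne']; congr 1; ring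
  have h3 := abs_real_inner_le_norm z e
  rw [h2]
  calc _ ≤ a * (‖z‖ * ‖e‖) * (‖z‖ ^ 2) ^ (-a / 2 - 1) := by gcongr
    _ = _ := by ring

theorem tendsto_reg {r : ℝ} (hr : 0 < r) (β : ℝ) :
    Tendsto (fun n : ℕ => (r ^ 2 + (1 / ((n : ℝ) + 1)) ^ 2) ^ β) atTop (𝓝 (r ^ (2 * β))) := by
  rw [← sq_rpow hr.le]
  refine Tendsto.rpow_const ?_ (Or.inl (by positivity))
  simpa using ((tendsto_one_div_add_atTop_nhds_zero_nat (𝕜 := ℝ)).pow 2).const_add (r ^ 2)

theorem hasDerivAt_Kr (a : ℝ) {η : ℝ} (hη : 0 < η) (e z : E) (τ : ℝ) :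
    HasDerivAt (fun τ : ℝ => Kr a η (z + τ • e)) (Kd a η e (z + τ • e)) τ := by
  have h1 : HasDerivAt (fun τ : ℝ => z + τ • e) e τ := by
    simpa using ((hasDerivAt_id τ).smul_const e).const_add z
  have h2 := (h1.norm_sq.add_const (η ^ 2)).rpow_const (p := -a / 2) (Or.inl (by positivity))
  refine h2.congr_deriv ?_
  unfold Kd
  ring

theorem hasLineDerivAt_pot {a P : ℝ} (ha : 0 < a) {η : ℝ} (hη : 0 < η) {u : E × ℝ → ℝ}
    (hu : ∀ t, Adm P fun y => u (y, t)) (e : E) (p : E × ℝ) :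
    HasLineDerivAt ℝ (fun p : E × ℝ => ∫ y, Kr a η (p.1 - y) * u (y, p.2))
      (∫ y, Kd a η e (p.1 - y) * u (y, p.2)) p (e, 0) := by
  obtain ⟨x, t⟩ := p
  have hf := hu t
  have hKr := measurable_Kr (E := E) a η
  have hKd := measurable_Kd a η e
  have hm := hf.meas
  have hind : ∀ M : ℝ, Integrable ((closedBall (0 : E) 2).indicator fun _ => M) := fun M =>
    (integrable_indicator_iff measurableSet_closedBall).2
      (integrableOn_const measure_closedBall_lt_top.ne)
  have hbd : ∀ (M r : ℝ) (y : E), (‖y‖ ≤ 2 → |r| ≤ M) →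
      ‖r * u (y, t)‖ ≤ (closedBall (0 : E) 2).indicator (fun _ => M * P) y := by
    intro M r y h
    by_cases hy : y ∈ closedBall (0 : E) 2
    · have h' := h (mem_closedBall_zero_iff.1 hy)
      rw [indicator_of_mem hy, norm_mul, Real.norm_eq_abs, Real.norm_eq_abs]
      exact mul_le_mul h' (hf.bd y) (abs_nonneg _) ((abs_nonneg _).trans h')
    · rw [indicator_of_notMem hy, hf.supp y (by simpa using hy)]
      simp
  have m1 : ∀ τ : ℝ, Measurable fun y : E => Kr a η (x - y + τ • e) * u (y, t) := fun τ =>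
    (hKr.comp (by fun_prop)).mul hm
  have m2 : ∀ τ : ℝ, Measurable fun y : E => Kd a η e (x - y + τ • e) * u (y, t) := fun τ =>
    (hKd.comp (by fun_prop)).mul hm
  have key := hasDerivAt_integral_of_dominated_loc_of_deriv_le (μ := (volume : Measure E))
    (F := fun (τ : ℝ) (y : E) => Kr a η (x - y + τ • e) * u (y, t))
    (F' := fun (τ : ℝ) (y : E) => Kd a η e (x - y + τ • e) * u (y, t)) (x₀ := 0)
    (bound := (closedBall (0 : E) 2).indicator fun _ =>
      a * ((‖x‖ + 2 + ‖e‖) * ‖e‖) * (η ^ 2) ^ (-a / 2 - 1) * P)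
    (ball_mem_nhds 0 one_pos)
    (Eventually.of_forall fun τ => (m1 τ).aestronglyMeasurable)
    ((hind ((η ^ 2) ^ (-a / 2) * P)).mono' (m1 0).aestronglyMeasurable
      (Eventually.of_forall fun y => hbd _ _ y fun _ => by
        unfold Kr
        rw [abs_of_nonneg (Real.rpow_nonneg (by positivity) _)]
        exact Real.rpow_le_rpow_of_nonpos (by positivity)
          (le_add_of_nonneg_left (sq_nonneg _)) (by linarith)))
    (m2 0).aestronglyMeasurable
    (Eventually.of_forall fun y τ hτ => hbd _ _ y fun hy => by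
      unfold Kd
      rw [abs_mul, abs_mul, abs_neg, abs_of_pos ha,
        abs_of_nonneg (Real.rpow_nonneg (by positivity) _)]
      have h1 : (‖x - y + τ • e‖ ^ 2 + η ^ 2) ^ (-a / 2 - 1) ≤ (η ^ 2) ^ (-a / 2 - 1) :=
        Real.rpow_le_rpow_of_nonpos (by positivity) (le_add_of_nonneg_left (sq_nonneg _))
          (by linarith)
      have h2 : ‖x - y + τ • e‖ ≤ ‖x‖ + 2 + ‖e‖ := by
        have h3 : ‖τ • e‖ ≤ ‖e‖ := by
          rw [norm_smul]
          exact mul_le_of_le_one_left (norm_nonneg _) (mem_ball_zero_iff.1 hτ).le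
        linarith [norm_add_le (x - y) (τ • e), norm_sub_le x y]
      have h4 := (abs_real_inner_le_norm (x - y + τ • e) e).trans
        (mul_le_mul_of_nonneg_right h2 (norm_nonneg e))
      gcongr)
    (hind _) (Eventually.of_forall fun y τ _ => (hasDerivAt_Kr a hη e (x - y) τ).mul_const _)
  have h2 := key.2
  simp only [zero_smul, add_zero] at h2
  unfold HasLineDerivAt
  refine h2.congr_of_eventuallyEq (Eventually.of_forall fun τ => ?_)
  simp only [Prod.fst_add, Prod.smul_fst, Prod.snd_add, Prod.smul_snd, smul_zero, add_zero,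
    add_sub_right_comm]

theorem weak_grad [Nontrivial E] {a P : ℝ} (ha : 0 < a) (ha' : a + 1 < dm E) {u : E × ℝ → ℝ}
    (hm : Measurable u) (hu : ∀ t, Adm P fun y => u (y, t)) {ψ : E × ℝ → ℝ}
    (hψ : ContDiff ℝ 1 ψ) (hc : HasCompactSupport ψ) (e : E) :
    ∫ p : E × ℝ, (∫ y, ‖p.1 - y‖ ^ (-a) * u (y, p.2)) * fderiv ℝ ψ p (e, 0) =
      ∫ p : E × ℝ, a * inner ℝ (Vk a (fun y => u (y, p.2)) p.1) e * ψ p := by
  obtain ⟨C₁, -, hC₁⟩ := exists_pot_bound (E := E) ha.le (by linarith)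
  obtain ⟨C₂, -, hC₂⟩ := exists_pot_bound (E := E) (a := a + 1) (by linarith) ha'
  have : (volume : Measure (E × ℝ)).IsAddHaarMeasure :=
    inferInstanceAs ((volume : Measure E).prod (volume : Measure ℝ)).IsAddHaarMeasure
  have i1 : Integrable ψ := hψ.continuous.integrable_of_hasCompactSupport hc
  have i2 : Integrable fun p => fderiv ℝ ψ p (e, 0) :=
    ((hψ.continuous_fderiv one_ne_zero).clm_apply continuous_const).integrable_of_hasCompactSupport
      (hc.fderiv_apply ℝ _)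
  set η : ℕ → ℝ := fun n => 1 / ((n : ℝ) + 1) with hη
  have hη0 : ∀ n, 0 < η n := fun n => by positivity
  set f : ℕ → E × ℝ → ℝ := fun n p => ∫ y, Kr a (η n) (p.1 - y) * u (y, p.2) with hf
  set g : ℕ → E × ℝ → ℝ := fun n p => ∫ y, Kd a (η n) e (p.1 - y) * u (y, p.2) with hg
  have hfm : ∀ n, Measurable (f n) := fun n => measurable_conv hm (measurable_Kr a _)
  have hgm : ∀ n, Measurable (g n) := fun n => measurable_conv hm (measurable_Kd a _ e)
  have hfb : ∀ n p, ‖f n p‖ ≤ 1 * P * C₁ := fun n p => hC₁ P 1 _ (hu p.2) zero_le_one p.1 _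
    fun y hy => Kr_le ha _ (sub_ne_zero.2 hy.symm)
  have hgb : ∀ n p, ‖g n p‖ ≤ a * ‖e‖ * P * C₂ := fun n p => hC₂ P _ _ (hu p.2) (by positivity)
    p.1 _ fun y hy => Kd_le ha _ e (sub_ne_zero.2 hy.symm)
  have hibp : ∀ n, ∫ p, f n p * fderiv ℝ ψ p (e, 0) = -∫ p, g n p * ψ p := fun n =>
    integral_bilinear_hasLineDerivAt_right_eq_neg_left_of_integrable
      (B := ContinuousLinearMap.mul ℝ ℝ) (f := f n) (f' := g n) (g := ψ)
      (g' := fun p => fderiv ℝ ψ p (e, 0)) (v := (e, 0))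
      (i1.bdd_mul (hgm n).aestronglyMeasurable (Eventually.of_forall (hgb n)))
      (i2.bdd_mul (hfm n).aestronglyMeasurable (Eventually.of_forall (hfb n)))
      (i1.bdd_mul (hfm n).aestronglyMeasurable (Eventually.of_forall (hfb n)))
      (fun p _ => hasLineDerivAt_pot ha (hη0 n) hu e p)
      (fun p _ => (hψ.differentiable one_ne_zero p).hasFDerivAt.hasLineDerivAt _)
  have t1 : Tendsto (fun n => ∫ p, f n p * fderiv ℝ ψ p (e, 0)) atTop
      (𝓝 (∫ p : E × ℝ, (∫ y, ‖p.1 - y‖ ^ (-a) * u (y, p.2)) * fderiv ℝ ψ p (e, 0))) := by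
    refine tendsto_integral_of_dominated_convergence
      (fun p => 1 * P * C₁ * ‖fderiv ℝ ψ p (e, 0)‖)
      (fun n => (hfm n).aestronglyMeasurable.mul i2.aestronglyMeasurable)
      (i2.norm.const_mul _) (fun n => Eventually.of_forall fun p => ?_)
      (Eventually.of_forall fun p => Tendsto.mul_const _ ?_)
    · rw [norm_mul]
      exact mul_le_mul_of_nonneg_right (hfb n p) (norm_nonneg _)
    · refine tendsto_pot ha.le (by linarith) (hu p.2) p.1 (A := 1)
        (g := fun n y => Kr a (η n) (p.1 - y))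
        (fun n => (measurable_Kr a _).comp (measurable_const.sub measurable_id))
        (fun n y hy => Kr_le ha _ (sub_ne_zero.2 hy.symm)) fun y hy => ?_
      have := tendsto_reg (norm_pos_iff.2 (sub_ne_zero.2 hy.symm)) (-a / 2)
      rwa [show 2 * (-a / 2) = -a by ring] at this
  have t2 : Tendsto (fun n => ∫ p, g n p * ψ p) atTop
      (𝓝 (∫ p : E × ℝ, -(a * inner ℝ (Vk a (fun y => u (y, p.2)) p.1) e) * ψ p)) := by
    refine tendsto_integral_of_dominated_convergence
      (fun p => a * ‖e‖ * P * C₂ * ‖ψ p‖)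
      (fun n => (hgm n).aestronglyMeasurable.mul i1.aestronglyMeasurable)
      (i1.norm.const_mul _) (fun n => Eventually.of_forall fun p => ?_)
      (Eventually.of_forall fun p => Tendsto.mul_const _ ?_)
    · rw [norm_mul]
      exact mul_le_mul_of_nonneg_right (hgb n p) (norm_nonneg _)
    · have e1 : -(a * inner ℝ (Vk a (fun y => u (y, p.2)) p.1) e) =
          ∫ y, (-a * inner ℝ (p.1 - y) e * ‖p.1 - y‖ ^ (-a - 2)) * u (y, p.2) := by
        unfold Vk
        rw [real_inner_comm, ← integral_inner ((hu p.2).integrable ha ha' p.1), ← neg_mul,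
          ← integral_const_mul]
        refine integral_congr_ae (Eventually.of_forall fun y => ?_)
        simp only [kk, inner_smul_right, real_inner_comm e]
        ring
      rw [e1]
      refine tendsto_pot (a := a + 1) (by linarith) ha' (hu p.2) p.1 (A := a * ‖e‖)
        (g := fun n y => Kd a (η n) e (p.1 - y))
        (fun n => (measurable_Kd a _ e).comp (measurable_const.sub measurable_id))
        (fun n y hy => Kd_le ha _ e (sub_ne_zero.2 hy.symm)) fun y hy => ?_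
      have := tendsto_reg (norm_pos_iff.2 (sub_ne_zero.2 hy.symm)) (-a / 2 - 1)
      rw [show 2 * (-a / 2 - 1) = -a - 2 by ring] at this
      exact this.const_mul _
  simp only [hibp] at t1
  rw [tendsto_nhds_unique t1 t2.neg, ← integral_neg]
  simp only [neg_mul, neg_neg]

end Pool.Agent.H361Z.PM
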