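import Mathlib
import Pool.Agent.H361Z.PM.Compress

set_option autoImplicit false
set_option linter.unusedSectionVars false

open MeasureTheory Set Metric Filter Topology
open scoped ENNReal

namespace Pool.Agent.H361Z.PM

variable {E : Type*} [NormedAddCommGroup E] [InnerProductSpace ℝ E] [FiniteDimensional ℝ E]
  [MeasurableSpace E] [BorelSpace E]

theorem Adm.sum {ι : Type*} (s : Finset ι) {f : ι → E → ℝ} {P : ι → ℝ}
    (hf : ∀ i ∈ s, Adm (P i) (f i)) : Adm (∑ i ∈ s, P i) (fun y => ∑ i ∈ s, f i y) :=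
  ⟨Finset.measurable_sum _ fun i hi => (hf i hi).meas,
    fun y => (Finset.abs_sum_le_sum_abs _ _).trans
      (Finset.sum_le_sum fun i hi => (hf i hi).bd y),
    fun y hy => Finset.sum_eq_zero fun i hi => (hf i hi).supp y hy⟩

theorem sandwich {T : ℝ} (hT : 0 ≤ T) {f g : ℝ × ℝ → ℝ}
    (hf : ContinuousOn f (Icc 0 1 ×ˢ Icc 0 T)) (hg : ContinuousOn g (Icc 0 1 ×ˢ Icc 0 T))
    (hfg : ∀ p ∈ Icc (0 : ℝ) 1 ×ˢ Icc 0 T, f p < g p) :
    ∃ n : ℕ, 0 < n ∧ ∀ i < n, ∃ d : ℝ → ℝ, ContDiff ℝ 1 d ∧ ∀ t ∈ Icc 0 T,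
      ∀ θ ∈ Icc ((i : ℝ) / n) (((i : ℝ) + 1) / n), f (θ, t) < d t ∧ d t < g (θ, t) := by
  have hK : IsCompact (Icc (0 : ℝ) 1 ×ˢ Icc (0 : ℝ) T) := isCompact_Icc.prod isCompact_Icc
  obtain ⟨p₀, hp₀, hmin⟩ := hK.exists_isMinOn
    ((nonempty_Icc.2 zero_le_one).prod (nonempty_Icc.2 hT)) (hg.sub hf)
  set ρ := (g p₀ - f p₀) / 4 with hρ
  have hρ0 : 0 < ρ := by
    have := hfg p₀ hp₀
    rw [hρ]; linarith
  have hgap : ∀ p ∈ Icc (0 : ℝ) 1 ×ˢ Icc 0 T, 4 * ρ ≤ g p - f p := by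
    intro p hp
    have : g p₀ - f p₀ ≤ g p - f p := hmin hp
    rw [hρ]; linarith
  have hu := hK.uniformContinuousOn_of_continuous hf
  rw [Metric.uniformContinuousOn_iff_le] at hu
  obtain ⟨η, hη, hu⟩ := hu ρ hρ0
  obtain ⟨n, hn⟩ := exists_nat_gt (1 / η)
  have hn' : (0 : ℝ) < n := lt_trans (by positivity) hn
  refine ⟨n, by exact_mod_cast hn', fun i hi => ?_⟩
  have hi1 : ((i : ℝ) + 1) / n ≤ 1 := by
    rw [div_le_one hn']; exact_mod_cast hi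
  have hi0 : (0 : ℝ) ≤ (i : ℝ) / n := by positivity
  have hi2 : (i : ℝ) / n ≤ ((i : ℝ) + 1) / n := by gcongr; linarith
  have hc : ContinuousOn (fun t => f ((i : ℝ) / n, t) + 2 * ρ) (Icc 0 T) :=
    (hf.comp (f := fun t : ℝ => ((i : ℝ) / n, t)) (by fun_prop)
      fun t ht => ⟨⟨hi0, hi2.trans hi1⟩, ht⟩).add continuousOn_const
  obtain ⟨q, hq⟩ := exists_polynomial_near_of_continuousOn 0 T _ hc ρ hρ0
  refine ⟨fun t => q.eval t, ?_, fun t ht θ hθ => ?_⟩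
  · have := q.contDiff_aeval (𝕜 := ℝ) 1
    simpa [Polynomial.coe_aeval_eq_eval] using this
  · have hθ' : θ ∈ Icc (0 : ℝ) 1 := ⟨hi0.trans hθ.1, hθ.2.trans hi1⟩
    have h1 := hu (θ, t) ⟨hθ', ht⟩ ((i : ℝ) / n, t) ⟨⟨hi0, hi2.trans hi1⟩, ht⟩ (by
      rw [Prod.dist_eq, dist_self, Real.dist_eq, abs_of_nonneg (sub_nonneg.2 hθ.1)]
      refine max_le ?_ hη.le
      have e : ((i : ℝ) + 1) / n = (i : ℝ) / n + 1 / n := by ring
      have : 1 / (n : ℝ) ≤ η := by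
        rw [div_lt_iff₀ hη] at hn
        rw [div_le_iff₀ hn']; linarith
      linarith [hθ.2])
    have h2 := hq t ht
    have h3 := hgap (θ, t) ⟨hθ', ht⟩
    rw [Real.dist_eq, abs_le] at h1
    rw [abs_lt] at h2
    constructor <;> linarith [h1.1, h1.2, h2.1, h2.2]

theorem Shell.Ok.continuousOn_gam {s : Shell} {N : ℕ} (hN : 0 < N) {T : ℝ} (h : s.Ok N T) :
    ContinuousOn (fun p : ℝ × ℝ => s.gam N p.1 p.2) (Ioi 0 ×ˢ Icc 0 T) := by
  have hL := h.cL.continuous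
  have hb := h.cb.continuous
  have hL' := h.cL.continuous_deriv le_rfl
  have hb' := h.cb.continuous_deriv le_rfl
  have hN' : (0 : ℝ) < N := by exact_mod_cast hN
  unfold Shell.gam
  refine ContinuousOn.div (ContinuousOn.add (by fun_prop) (ContinuousOn.mul (by fun_prop)
    (ContinuousOn.div (by fun_prop) (by fun_prop) fun p hp => (h.bpos _ hp.2).ne')))
    (by fun_prop) fun p hp => (mul_pos hN' hp.1).ne'

/-- the closed range of a shell in the volume coordinate -/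
def Shell.R (s : Shell) (t : ℝ) : Set ℝ := Icc (s.L t) (s.L t + s.μ * s.b t)

theorem Shell.Ok.refine [Nontrivial E] {a : ℝ} (ha : 0 < a) (ha' : a + 1 < dm E)
    {s : Shell} {T : ℝ} (hT : 0 ≤ T) (h : s.Ok (dm E) T) (hL : ∀ t ∈ Icc 0 T, 0 < s.L t)
    {W : ℝ × ℝ → ℝ} (hW : ContinuousOn W (Ioi 0 ×ˢ Icc 0 T)) {σ κ δ τ : ℝ} (hσ : 0 < σ)
    (hκ : 0 < κ) (hδ : 0 < δ) (hτ : 0 < τ)
    (hs : ∀ t ∈ Icc 0 T, ∀ y ∈ s.R t, 0 < W (y, t) ∧ 0 < s.gam (dm E) y t ∧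
      2 * κ ≤ s.b t ^ σ * W (y, t) - s.gam (dm E) y t) :
    ∃ (ι : Type) (_ : Fintype ι) (f : ι → Shell), (∀ i, (f i).Ok (dm E) T) ∧
      (∀ x : E, ∑ i, (f i).den 0 x = s.den 0 x) ∧ ∀ t ∈ Icc 0 T,
      (∀ i, (f i).R t ⊆ s.R t ∧ (f i).S E t ⊆ s.S E t ∧ (f i).b t ≤ s.b t) ∧
      (Pairwise fun i j => Disjoint ((f i).S E t) ((f j).S E t)) ∧
      (∀ x : E, ‖x‖ ≤ 2 → ‖Vk a (fun y => ∑ i, (f i).den t y) x - Vk a (s.den t) x‖ ≤ δ * ‖x‖) ∧
      (∀ i, ∀ y ∈ (f i).R t, |(f i).gam (dm E) y t - s.gam (dm E) y t| ≤ δ ∧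
        κ ≤ (f i).b t ^ σ * W (y, t) - s.gam (dm E) y t ∧
        (τ ≤ t → (f i).b t ^ σ * W (y, t) - s.gam (dm E) y t ≤ 2 * κ)) := by
  set Y : ℝ × ℝ → ℝ := fun p => s.L p.2 + p.1 * (s.μ * s.b p.2) with hY
  have hYR : ∀ p ∈ Icc (0 : ℝ) 1 ×ˢ Icc 0 T, Y p ∈ s.R p.2 := by
    intro p hp
    have h1 := mul_pos h.μpos (h.bpos _ hp.2)
    have h2 := mul_nonneg hp.1.1 h1.le
    have h3 := mul_le_mul_of_nonneg_right hp.1.2 h1.le
    exact ⟨by simp only [hY]; linarith, by simp only [hY]; linarith⟩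
  have hYc : Continuous fun p : ℝ × ℝ => (Y p, p.2) := by
    have hL := h.cL.continuous
    have hb := h.cb.continuous
    simp only [hY]
    fun_prop
  have hYm : MapsTo (fun p : ℝ × ℝ => (Y p, p.2)) (Icc (0 : ℝ) 1 ×ˢ Icc 0 T)
      (Ioi 0 ×ˢ Icc 0 T) := fun p hp => ⟨(hL _ hp.2).trans_le (hYR p hp).1, hp.2⟩
  have cW := hW.comp hYc.continuousOn hYm
  have cγ := (h.continuousOn_gam (dm_pos (E := E))).comp hYc.continuousOn hYm
  set B : ℝ → ℝ × ℝ → ℝ := fun j p =>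
    ((s.gam (dm E) (Y p) p.2 + j * κ) / W (Y p, p.2)) ^ σ⁻¹ with hB
  have cB : ∀ j, ContinuousOn (B j) (Icc (0 : ℝ) 1 ×ˢ Icc 0 T) := fun j =>
    ((cγ.add continuousOn_const).div cW fun p hp => (hs _ hp.2 _ (hYR p hp)).1.ne').rpow_const
      fun _ _ => Or.inr (inv_nonneg.2 hσ.le)
  obtain ⟨n₁, hn₁, hd⟩ := sandwich hT (cB 1) (cB 2) (fun p hp => by
    obtain ⟨k1, k2, -⟩ := hs _ hp.2 _ (hYR p hp)
    refine Real.rpow_lt_rpow (by positivity) ?_ (inv_pos.2 hσ)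
    gcongr
    norm_num)
  have hn₁' : (0 : ℝ) < n₁ := by exact_mod_cast hn₁
  choose! d hdc hd using hd
  set p : ℕ → Shell := fun i => s.sub n₁ s.b i with hp
  have okp : ∀ i < n₁, (p i).Ok (dm E) T :=
    fun i hi => h.sub h.cb h.bpos (fun _ _ => le_rfl) hi
  have hpR : ∀ i < n₁, ∀ t ∈ Icc 0 T, (p i).R t ⊆ s.R t := fun i hi t ht =>
    Icc_subset_Icc (h.sub_range ht le_rfl hi).1 (h.sub_range ht le_rfl hi).2
  have hkey : ∀ i < n₁, ∀ t ∈ Icc 0 T, ∀ y ∈ (p i).R t, 0 < d i t ∧ d i t ≤ s.b t ∧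
      κ ≤ d i t ^ σ * W (y, t) - s.gam (dm E) y t ∧
      d i t ^ σ * W (y, t) - s.gam (dm E) y t ≤ 2 * κ := by
    intro i hi t ht y hy
    have h1 := mul_pos h.μpos (h.bpos _ ht)
    set θ := (y - s.L t) / (s.μ * s.b t) with hθ
    have e : Y (θ, t) = y := by
      simp only [hY, hθ]
      rw [div_mul_cancel₀ _ h1.ne', add_sub_cancel]
    have hθm : θ ∈ Icc ((i : ℝ) / n₁) (((i : ℝ) + 1) / n₁) := by
      have q1 : s.L t + (i : ℝ) / n₁ * (s.μ * s.b t) ≤ y := hy.1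
      have q2 := hy.2.trans (h.sub_top hn₁ ht le_rfl i)
      constructor
      · rw [hθ, le_div_iff₀ h1]; linarith
      · rw [hθ, div_le_iff₀ h1]; linarith
    obtain ⟨k1, k2, k3⟩ := hs t ht y (hpR i hi t ht hy)
    obtain ⟨l1, l2⟩ := hd i hi t ht θ hθm
    simp only [hB, e] at l1 l2
    have l0 : 0 < d i t := lt_of_le_of_lt (Real.rpow_nonneg (by positivity) _) l1
    have m1 := (Real.rpow_inv_lt_iff_of_pos (by positivity) l0.le hσ).1 l1
    have m2 := (Real.lt_rpow_inv_iff_of_pos l0.le (by positivity) hσ).1 l2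
    rw [div_lt_iff₀ k1] at m1
    rw [lt_div_iff₀ k1] at m2
    refine ⟨l0, ?_, by linarith, by linarith⟩
    have m3 : d i t ^ σ * W (y, t) ≤ s.b t ^ σ * W (y, t) := by linarith
    exact (Real.rpow_le_rpow_iff l0.le (h.bpos t ht).le hσ).1 (le_of_mul_le_mul_right m3 k1)
  have hRne : ∀ i < n₁, ∀ t ∈ Icc 0 T, (p i).L t ∈ (p i).R t := fun i hi t ht =>
    ⟨le_rfl, le_add_of_nonneg_right (mul_pos (okp i hi).μpos ((okp i hi).bpos t ht)).le⟩
  set χ : ℝ → ℝ := fun t => Real.smoothTransition (t / τ) with hχ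
  set c : ℕ → ℝ → ℝ := fun i t => s.b t - χ t * (s.b t - d i t) with hc
  have hcc : ∀ i < n₁, ContDiff ℝ 1 (c i) := fun i hi =>
    h.cb.sub (((Real.smoothTransition.contDiff (n := 1)).comp (contDiff_id.div_const τ)).mul
      (h.cb.sub (hdc i hi)))
  have hcb : ∀ i < n₁, ∀ t ∈ Icc 0 T, d i t ≤ c i t ∧ c i t ≤ s.b t := by
    intro i hi t ht
    have k := (hkey i hi t ht _ (hRne i hi t ht)).2.1
    have k0 : 0 ≤ χ t := Real.smoothTransition.nonneg _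
    have k1 : χ t ≤ 1 := Real.smoothTransition.le_one _
    simp only [hc]
    constructor <;> nlinarith
  have hc0 : ∀ i < n₁, ∀ t ∈ Icc 0 T, 0 < c i t := fun i hi t ht =>
    (hkey i hi t ht _ (hRne i hi t ht)).1.trans_le (hcb i hi t ht).1
  have hcomp := fun i : Fin n₁ => (okp i i.2).compress ha ha' hT
    (fun t ht => (hL t ht).trans_le (hpR i i.2 t ht (hRne i i.2 t ht)).1) (hcc i i.2)
    (hc0 i i.2) (fun t ht => (hcb i i.2 t ht).2) (δ := δ / n₁) (by positivity)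
  choose n₂ hn₂ hcomp using hcomp
  have okq : ∀ q : Σ i : Fin n₁, Fin (n₂ i), ((p q.1).sub (n₂ q.1) (c q.1) q.2).Ok (dm E) T :=
    fun q => (okp q.1 q.1.2).sub (hcc _ q.1.2) (hc0 _ q.1.2)
      (fun t ht => (hcb _ q.1.2 t ht).2) q.2.2
  refine ⟨Σ i : Fin n₁, Fin (n₂ i), inferInstance,
    fun q => (p q.1).sub (n₂ q.1) (c q.1) q.2, okq, fun x => ?_, fun t ht => ⟨fun q => ?_, ?_,
      fun x hx => ?_, fun q y hy => ?_⟩⟩
  · have h0 : (0 : ℝ) ∈ Icc 0 T := left_mem_Icc.2 hT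
    rw [Fintype.sum_sigma, ← h.tile hn₁ h0 (b' := s.b) rfl x]
    refine Finset.sum_congr rfl fun i _ => ?_
    have e0 : c i 0 = (p i).b 0 := by
      simp only [hc, hχ, zero_div, Real.smoothTransition.zero, zero_mul, sub_zero]
      rfl
    exact (okp i i.2).tile (hn₂ i) h0 (b' := c i) e0 x
  · have k := (okp q.1 q.1.2).sub_range ht (b' := c q.1) (hcb _ q.1.2 t ht).2 q.2.2
    exact ⟨(Icc_subset_Icc k.1 k.2).trans (hpR _ q.1.2 t ht),
      ((okp q.1 q.1.2).sub_subset ht (hcb _ q.1.2 t ht).2 q.2.2).trans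
        (h.sub_subset ht le_rfl q.1.2), (hcb _ q.1.2 t ht).2⟩
  · rintro ⟨i, j⟩ ⟨i', j'⟩ hne
    by_cases hii : i = i'
    · subst hii
      exact (okp i i.2).sub_disjoint (hn₂ i) ht (hcb _ i.2 t ht).2 (hcb _ i.2 t ht).2
        fun e => hne (congrArg (Sigma.mk i) (Fin.ext e))
    · exact (h.sub_disjoint hn₁ ht le_rfl le_rfl fun e => hii (Fin.ext e)).mono
        ((okp i i.2).sub_subset ht (hcb _ i.2 t ht).2 j.2)
        ((okp i' i'.2).sub_subset ht (hcb _ i'.2 t ht).2 j'.2)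
  · have e1 : (fun y : E => ∑ q : Σ i : Fin n₁, Fin (n₂ i),
        ((p q.1).sub (n₂ q.1) (c q.1) q.2).den t y) =
        fun y => ∑ i : Fin n₁, ∑ j : Fin (n₂ i), ((p i).sub (n₂ i) (c i) j).den t y := by
      funext y
      rw [Fintype.sum_sigma]
    have e2 : (s.den t : E → ℝ) = fun y => ∑ i : Fin n₁, (p i).den t y := by
      funext y
      exact (h.tile hn₁ ht (b' := s.b) rfl y).symm
    rw [e1, e2, Vk_sum ha ha' _ (f := fun (i : Fin n₁) (y : E) =>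
        ∑ j : Fin (n₂ i), ((p i).sub (n₂ i) (c i) j).den t y)
        fun i _ => Adm.sum _ fun j _ => (okq ⟨i, j⟩).adm ht,
      Vk_sum ha ha' _ (f := fun (i : Fin n₁) (y : E) => (p i).den t y)
        fun i _ => (okp i i.2).adm ht, ← Finset.sum_sub_distrib]
    refine (norm_sum_le _ _).trans ((Finset.sum_le_sum fun i _ =>
      ((hcomp i t ht).1 x hx)).trans ?_)
    rw [Finset.sum_const, Finset.card_univ, Fintype.card_fin, nsmul_eq_mul]
    apply le_of_eq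
    field_simp
  · obtain ⟨i, j⟩ := q
    have k := (okp i i.2).sub_range ht (b' := c i) (hcb _ i.2 t ht).2 j.2
    have hy' : y ∈ (p i).R t := Icc_subset_Icc k.1 k.2 hy
    have e : (p i).gam (dm E) y t = s.gam (dm E) y t := by
      have := h.gam_sub n₁ s.b i ht y
      rw [sub_self, mul_zero, zero_div] at this
      exact sub_eq_zero.1 this
    obtain ⟨l0, l1, l2, l3⟩ := hkey i i.2 t ht y hy'
    have hW0 := (hs t ht y (hpR i i.2 t ht hy')).1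
    refine ⟨?_, ?_, fun hτt => ?_⟩
    · rw [← e]
      refine ((hcomp i t ht).2 j j.2 y hy.1 hy.2).trans ?_
      exact div_le_self hδ.le (by exact_mod_cast hn₁)
    · have : d i t ^ σ ≤ c i t ^ σ := Real.rpow_le_rpow l0.le (hcb i i.2 t ht).1 hσ.le
      have : d i t ^ σ * W (y, t) ≤ c i t ^ σ * W (y, t) := by gcongr
      show κ ≤ c i t ^ σ * W (y, t) - _
      linarith
    · have e1 : c i t = d i t := by
        simp only [hc, hχ]
        rw [Real.smoothTransition.one_of_one_le ((one_le_div hτ).2 hτt)]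
        ring
      show c i t ^ σ * W (y, t) - _ ≤ _
      rw [e1]
      exact l3

end Pool.Agent.H361Z.PM
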