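import Mathlib
import Pool.Agent.H361Z.PM.Refine

set_option autoImplicit false
set_option linter.unusedSectionVars false

open MeasureTheory Set Metric Filter Topology
open scoped ENNReal

namespace Pool.Agent.H361Z.PM

variable {E : Type*} [NormedAddCommGroup E] [InnerProductSpace ℝ E] [FiniteDimensional ℝ E]
  [MeasurableSpace E] [BorelSpace E]

/-- parameters -/
structure Prm where
  a : ℝ
  σ : ℝ
  c : ℝ
  T : ℝ
  lo : ℝ
  hi : ℝ
  cK : ℝ

/-- constraints on the parameters -/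
structure Prm.Ok (π : Prm) (N : ℕ) : Prop where
  ha : 0 < π.a
  ha' : π.a + 1 < N
  hσ : 0 < π.σ
  hc : 0 < π.c
  hT : 0 < π.T
  hcT : π.c * π.T ≤ Real.log 2
  hlo : π.c ≤ π.lo
  hK : 0 < π.cK

/-- specific volume of the reference flow -/
noncomputable def Prm.Z (π : Prm) (N : ℕ) (t : ℝ) : ℝ := Real.exp (N * π.c * t)

theorem Prm.Ok.one_le_Z {π : Prm} {N : ℕ} (h : π.Ok N) {t : ℝ} (ht : t ∈ Icc 0 π.T) :
    1 ≤ π.Z N t := Real.one_le_exp (mul_nonneg (mul_nonneg (Nat.cast_nonneg _) h.hc.le) ht.1)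

theorem Prm.Z_eq (π : Prm) (N : ℕ) (t : ℝ) : π.Z N t = Real.exp (π.c * t) ^ N := by
  rw [Prm.Z, ← Real.exp_nat_mul, mul_assoc]

theorem Prm.Ok.exp_le {π : Prm} {N : ℕ} (h : π.Ok N) {t : ℝ} (ht : t ∈ Icc 0 π.T) :
    Real.exp (π.c * t) ≤ 2 := by
  rw [← Real.exp_log two_pos]
  exact Real.exp_le_exp.2 ((mul_le_mul_of_nonneg_left ht.2 h.hc.le).trans h.hcT)

theorem Prm.Ok.Z_le {π : Prm} {N : ℕ} (h : π.Ok N) {t : ℝ} (ht : t ∈ Icc 0 π.T) :
    π.Z N t ≤ 2 ^ N := by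
  rw [π.Z_eq]
  exact pow_le_pow_left₀ (Real.exp_pos _).le (h.exp_le ht) _

theorem Prm.contDiff_Z (π : Prm) (N : ℕ) : ContDiff ℝ 1 (π.Z N) := by
  unfold Prm.Z
  fun_prop

/-- central ball -/
noncomputable def Prm.cen (π : Prm) (N : ℕ) (μ : ℝ) : Shell := ⟨μ, fun _ => 0, π.Z N⟩

theorem Prm.Ok.cen_ok {π : Prm} {N : ℕ} (h : π.Ok N) {μ : ℝ} (h0 : 0 < μ) (h1 : μ ≤ 1) :
    (π.cen N μ).Ok N π.T := by
  refine ⟨h0, contDiff_const, π.contDiff_Z N, fun _ _ => le_rfl, fun t _ => Real.exp_pos _,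
    fun t ht => ?_⟩
  have := h.Z_le ht
  have := h.one_le_Z ht
  simp only [Prm.cen]
  nlinarith

theorem Prm.cen_gam (π : Prm) {N : ℕ} (hN : 0 < N) (μ : ℝ) {y : ℝ} (hy : 0 < y) (t : ℝ) :
    (π.cen N μ).gam N y t = π.c := by
  have hN' : (0 : ℝ) < N := by exact_mod_cast hN
  have e : deriv (π.Z N) t = π.Z N t * (N * π.c) := by
    have h1 : HasDerivAt (fun t : ℝ => N * π.c * t) (N * π.c) t := by
      simpa using (hasDerivAt_id t).const_mul (N * π.c)
    exact h1.exp.deriv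
  have hZ : π.Z N t ≠ 0 := (Real.exp_pos _).ne'
  simp only [Shell.gam, Prm.cen, deriv_const, e]
  field_simp
  ring

theorem Prm.cen_sub_zero (π : Prm) (N : ℕ) (μ : ℝ) :
    (π.cen N μ).sub 2 (π.Z N) 0 = π.cen N (μ / 2) := by
  simp [Prm.cen, Shell.sub]

/-- a finite configuration of shells -/
structure State where
  ι : Type
  [fin : Fintype ι]
  μ0 : ℝ
  f : ι → Shell

instance (S : State) : Fintype S.ι := S.fin

/-- all shells, the central ball included -/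
noncomputable def State.all (S : State) (π : Prm) (N : ℕ) : Option S.ι → Shell
  | none => π.cen N S.μ0
  | some i => S.f i

/-- density of a configuration -/
noncomputable def State.u (S : State) (π : Prm) (t : ℝ) (x : E) : ℝ :=
  ∑ o, (S.all π (dm E) o).den t x

/-- radial rate of the field of a configuration -/
noncomputable def State.W (S : State) (π : Prm) (e : E) (p : ℝ × ℝ) : ℝ :=
  π.cK * ww π.a (S.u π p.2 : E → ℝ) (rad E p.1 • e)

/-- invariants -/
structure State.Valid (S : State) (π : Prm) (e : E) : Prop where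
  μ0pos : 0 < S.μ0
  μ0le : S.μ0 ≤ 1
  ok : ∀ i, (S.f i).Ok (dm E) π.T
  rng : ∀ i, ∀ t ∈ Icc 0 π.T, (S.f i).R t ⊆ Ioc 0 (π.Z (dm E) t)
  ble : ∀ i, ∀ t ∈ Icc 0 π.T, (S.f i).b t ≤ π.Z (dm E) t
  disj : ∀ t ∈ Icc 0 π.T, Pairwise fun i j =>
    Disjoint ((S.all π (dm E) i).S E t) ((S.all π (dm E) j).S E t)
  init : ∀ x : E, S.u π 0 x = (π.cen (dm E) 1).den 0 x
  margin : ∃ η > 0, ∀ t ∈ Icc 0 π.T,
    (∀ y ∈ Ioc 0 (π.Z (dm E) t), π.lo + η ≤ S.W π e (y, t) ∧ S.W π e (y, t) ≤ π.hi - η) ∧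
    ∀ i, ∀ y ∈ (S.f i).R t, π.c / 2 + η ≤ (S.f i).gam (dm E) y t ∧
      (S.f i).gam (dm E) y t ≤ 2 * π.c - η ∧
      η ≤ (S.f i).b t ^ π.σ * S.W π e (y, t) - (S.f i).gam (dm E) y t

theorem State.Valid.ok_all {S : State} {π : Prm} {e : E} (h : S.Valid π e) (hπ : π.Ok (dm E)) :
    ∀ o, (S.all π (dm E) o).Ok (dm E) π.T
  | none => hπ.cen_ok h.μ0pos h.μ0le
  | some i => h.ok i

theorem Shell.Ok.left_mem_R {s : Shell} {N : ℕ} {T : ℝ} (h : s.Ok N T) {t : ℝ}
    (ht : t ∈ Icc 0 T) : s.L t ∈ s.R t :=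
  ⟨le_rfl, le_add_of_nonneg_right (mul_pos h.μpos (h.bpos t ht)).le⟩

theorem State.Valid.continuousOn_W [Nontrivial E] {S : State} {π : Prm} {e : E} (he : ‖e‖ = 1)
    (h : S.Valid π e) (hπ : π.Ok (dm E)) : ContinuousOn (S.W π e) (Ioi 0 ×ˢ Icc 0 π.T) := by
  have c1 : ContinuousOn (fun p : E × ℝ => Vk π.a (S.u π p.2) p.1) (univ ×ˢ Icc 0 π.T) := by
    refine (continuousOn_finsetSum Finset.univ fun o _ =>
      (h.ok_all hπ o).continuousOn_Vk hπ.ha hπ.ha').congr fun p hp => ?_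
    exact Vk_sum hπ.ha hπ.ha' _ (f := fun o (y : E) => (S.all π (dm E) o).den p.2 y)
      (fun o _ => (h.ok_all hπ o).adm hp.2) p.1
  have c0 := continuous_rad (E := E)
  have c2 : Continuous fun p : ℝ × ℝ => rad E p.1 • e := by fun_prop
  have c3 : ContinuousOn (fun p : ℝ × ℝ => Vk π.a (S.u π p.2) (rad E p.1 • e))
      (Ioi 0 ×ˢ Icc 0 π.T) :=
    c1.comp (f := fun p : ℝ × ℝ => (rad E p.1 • e, p.2)) (c2.prodMk continuous_snd).continuousOn
      fun p hp => ⟨mem_univ _, hp.2⟩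
  unfold State.W ww
  refine continuousOn_const.mul ((c3.inner c2.continuousOn).div (c2.norm.pow 2).continuousOn
    fun p hp => ?_)
  rw [norm_smul, he, mul_one, Real.norm_of_nonneg (rad_pos hp.1).le]
  exact (pow_pos (rad_pos hp.1) 2).ne'

theorem State.Valid.step [Nontrivial E] {S : State} {π : Prm} {e : E} (he : ‖e‖ = 1)
    (h : S.Valid π e) (hπ : π.Ok (dm E)) {ε : ℝ} (hε : 0 < ε) :
    ∃ S' : State, S'.Valid π e ∧ S'.μ0 = S.μ0 / 2 ∧ ∀ t ∈ Icc 0 π.T,
      (∀ x : E, S'.u π t x = 0 ∨ (0 < S.u π t x ∧ S.u π t x ≤ S'.u π t x)) ∧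
      (ε ≤ t → ∀ i, ∀ y ∈ (S'.f i).R t,
        (S'.f i).b t ^ π.σ * S'.W π e (y, t) - (S'.f i).gam (dm E) y t ≤ ε) := by
  classical
  obtain ⟨η, hη, hm⟩ := h.margin
  have hc := hπ.hc
  have hN := dm_pos (E := E)
  have okc := hπ.cen_ok h.μ0pos h.μ0le
  have okc2 := hπ.cen_ok (half_pos h.μ0pos) (by linarith [h.μ0le, h.μ0pos])
  set g : Option S.ι → Shell := fun o =>
    Option.elim o ((π.cen (dm E) S.μ0).sub 2 (π.Z (dm E)) 1) S.f with hg
  have okg : ∀ o, (g o).Ok (dm E) π.T := by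
    rintro (_ | i)
    · exact okc.sub okc.cb okc.bpos (fun _ _ => le_rfl) one_lt_two
    · exact h.ok i
  have rngg : ∀ o, ∀ t ∈ Icc 0 π.T, (g o).R t ⊆ Ioc 0 (π.Z (dm E) t) := by
    rintro (_ | i) t ht
    · intro y hy
      have h1 := hπ.one_le_Z ht
      have h2 := h.μ0pos
      have h3 := h.μ0le
      have k1 : (0 : ℝ) + ((1 : ℕ) : ℝ) / ((2 : ℕ) : ℝ) * (S.μ0 * π.Z (dm E) t) ≤ y := hy.1
      have k2 : y ≤ (0 : ℝ) + S.μ0 * π.Z (dm E) t :=
        hy.2.trans (okc.sub_range ht le_rfl one_lt_two).2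
      push_cast at k1
      constructor <;> nlinarith
    · exact h.rng i t ht
  have bleg : ∀ o, ∀ t ∈ Icc 0 π.T, (g o).b t ≤ π.Z (dm E) t := by
    rintro (_ | i) t ht
    · exact le_rfl
    · exact h.ble i t ht
  have subg : ∀ o, ∀ t ∈ Icc 0 π.T, (g o).S E t ⊆ (S.all π (dm E) o).S E t ∧
      (g o).b t = (S.all π (dm E) o).b t := by
    rintro (_ | i) t ht
    · exact ⟨okc.sub_subset ht le_rfl one_lt_two, rfl⟩
    · exact ⟨Subset.rfl, rfl⟩
  have subc : ∀ t ∈ Icc 0 π.T, (π.cen (dm E) (S.μ0 / 2)).S E t ⊆ (π.cen (dm E) S.μ0).S E t := by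
    intro t ht
    rw [← π.cen_sub_zero]
    exact okc.sub_subset ht le_rfl two_pos
  have disjc : ∀ o, ∀ t ∈ Icc 0 π.T, Disjoint ((π.cen (dm E) (S.μ0 / 2)).S E t) ((g o).S E t) := by
    rintro (_ | i) t ht
    · rw [← π.cen_sub_zero]
      exact okc.sub_disjoint two_pos ht le_rfl le_rfl zero_ne_one
    · exact (h.disj t ht (i := none) (j := some i) (by simp)).mono_left (subc t ht)
  have usplit : ∀ t ∈ Icc 0 π.T, ∀ x : E, S.u π t x =
      (π.cen (dm E) (S.μ0 / 2)).den t x + ∑ o, (g o).den t x := by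
    intro t ht x
    have := okc.tile two_pos ht (b' := π.Z (dm E)) rfl x
    rw [Fin.sum_univ_two] at this
    simp only [Fin.val_zero, Fin.val_one, π.cen_sub_zero] at this
    rw [State.u, Fintype.sum_option, Fintype.sum_option, ← add_assoc]
    congr 1
    exact this.symm
  set η' := min η (π.c / 2) with hη'
  have hη'0 : 0 < η' := lt_min hη (half_pos hc)
  have hη'1 : η' ≤ η := min_le_left _ _
  have hη'2 : η' ≤ π.c / 2 := min_le_right _ _
  have marg : ∀ o, ∀ t ∈ Icc 0 π.T, ∀ y ∈ (g o).R t, π.c / 2 + η' ≤ (g o).gam (dm E) y t ∧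
      (g o).gam (dm E) y t ≤ 2 * π.c - η' ∧
      η' ≤ (g o).b t ^ π.σ * S.W π e (y, t) - (g o).gam (dm E) y t := by
    rintro (_ | i) t ht y hy
    · have hy' := rngg none t ht hy
      have e1 : (g none).gam (dm E) y t = π.c := by
        have := okc.gam_sub 2 (π.Z (dm E)) 1 ht y
        rw [show (π.cen (dm E) S.μ0).b = π.Z (dm E) from rfl, sub_self, mul_zero, zero_div,
          π.cen_gam hN _ hy'.1] at this
        exact sub_eq_zero.1 this
      have k1 := ((hm t ht).1 y hy').1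
      have k2 : 1 ≤ (g none).b t ^ π.σ := Real.one_le_rpow (hπ.one_le_Z ht) hπ.hσ.le
      have k3 := hπ.hlo
      rw [e1]
      refine ⟨by linarith, by linarith, ?_⟩
      nlinarith
    · obtain ⟨k1, k2, k3⟩ := (hm t ht).2 i y hy
      exact ⟨le_trans (by linarith) k1, k2.trans (by linarith), hη'1.trans k3⟩
  set κ := min (η' / 2) (ε / 3) with hκ
  have hκ0 : 0 < κ := lt_min (half_pos hη'0) (by positivity)
  have hκ1 : κ ≤ η' / 2 := min_le_left _ _
  have hκ2 : κ ≤ ε / 3 := min_le_right _ _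
  set B : ℝ := ((2 : ℝ) ^ dm E) ^ π.σ with hB
  have hB0 : 0 < B := by positivity
  set A : ℝ := π.cK * Fintype.card (Option S.ι) + 1 with hA
  have hK := hπ.hK
  have hA1 : 1 ≤ A := le_add_of_nonneg_left (by positivity)
  set δ := κ / (2 * A * (B + 1)) with hδ
  have hδ0 : 0 < δ := by positivity
  have hδ1 : (B + 1) * (A * δ) = κ / 2 := by rw [hδ]; field_simp
  have hAδ : 0 < A * δ := by positivity
  have hδ2 : δ ≤ A * δ := le_mul_of_one_le_left hδ0.le hA1
  have href := fun o => (okg o).refine hπ.ha hπ.ha' hπ.hT.le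
    (fun t ht => (rngg o t ht ((okg o).left_mem_R ht)).1) (h.continuousOn_W he hπ) hπ.hσ hκ0
    hδ0 hε (fun t ht y hy => by
      obtain ⟨k1, k2, k3⟩ := marg o t ht y hy
      have k4 := ((hm t ht).1 y (rngg o t ht hy)).1
      have k5 := hπ.hlo
      exact ⟨by linarith, by linarith, by linarith⟩)
  choose ι fin F okF initF hF using href
  set S' : State := ⟨Σ o, ι o, S.μ0 / 2, fun q => F q.1 q.2⟩ with hS'
  have u'split : ∀ t, ∀ x : E, S'.u π t x =
      (π.cen (dm E) (S.μ0 / 2)).den t x + ∑ o, ∑ j, (F o j).den t x := by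
    intro t x
    rw [State.u, Fintype.sum_option, ← Fintype.sum_sigma' fun o j => (F o j).den t x]
    rfl
  have disj' : ∀ t ∈ Icc 0 π.T, Pairwise fun i j =>
      Disjoint ((S'.all π (dm E) i).S E t) ((S'.all π (dm E) j).S E t) := by
    rintro t ht (_ | ⟨o, j⟩) (_ | ⟨o', j'⟩) hne
    · exact absurd rfl hne
    · exact (disjc o' t ht).mono_right ((hF o' t ht).1 j').2.1
    · exact ((disjc o t ht).mono_right ((hF o t ht).1 j).2.1).symm
    · by_cases hoo : o = o'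
      · subst hoo
        exact (hF o t ht).2.1 fun e => hne (congrArg (fun j => some (Sigma.mk o j)) e)
      · exact (h.disj t ht hoo).mono (((hF o t ht).1 j).2.1.trans (subg o t ht).1)
          (((hF o' t ht).1 j').2.1.trans (subg o' t ht).1)
  have hWW : ∀ t ∈ Icc 0 π.T, ∀ y ∈ Ioc 0 (π.Z (dm E) t),
      |S'.W π e (y, t) - S.W π e (y, t)| ≤ A * δ := by
    intro t ht y hy
    have hn : ‖rad E y • e‖ = rad E y := by
      rw [norm_smul, he, mul_one, Real.norm_of_nonneg (rad_pos hy.1).le]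
    have hx0 : rad E y • e ≠ 0 := norm_pos_iff.1 (by rw [hn]; exact rad_pos hy.1)
    have hx2 : ‖rad E y • e‖ ≤ 2 :=
      norm_le_two (by rw [hn, rad_pow hy.1.le]; exact hy.2.trans (hπ.Z_le ht))
    have k : ‖Vk π.a (S'.u π t) (rad E y • e) - Vk π.a (S.u π t) (rad E y • e)‖ ≤
        (Fintype.card (Option S.ι) * δ) * ‖rad E y • e‖ := by
      have a1 : Adm _ (fun x : E => ∑ o, ∑ j, (F o j).den t x) :=
        Adm.sum (f := fun o x => ∑ j, (F o j).den t x) Finset.univ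
          fun o _ => Adm.sum _ fun j _ => (okF o j).adm ht
      have a2 : Adm _ (fun x : E => ∑ o, (g o).den t x) :=
        Adm.sum (f := fun o x => (g o).den t x) Finset.univ fun o _ => (okg o).adm ht
      have a3 : Adm _ (S'.u π t : E → ℝ) := Adm.sum
        (f := fun o x => (S'.all π (dm E) o).den t x)
        (P := fun o => ((S'.all π (dm E) o).b t)⁻¹) Finset.univ (by
          rintro (_ | ⟨o, j⟩) -
          · exact okc2.adm ht
          · exact (okF o j).adm ht)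
      have a4 : Adm _ (S.u π t : E → ℝ) := Adm.sum
        (f := fun o x => (S.all π (dm E) o).den t x) Finset.univ
        fun o _ => (h.ok_all hπ o).adm ht
      have e1 : Vk π.a (S'.u π t) (rad E y • e) - Vk π.a (S.u π t) (rad E y • e) =
          Vk π.a (fun x : E => ∑ o, ∑ j, (F o j).den t x) (rad E y • e) -
            Vk π.a (fun x : E => ∑ o, (g o).den t x) (rad E y • e) := by
        rw [← Vk_sub hπ.ha hπ.ha' a3 a4, ← Vk_sub hπ.ha hπ.ha' a1 a2]
        congr 1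
        funext x
        rw [u'split, usplit t ht]
        ring
      rw [e1, Vk_sum hπ.ha hπ.ha' _ (f := fun o (x : E) => ∑ j, (F o j).den t x)
          fun o _ => Adm.sum _ fun j _ => (okF o j).adm ht,
        Vk_sum hπ.ha hπ.ha' _ (f := fun o (x : E) => (g o).den t x) fun o _ => (okg o).adm ht,
        ← Finset.sum_sub_distrib]
      refine (norm_sum_le _ _).trans ((Finset.sum_le_sum fun o _ =>
        ((hF o t ht).2.2.1 _ hx2)).trans ?_)
      rw [Finset.sum_const, Finset.card_univ, nsmul_eq_mul, mul_assoc]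
    have k2 := abs_ww_sub_le π.a _ _ hx0 k
    simp only [State.W]
    rw [← mul_sub, abs_mul, abs_of_pos hK]
    calc _ ≤ π.cK * (Fintype.card (Option S.ι) * δ) := by gcongr
      _ ≤ A * δ := by rw [hA]; nlinarith
  have hbB : ∀ o j, ∀ t ∈ Icc 0 π.T, 0 ≤ (F o j).b t ^ π.σ ∧ (F o j).b t ^ π.σ ≤ B := by
    intro o j t ht
    have k := ((okF o j).bpos t ht).le
    exact ⟨Real.rpow_nonneg k _, Real.rpow_le_rpow k
      (((hF o t ht).1 j).2.2.trans ((bleg o t ht).trans (hπ.Z_le ht))) hπ.hσ.le⟩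
  have hD : ∀ o j, ∀ t ∈ Icc 0 π.T, ∀ y ∈ (F o j).R t,
      |((F o j).b t ^ π.σ * S'.W π e (y, t) - (F o j).gam (dm E) y t) -
        ((F o j).b t ^ π.σ * S.W π e (y, t) - (g o).gam (dm E) y t)| ≤ κ / 2 := by
    intro o j t ht y hy
    have k1 := hWW t ht y (rngg o t ht (((hF o t ht).1 j).1 hy))
    have k2 := ((hF o t ht).2.2.2 j y hy).1
    obtain ⟨k3, k4⟩ := hbB o j t ht
    have k5 : |(F o j).b t ^ π.σ * (S'.W π e (y, t) - S.W π e (y, t))| ≤ B * (A * δ) := by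
      rw [abs_mul, abs_of_nonneg k3]
      gcongr
    rw [abs_le] at k2 k5 ⊢
    constructor <;> nlinarith [k2.1, k2.2, k5.1, k5.2]
  have hAδκ : A * δ ≤ κ / 2 := by nlinarith
  refine ⟨S', ⟨half_pos h.μ0pos, by simp only [hS']; linarith [h.μ0le, h.μ0pos],
    fun q => okF q.1 q.2, fun q t ht => ((hF q.1 t ht).1 q.2).1.trans (rngg q.1 t ht),
    fun q t ht => ((hF q.1 t ht).1 q.2).2.2.trans (bleg q.1 t ht), disj', fun x => ?_,
    ⟨κ / 2, half_pos hκ0, fun t ht => ⟨fun y hy => ?_, fun q y hy => ?_⟩⟩⟩, rfl,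
    fun t ht => ⟨fun x => ?_, fun hεt q y hy => ?_⟩⟩
  · rw [← h.init, u'split, usplit 0 (left_mem_Icc.2 hπ.hT.le)]
    simp only [initF]
  · have k1 := hWW t ht y hy
    obtain ⟨k2, k3⟩ := (hm t ht).1 y hy
    rw [abs_le] at k1
    constructor <;> linarith [k1.1, k1.2]
  · obtain ⟨o, j⟩ := q
    obtain ⟨k1, k2, -⟩ := marg o t ht y (((hF o t ht).1 j).1 hy)
    obtain ⟨k3, k4, -⟩ := (hF o t ht).2.2.2 j y hy
    have k5 := hD o j t ht y hy
    rw [abs_le] at k3 k5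
    refine ⟨?_, ?_, ?_⟩
    · show _ ≤ (F o j).gam (dm E) y t
      linarith [k3.1]
    · show (F o j).gam (dm E) y t ≤ _
      linarith [k3.2]
    · show _ ≤ (F o j).b t ^ π.σ * S'.W π e (y, t) - (F o j).gam (dm E) y t
      linarith [k5.1]
  · by_cases hx : ∃ o', x ∈ (S'.all π (dm E) o').S E t
    · right
      obtain ⟨o', ho'⟩ := hx
      have key : ∃ o, x ∈ (S.all π (dm E) o).S E t ∧ 0 < (S'.all π (dm E) o').b t ∧
          (S'.all π (dm E) o').b t ≤ (S.all π (dm E) o).b t := by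
        rcases o' with _ | ⟨o, j⟩
        · exact ⟨none, subc t ht ho', okc2.bpos t ht, le_rfl⟩
        · exact ⟨o, (subg o t ht).1 (((hF o t ht).1 j).2.1 ho'), (okF o j).bpos t ht,
            ((hF o t ht).1 j).2.2.trans (subg o t ht).2.le⟩
      obtain ⟨o, k1, k2, k3⟩ := key
      rw [State.u, State.u, sum_den_eq' _ (h.disj t ht) k1, sum_den_eq' _ (disj' t ht) ho']
      exact ⟨inv_pos.2 (k2.trans_le k3), inv_anti₀ k2 k3⟩
    · left
      exact sum_den_zero' _ (not_exists.1 hx)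
  · obtain ⟨o, j⟩ := q
    have k4 := ((hF o t ht).2.2.2 j y hy).2.2 hεt
    have k5 := hD o j t ht y hy
    rw [abs_le] at k5
    show (F o j).b t ^ π.σ * S'.W π e (y, t) - (F o j).gam (dm E) y t ≤ _
    linarith [k5.2]

end Pool.Agent.H361Z.PM
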