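import Mathlib
import Pool.Agent.H361Z.PM.Shell

set_option autoImplicit false
set_option linter.unusedSectionVars false

open MeasureTheory Set Metric Filter Topology
open scoped ENNReal

namespace Pool.Agent.H361Z.PM

variable {E : Type*} [NormedAddCommGroup E] [InnerProductSpace ℝ E] [FiniteDimensional ℝ E]
  [MeasurableSpace E] [BorelSpace E]

/-- test functions -/
structure Test (T : ℝ) (φ : E × ℝ → ℝ) : Prop where
  cont : ContinuousOn φ (univ ×ˢ Icc 0 T)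
  diff : ∀ p ∈ (univ : Set E) ×ˢ Ioo 0 T, DifferentiableAt ℝ φ p
  bdd : ∃ M, ∀ p : E × ℝ, ‖p.1‖ ≤ 2 → p.2 ∈ Ioo 0 T → ‖fderiv ℝ φ p‖ ≤ M
  fin : ∀ x, φ (x, T) = 0

theorem meas_D {α : Type*} [MeasurableSpace α] (φ : E × ℝ → ℝ) {f g : α → E × ℝ}
    (hf : Measurable f) (hg : Measurable g) : Measurable fun w => fderiv ℝ φ (f w) (g w) :=
  ContinuousLinearMap.measurable_apply₂.comp
    (((measurable_fderiv ℝ φ).comp hf).prodMk hg)

/-- the space-time cylinder -/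
def QT (E : Type*) (T : ℝ) : Set (E × ℝ) := univ ×ˢ Ioo 0 T

theorem measurableSet_QT (T : ℝ) : MeasurableSet (QT E T) :=
  MeasurableSet.univ.prod measurableSet_Ioo

theorem restrict_QT (T : ℝ) : (volume : Measure (E × ℝ)).restrict (QT E T) =
    (volume : Measure E).prod (volume.restrict (Ioo 0 T)) := by
  rw [QT, Measure.volume_eq_prod, ← Measure.prod_restrict, Measure.restrict_univ]

theorem integrableOn_QT {F : Type*} [NormedAddCommGroup F] {T : ℝ} {f : E × ℝ → F}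
    (hf : AEStronglyMeasurable f (volume.restrict (QT E T))) (M : ℝ)
    (hb : ∀ p : E × ℝ, p.2 ∈ Ioo 0 T → ‖p.1‖ ≤ 2 → ‖f p‖ ≤ M)
    (hs : ∀ p : E × ℝ, p.2 ∈ Ioo 0 T → 2 < ‖p.1‖ → f p = 0) : IntegrableOn f (QT E T) := by
  have hK : IsCompact (closedBall (0 : E) 2 ×ˢ Icc (0 : ℝ) T) :=
    (isCompact_closedBall _ _).prod isCompact_Icc
  have hg : Integrable ((closedBall (0 : E) 2 ×ˢ Icc (0 : ℝ) T).indicator fun _ => |M|) :=
    (integrable_indicator_iff hK.measurableSet).2 (integrableOn_const hK.measure_lt_top.ne)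
  refine Integrable.mono' hg.integrableOn hf ?_
  filter_upwards [ae_restrict_mem (measurableSet_QT T)] with p hp
  by_cases h2 : ‖p.1‖ ≤ 2
  · rw [indicator_of_mem (show p ∈ closedBall (0 : E) 2 ×ˢ Icc (0 : ℝ) T from
      ⟨mem_closedBall_zero_iff.2 h2, Ioo_subset_Icc_self hp.2⟩)]
    exact (hb p hp.2 h2).trans (le_abs_self _)
  · rw [hs p hp.2 (not_le.1 h2), norm_zero]
    exact indicator_nonneg (fun _ _ => abs_nonneg _) _

/-- integrand of the weak formulation for a shell -/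
noncomputable def Shell.wf (s : Shell) (φ : E × ℝ → ℝ) (p : E × ℝ) : ℝ :=
  s.den p.2 p.1 * fderiv ℝ φ p (s.gam (dm E) (‖p.1‖ ^ dm E) p.2 • p.1, 1)

theorem Shell.Ok.meas_wf {s : Shell} {T : ℝ} (h : s.Ok (dm E) T) (φ : E × ℝ → ℝ) :
    Measurable (s.wf φ) := by
  unfold Shell.wf
  refine h.meas_den.mul (meas_D φ measurable_id ?_)
  have : Measurable fun p : E × ℝ => s.gam (dm E) (‖p.1‖ ^ dm E) p.2 :=
    h.meas_gam.comp (f := fun p : E × ℝ => (‖p.1‖ ^ dm E, p.2)) (by fun_prop)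
  fun_prop

theorem norm_D_le {A : E × ℝ →L[ℝ] ℝ} {M Γ γ : ℝ} (hA : ‖A‖ ≤ M) (hγ : |γ| ≤ Γ) {x : E}
    (hx : ‖x‖ ≤ 2) : ‖A (γ • x, 1)‖ ≤ M * (2 * Γ + 1) := by
  refine (A.le_opNorm _).trans ?_
  have h1 : ‖((γ • x, 1) : E × ℝ)‖ ≤ 2 * Γ + 1 := by
    rw [Prod.norm_def]
    have h0 : 0 ≤ Γ := (abs_nonneg _).trans hγ
    refine max_le ?_ (by simp; linarith)
    simp only [norm_smul, Real.norm_eq_abs]
    nlinarith [abs_nonneg γ, norm_nonneg x]
  exact mul_le_mul hA h1 (norm_nonneg _) ((norm_nonneg A).trans hA)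

theorem Shell.Ok.integrable_wf [Nontrivial E] {s : Shell} {T Γ : ℝ} (hT : 0 < T)
    (h : s.Ok (dm E) T)
    (hγ : ∀ t ∈ Icc 0 T, ∀ y, s.L t < y → y ≤ s.L t + s.μ * s.b t → |s.gam (dm E) y t| ≤ Γ)
    {φ : E × ℝ → ℝ} (hφ : Test T φ) : IntegrableOn (s.wf φ) (QT E T) := by
  obtain ⟨M, hM⟩ := hφ.bdd
  obtain ⟨β, hβ, hβb⟩ := h.exists_lb hT.le
  refine integrableOn_QT (h.meas_wf φ).aestronglyMeasurable (β⁻¹ * (|M| * (2 * |Γ| + 1)))
    (fun p hp h2 => ?_) (fun p hp h2 => ?_)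
  · have ht := Ioo_subset_Icc_self hp
    unfold Shell.wf
    by_cases hx : p.1 ∈ s.S E p.2
    · rw [norm_mul, s.den_of_mem hx, Real.norm_of_nonneg (inv_nonneg.2 (h.bpos _ ht).le)]
      have h1 := norm_D_le ((hM p h2 hp).trans (le_abs_self _))
        ((hγ _ ht _ hx.1 hx.2).trans (le_abs_self _)) h2
      have h3 := hβb _ ht
      gcongr
    · rw [s.den_of_notMem hx, zero_mul, norm_zero]
      positivity
  · unfold Shell.wf
    rw [(h.adm (Ioo_subset_Icc_self hp)).supp _ h2, zero_mul]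

theorem Shell.Ok.hasDerivAt_par [Nontrivial E] {s : Shell} {T : ℝ} (h : s.Ok (dm E) T) {t : ℝ}
    (ht : t ∈ Icc 0 T) {z : sphere (0 : E) 1 × ℝ} (hz : z.2 ∈ Ioc (0 : ℝ) 1) :
    HasDerivAt (fun t => par (s.L t) (s.μ * s.b t) z)
      (s.gam (dm E) (‖par (s.L t) (s.μ * s.b t) z‖ ^ dm E) t • par (s.L t) (s.μ * s.b t) z) t := by
  have hL := (h.cL.differentiable one_ne_zero t).hasDerivAt
  have hb := (h.cb.differentiable one_ne_zero t).hasDerivAt
  have hy : 0 < s.L t + z.2 * (s.μ * s.b t) := (h.Lnn t ht).trans_lt (h.par_pos ht hz).1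
  have h1 : HasDerivAt (fun t => s.L t + z.2 * (s.μ * s.b t))
      (deriv s.L t + z.2 * (s.μ * deriv s.b t)) t :=
    hL.add ((hb.const_mul s.μ).const_mul z.2)
  have h2 := ((hasDerivAt_rad (E := E) hy).comp t h1).smul_const (z.1 : E)
  rw [(h.par_mem ht hz).1]
  refine h2.congr_deriv ?_
  unfold par Shell.gam
  rw [smul_smul]
  congr 1
  have := (h.bpos t ht).ne'
  have hN : (0 : ℝ) < dm E := by exact_mod_cast (dm_pos (E := E))
  field_simp
  ring

theorem Shell.Ok.weak [Nontrivial E] {s : Shell} {T Γ : ℝ} (hT : 0 < T)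
    (h : s.Ok (dm E) T)
    (hγ : ∀ t ∈ Icc 0 T, ∀ y, s.L t < y → y ≤ s.L t + s.μ * s.b t → |s.gam (dm E) y t| ≤ Γ)
    {φ : E × ℝ → ℝ} (hφ : Test T φ) :
    (∫ p in QT E T, s.wf φ p) + ∫ x, s.den 0 x * φ (x, 0) = 0 := by
  obtain ⟨M, hM⟩ := hφ.bdd
  have hi := h.integrable_wf hT hγ hφ
  rw [IntegrableOn, restrict_QT] at hi
  rw [restrict_QT, integral_prod_symm _ hi]
  set X : ℝ → sphere (0 : E) 1 × ℝ → E := fun t z => par (s.L t) (s.μ * s.b t) z with hX
  set G : ℝ → sphere (0 : E) 1 × ℝ → ℝ := fun t z =>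
    fderiv ℝ φ (X t z, t) (s.gam (dm E) (‖X t z‖ ^ dm E) t • X t z, 1) with hG
  have hXc : Continuous fun q : ℝ × (sphere (0 : E) 1 × ℝ) => X q.1 q.2 := by
    have hL := h.cL.continuous
    have hb := h.cb.continuous
    exact continuous_par.comp (f := fun q : ℝ × (sphere (0 : E) 1 × ℝ) =>
      ((s.L q.1, s.μ * s.b q.1), q.2)) (by fun_prop)
  have hGm : Measurable (Function.uncurry G) := by
    have m1 := hXc.measurable
    have m2 : Measurable fun q : ℝ × (sphere (0 : E) 1 × ℝ) =>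
        s.gam (dm E) (‖X q.1 q.2‖ ^ dm E) q.1 :=
      h.meas_gam.comp (f := fun q : ℝ × (sphere (0 : E) 1 × ℝ) => (‖X q.1 q.2‖ ^ dm E, q.1))
        ((m1.norm.pow_const _).prodMk measurable_fst)
    exact meas_D φ (m1.prodMk measurable_fst) ((m2.smul m1).prodMk measurable_const)
  have hGb : ∀ t ∈ Ioo 0 T, ∀ z : sphere (0 : E) 1 × ℝ, z.2 ∈ Ioc (0 : ℝ) 1 →
      ‖G t z‖ ≤ M * (2 * Γ + 1) := by
    intro t ht z hz
    have ht' := Ioo_subset_Icc_self ht
    have hm := (h.par_mem ht' hz).2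
    have h2 := h.norm_le ht' hm
    exact norm_D_le (hM (X t z, t) h2 ht) (hγ t ht' _ hm.1 hm.2) h2
  have e1 : ∫ t in Ioo 0 T, ∫ x, s.wf φ (x, t) =
      ∫ t in Ioo 0 T, (s.μ / dm E) * ∫ z, G t z ∂(nu E) := by
    refine setIntegral_congr_fun measurableSet_Ioo fun t ht => ?_
    have m2 : Measurable fun x : E => s.gam (dm E) (‖x‖ ^ dm E) t :=
      h.meas_gam.comp (f := fun x : E => (‖x‖ ^ dm E, t)) (by fun_prop)
    have m : Measurable fun x : E => fderiv ℝ φ (x, t) (s.gam (dm E) (‖x‖ ^ dm E) t • x, 1) :=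
      meas_D φ (by fun_prop) (by fun_prop)
    exact h.integral_den (Ioo_subset_Icc_self ht) _ m.stronglyMeasurable
  have hGi : Integrable (Function.uncurry G) ((volume.restrict (Ioo 0 T)).prod (nu E)) := by
    refine Integrable.of_bound hGm.aestronglyMeasurable (M * (2 * Γ + 1)) ?_
    have a1 : ∀ᵐ q ∂((volume.restrict (Ioo 0 T)).prod (nu E)), q.1 ∈ Ioo 0 T :=
      Measure.quasiMeasurePreserving_fst.ae (ae_restrict_mem measurableSet_Ioo)
    have a2 : ∀ᵐ q ∂((volume.restrict (Ioo 0 T)).prod (nu E)), q.2.2 ∈ Ioc (0 : ℝ) 1 :=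
      Measure.quasiMeasurePreserving_snd.ae (ae_nu (E := E))
    filter_upwards [a1, a2] with q h1 h2
    exact hGb _ h1 _ h2
  have h0 : (0 : ℝ) ∈ Icc 0 T := left_mem_Icc.2 hT.le
  have c0 : Continuous fun x : E => φ (x, 0) :=
    hφ.cont.comp_continuous (by fun_prop) fun x => ⟨mem_univ _, h0⟩
  have e2 := h.integral_den h0 (fun x : E => φ (x, 0)) c0.stronglyMeasurable
  simp only [smul_eq_mul] at e2
  rw [e1, integral_const_mul, integral_integral_swap hGi, e2, ← mul_add]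
  have e3 : ∫ z, (∫ t in Ioo 0 T, G t z) ∂(nu E) = ∫ z, -φ (X 0 z, 0) ∂(nu E) := by
    refine integral_congr_ae ?_
    filter_upwards [ae_nu (E := E)] with z hz
    have cX : Continuous fun t => X t z :=
      hXc.comp (f := fun t : ℝ => (t, z)) (by fun_prop)
    have k1 : ContinuousOn (fun t => φ (X t z, t)) (Icc 0 T) :=
      hφ.cont.comp (cX.prodMk continuous_id).continuousOn fun t ht => ⟨mem_univ _, ht⟩
    have k2 : ∀ t ∈ Ioo 0 T, HasDerivAt (fun t => φ (X t z, t)) (G t z) t := by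
      intro t ht
      have d1 := (h.hasDerivAt_par (Ioo_subset_Icc_self ht) hz).prodMk (hasDerivAt_id t)
      exact HasFDerivAt.comp_hasDerivAt (f := fun t => (X t z, t)) t
        (hφ.diff (X t z, t) ⟨mem_univ _, ht⟩).hasFDerivAt d1
    have k3 : IntervalIntegrable (fun t => G t z) volume 0 T := by
      rw [intervalIntegrable_iff_integrableOn_Ioo_of_le hT.le]
      refine Integrable.of_bound
        (hGm.comp (f := fun t : ℝ => (t, z)) (by fun_prop)).aestronglyMeasurable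
        (M * (2 * Γ + 1)) ?_
      filter_upwards [ae_restrict_mem measurableSet_Ioo] with t ht
      exact hGb t ht z hz
    have k4 := intervalIntegral.integral_eq_sub_of_hasDerivAt_of_le hT.le k1 k2 k3
    rw [intervalIntegral.integral_of_le hT.le, integral_Ioc_eq_integral_Ioo, hφ.fin,
      zero_sub] at k4
    exact k4
  rw [e3, integral_neg, neg_add_cancel, mul_zero]

end Pool.Agent.H361Z.PM
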