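import Mathlib
import Pool.Agent.H361Z.PM.Step
import Pool.Agent.H361Z.PM.Weak
import Pool.Agent.H361Z.PM.Ball

set_option autoImplicit false
set_option linter.unusedSectionVars false

open MeasureTheory Set Metric Filter Topology
open scoped ENNReal

namespace Pool.Agent.H361Z.PM

variable {E : Type*} [NormedAddCommGroup E] [InnerProductSpace ℝ E] [FiniteDimensional ℝ E]
  [MeasurableSpace E] [BorelSpace E]

theorem seq_limit {v : ℕ → ℝ} {P : ℝ} (hP : ∀ k, v k ≤ P)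
    (h : ∀ k, v (k + 1) = 0 ∨ (0 < v k ∧ v k ≤ v (k + 1))) :
    ∃ l, Tendsto v atTop (𝓝 l) ∧ (l = 0 ∨ ∀ k, 0 < v k ∧ v k ≤ l) := by
  by_cases h0 : ∃ k, v (k + 1) = 0
  · obtain ⟨k, hk⟩ := h0
    refine ⟨0, tendsto_const_nhds.congr' ?_, Or.inl rfl⟩
    filter_upwards [eventually_ge_atTop (k + 1)] with n hn
    induction n, hn using Nat.le_induction with
    | base => exact hk.symm
    | succ n _ ih =>
      rcases h n with h1 | h1
      · exact h1.symm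
      · rw [← ih] at h1
        exact absurd h1.1 (lt_irrefl _)
  · have h1 : ∀ k, 0 < v k ∧ v k ≤ v (k + 1) := fun k =>
      (h k).resolve_left fun e => h0 ⟨k, e⟩
    have hm : Monotone v := monotone_nat_of_le_succ fun k => (h1 k).2
    have hb : BddAbove (range v) := ⟨P, by rintro _ ⟨k, rfl⟩; exact hP k⟩
    exact ⟨_, tendsto_atTop_ciSup hm hb, Or.inr fun k => ⟨(h1 k).1, le_ciSup hb k⟩⟩

theorem cen_den_ae [Nontrivial E] (π : Prm) (t : ℝ) :
    ∀ᵐ x : E, (π.cen (dm E) 1).den t x = (π.Z (dm E) t)⁻¹ * cb (Real.exp (π.c * t)) x := by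
  have h0 : ∀ᵐ x : E, x ≠ 0 := by
    rw [ae_iff]
    simp
  filter_upwards [h0] with x hx
  have hn : 0 < ‖x‖ ^ dm E := pow_pos (norm_pos_iff.2 hx) _
  have hiff : ‖x‖ ^ dm E ≤ π.Z (dm E) t ↔ ‖x‖ ≤ Real.exp (π.c * t) := by
    rw [π.Z_eq]
    exact pow_le_pow_iff_left₀ (norm_nonneg _) (Real.exp_pos _).le (dm_pos (E := E)).ne'
  rcases le_or_gt ‖x‖ (Real.exp (π.c * t)) with h | h
  · rw [cb_of_le h, mul_one, Shell.den_of_mem]
    · rfl
    · exact ⟨hn, by simpa [Prm.cen] using hiff.2 h⟩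
  · rw [cb_of_lt h, mul_zero, Shell.den_of_notMem]
    intro hs
    have : ‖x‖ ^ dm E ≤ π.Z (dm E) t := by simpa [Prm.cen] using hs.2
    exact absurd (hiff.1 this) (not_le.2 h)

/-- the initial configuration -/
def S0 : State := ⟨Empty, 1, fun i => i.elim⟩

theorem S0_u (π : Prm) (t : ℝ) (x : E) : S0.u π t x = (π.cen (dm E) 1).den t x := by
  rw [State.u, Fintype.sum_option]
  have : IsEmpty S0.ι := inferInstanceAs (IsEmpty Empty)
  rw [Fintype.sum_empty, add_zero]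
  rfl

theorem exists_S0 [Nontrivial E] {a cK : ℝ} (ha : 0 < a) (ha' : a + 1 < dm E) (hK : 0 < cK) :
    ∃ lo hi : ℝ, 0 < lo ∧ ∀ π : Prm, π.Ok (dm E) → π.a = a → π.cK = cK → π.lo = lo → π.hi = hi →
      ∀ e : E, ‖e‖ = 1 → S0.Valid π e := by
  obtain ⟨l, hl, hlo⟩ := ball_lower (E := E) ha ha'
  obtain ⟨h, hh, hhi⟩ := ball_upper (E := E) ha ha'
  refine ⟨cK * l / 2 ^ dm E / 2, cK * h + cK * l / 2 ^ dm E / 2, by positivity,
    fun π hπ e1 e2 e3 e4 e he => ⟨one_pos, le_rfl, fun i => i.elim, fun i => i.elim,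
      fun i => i.elim, ?_, fun x => S0_u π 0 x, cK * l / 2 ^ dm E / 2, by positivity,
      fun t ht => ⟨fun y hy => ?_, fun i => i.elim⟩⟩⟩
  · rintro t ht (_ | i) (_ | j) hne
    · exact absurd rfl hne
    · exact j.elim
    · exact i.elim
    · exact i.elim
  · have hn : ‖rad E y • e‖ = rad E y := by
      rw [norm_smul, he, mul_one, Real.norm_of_nonneg (rad_pos hy.1).le]
    have hx0 : rad E y • e ≠ 0 := norm_pos_iff.1 (by rw [hn]; exact rad_pos hy.1)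
    have hR1 : 1 ≤ Real.exp (π.c * t) := Real.one_le_exp (mul_nonneg hπ.hc.le ht.1)
    have hR2 := hπ.exp_le ht
    have hxR : ‖rad E y • e‖ ≤ Real.exp (π.c * t) := by
      refine le_of_pow_le_pow_left₀ (dm_pos (E := E)).ne' (Real.exp_pos _).le ?_
      rw [hn, rad_pow hy.1.le, ← π.Z_eq]
      exact hy.2
    have k1 := hlo _ hR1 hR2 _ hx0 hxR
    have k2 := hhi _ hR1 hR2 _ hx0
    have e5 : Vk a (S0.u π t) (rad E y • e) =
        (π.Z (dm E) t)⁻¹ • Vk a (cb (Real.exp (π.c * t))) (rad E y • e) := by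
      unfold Vk
      rw [← integral_smul]
      refine integral_congr_ae ?_
      filter_upwards [cen_den_ae (E := E) π t] with x hx
      rw [S0_u, hx, mul_smul]
    have e6 : S0.W π e (y, t) =
        cK * ((π.Z (dm E) t)⁻¹ * ww a (cb (Real.exp (π.c * t))) (rad E y • e)) := by
      simp only [State.W, ww, e1, e2, e5, inner_smul_left, conj_trivial, mul_div_assoc]
    have z1 := hπ.one_le_Z ht
    have z2 := hπ.Z_le ht
    have z3 : (π.Z (dm E) t)⁻¹ ≤ 1 := inv_le_one_of_one_le₀ z1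
    have z4 : ((2 : ℝ) ^ dm E)⁻¹ ≤ (π.Z (dm E) t)⁻¹ := inv_anti₀ (by linarith) z2
    rw [e6, e3, e4]
    constructor
    · have : ((2 : ℝ) ^ dm E)⁻¹ * l ≤ (π.Z (dm E) t)⁻¹ *
          ww a (cb (Real.exp (π.c * t))) (rad E y • e) := by gcongr
      have := mul_le_mul_of_nonneg_left this hK.le
      have e7 : cK * l / 2 ^ dm E / 2 + cK * l / 2 ^ dm E / 2 = cK * ((2 ^ dm E)⁻¹ * l) := by
        field_simp; ring
      linarith
    · have : (π.Z (dm E) t)⁻¹ * ww a (cb (Real.exp (π.c * t))) (rad E y • e) ≤ 1 * h := by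
        gcongr
        linarith
      have := mul_le_mul_of_nonneg_left this hK.le
      linarith

theorem State.Valid.lo_le_hi {S : State} {π : Prm} {e : E} (h : S.Valid π e)
    (hπ : π.Ok (dm E)) : π.lo ≤ π.hi := by
  obtain ⟨η, hη, hm⟩ := h.margin
  have h0 : (0 : ℝ) ∈ Icc 0 π.T := left_mem_Icc.2 hπ.hT.le
  obtain ⟨k1, k2⟩ := (hm 0 h0).1 _ ⟨Real.exp_pos _, le_rfl⟩
  linarith

theorem State.Valid.inv_b_le {S : State} {π : Prm} {e : E} (h : S.Valid π e)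
    (hπ : π.Ok (dm E)) {t : ℝ} (ht : t ∈ Icc 0 π.T) (o : Option S.ι) :
    ((S.all π (dm E) o).b t)⁻¹ ≤ (2 * π.hi / π.c) ^ π.σ⁻¹ := by
  have h1 := h.lo_le_hi hπ
  have h2 := hπ.hlo
  have hc := hπ.hc
  have hσ := hπ.hσ
  rcases o with _ | i
  · refine (inv_le_one_of_one_le₀ (hπ.one_le_Z ht)).trans (Real.one_le_rpow ?_ (by positivity))
    rw [le_div_iff₀ hc]; linarith
  · obtain ⟨η, hη, hm⟩ := h.margin
    have hy := (h.ok i).left_mem_R ht
    obtain ⟨k1, -, k3⟩ := (hm t ht).2 i _ hy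
    obtain ⟨k4, k5⟩ := (hm t ht).1 _ (h.rng i t ht hy)
    have hb := (h.ok i).bpos t ht
    have hbσ : 0 < (S.f i).b t ^ π.σ := Real.rpow_pos_of_pos hb _
    show ((S.f i).b t)⁻¹ ≤ _
    rw [Real.le_rpow_inv_iff_of_pos (inv_pos.2 hb).le (by apply div_nonneg <;> linarith) hσ,
      Real.inv_rpow hb.le, inv_le_comm₀ hbσ (by apply div_pos <;> linarith), inv_div,
      div_le_iff₀ (by linarith)]
    nlinarith

theorem State.Valid.adm [Nontrivial E] {S : State} {π : Prm} {e : E} (h : S.Valid π e)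
    (hπ : π.Ok (dm E)) {t : ℝ} (ht : t ∈ Icc 0 π.T) :
    Adm ((2 * π.hi / π.c) ^ π.σ⁻¹) (S.u π t : E → ℝ) :=
  adm_sum_den _ (h.ok_all hπ) ht
    ((inv_pos.2 ((h.ok_all hπ none).bpos t ht)).le.trans (h.inv_b_le hπ ht none))
    (h.inv_b_le hπ ht) (h.disj t ht)

theorem State.Valid.nonneg {S : State} {π : Prm} {e : E} (h : S.Valid π e)
    (hπ : π.Ok (dm E)) {t : ℝ} (ht : t ∈ Icc 0 π.T) (x : E) : 0 ≤ S.u π t x :=
  Finset.sum_nonneg fun o _ => (h.ok_all hπ o).den_nonneg ht x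

theorem State.Valid.gam_le [Nontrivial E] {S : State} {π : Prm} {e : E} (h : S.Valid π e)
    (hπ : π.Ok (dm E)) (o : Option S.ι) : ∀ t ∈ Icc 0 π.T, ∀ y, (S.all π (dm E) o).L t < y →
      y ≤ (S.all π (dm E) o).L t + (S.all π (dm E) o).μ * (S.all π (dm E) o).b t →
      |(S.all π (dm E) o).gam (dm E) y t| ≤ 2 * π.c := by
  intro t ht y h1 h2
  have hc := hπ.hc
  rcases o with _ | i
  · show |(π.cen (dm E) S.μ0).gam (dm E) y t| ≤ _
    rw [π.cen_gam (dm_pos (E := E)) _ h1, abs_of_pos hc]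
    linarith
  · obtain ⟨η, hη, hm⟩ := h.margin
    obtain ⟨k1, k2, -⟩ := (hm t ht).2 i y ⟨h1.le, h2⟩
    show |(S.f i).gam (dm E) y t| ≤ _
    rw [abs_le]
    constructor <;> linarith

/-- integrand of the weak formulation for a configuration -/
noncomputable def State.wf (S : State) (π : Prm) (φ : E × ℝ → ℝ) (p : E × ℝ) : ℝ :=
  ∑ o, (S.all π (dm E) o).wf φ p

theorem State.Valid.weak [Nontrivial E] {S : State} {π : Prm} {e : E} (h : S.Valid π e)
    (hπ : π.Ok (dm E)) {φ : E × ℝ → ℝ} (hφ : Test π.T φ) :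
    (∫ p in QT E π.T, S.wf π φ p) + ∫ x, cb 1 x * φ (x, 0) = 0 := by
  have h0 : (0 : ℝ) ∈ Icc 0 π.T := left_mem_Icc.2 hπ.hT.le
  have c0 : Continuous fun x : E => φ (x, 0) :=
    hφ.cont.comp_continuous (by fun_prop) fun x => ⟨mem_univ _, h0⟩
  have e1 : ∫ x, cb 1 x * φ (x, 0) = ∑ o, ∫ x, (S.all π (dm E) o).den 0 x * φ (x, 0) := by
    rw [← integral_finsetSum (f := fun o (x : E) => (S.all π (dm E) o).den 0 x * φ (x, 0)) _
      fun o _ => ((h.ok_all hπ o).adm h0).integrable_cont c0]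
    refine integral_congr_ae ?_
    filter_upwards [cen_den_ae (E := E) π 0] with x hx
    rw [← Finset.sum_mul]
    have := h.init x
    rw [State.u] at this
    rw [this, hx]
    simp [Prm.Z]
  unfold State.wf
  rw [e1, integral_finsetSum _ fun o _ =>
    (h.ok_all hπ o).integrable_wf hπ.hT (h.gam_le hπ o) hφ, ← Finset.sum_add_distrib]
  exact Finset.sum_eq_zero fun o _ => (h.ok_all hπ o).weak hπ.hT (h.gam_le hπ o) hφ

theorem State.W_eq [Nontrivial E] (S : State) (π : Prm) {e : E} (he : ‖e‖ = 1) (t : ℝ) {x : E}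
    (hx : x ≠ 0) : π.cK • Vk π.a (S.u π t) x = S.W π e (‖x‖ ^ dm E, t) • x := by
  have hr : Radial (S.u π t : E → ℝ) := radial_sum_den _ t
  rw [Vk_eq_ww π.a hr hx, smul_smul, State.W]
  congr 2
  refine ww_radial π.a hr _ _ ?_
  rw [norm_smul, he, mul_one, rad_of_pow (norm_nonneg _), norm_norm]

theorem State.Valid.defect [Nontrivial E] {S : State} {π : Prm} {e : E} (he : ‖e‖ = 1)
    (h : S.Valid π e) (hπ : π.Ok (dm E)) (hσ1 : π.σ < 1) {t ε : ℝ} (ht : t ∈ Icc 0 π.T)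
    (hε : 0 ≤ ε) {x : E} (hx : S.μ0 * 2 ^ dm E < ‖x‖ ^ dm E)
    (hD : ∀ i, ∀ y ∈ (S.f i).R t,
      (S.f i).b t ^ π.σ * S.W π e (y, t) - (S.f i).gam (dm E) y t ≤ ε) :
    (∀ φ : E × ℝ → ℝ, |S.wf π φ (x, t) - (S.u π t x * fderiv ℝ φ (x, t) (0, 1) +
      S.u π t x ^ (1 - π.σ) * fderiv ℝ φ (x, t) (π.cK • Vk π.a (S.u π t) x, 0))| ≤
      (2 * π.hi / π.c) ^ π.σ⁻¹ * ε * |fderiv ℝ φ (x, t) (x, 0)|) ∧
    (ε ≤ π.c → S.u π t x = 0 ∨ (π.lo / (3 * π.c)) ^ π.σ⁻¹ ≤ S.u π t x) := by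
  have hP := (h.adm hπ ht).nonneg
  have hx0 : x ≠ 0 := by
    rintro rfl
    rw [norm_zero, zero_pow (dm_pos (E := E)).ne'] at hx
    exact absurd hx (not_lt.2 (mul_pos h.μ0pos (by positivity)).le)
  by_cases hxs : ∃ o, x ∈ (S.all π (dm E) o).S E t
  · obtain ⟨o, ho⟩ := hxs
    rcases o with _ | i
    · exfalso
      have k1 : ‖x‖ ^ dm E ≤ 0 + S.μ0 * π.Z (dm E) t := ho.2
      have k2 := mul_le_mul_of_nonneg_left (hπ.Z_le ht) h.μ0pos.le
      linarith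
    have hy : ‖x‖ ^ dm E ∈ (S.f i).R t := ⟨ho.1.le, ho.2⟩
    obtain ⟨η, hη, hm⟩ := h.margin
    obtain ⟨k1, k2, k3⟩ := (hm t ht).2 i _ hy
    obtain ⟨k4, -⟩ := (hm t ht).1 _ (h.rng i t ht hy)
    have k5 := hD i _ hy
    have hb := (h.ok i).bpos t ht
    have eu : S.u π t x = ((S.f i).b t)⁻¹ := sum_den_eq' _ (h.disj t ht) ho
    refine ⟨fun φ => ?_, fun hεc => Or.inr ?_⟩
    · have ew : S.wf π φ (x, t) = ((S.f i).b t)⁻¹ *
          fderiv ℝ φ (x, t) ((S.f i).gam (dm E) (‖x‖ ^ dm E) t • x, 1) :=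
        sum_den_eq _ (h.disj t ht) ho fun o =>
          fderiv ℝ φ (x, t) ((S.all π (dm E) o).gam (dm E) (‖x‖ ^ dm E) t • x, 1)
      have e1 : ∀ r : ℝ, ((r • x, 0) : E × ℝ) = r • (x, 0) := fun r => by simp
      have e2 : (((S.f i).gam (dm E) (‖x‖ ^ dm E) t • x, 1) : E × ℝ) =
          (0, 1) + (S.f i).gam (dm E) (‖x‖ ^ dm E) t • (x, 0) := by simp
      have e3 : (((S.f i).b t)⁻¹) ^ (1 - π.σ) = ((S.f i).b t)⁻¹ * (S.f i).b t ^ π.σ := by
        rw [Real.inv_rpow hb.le, ← Real.rpow_neg hb.le, neg_sub, Real.rpow_sub_one hb.ne']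
        ring
      rw [ew, S.W_eq π he t hx0, eu, e1, e2, map_add, map_smul, map_smul, e3, smul_eq_mul,
        smul_eq_mul]
      have e4 : ∀ A B β γ w : ℝ, β * (A + γ * B) - (β * A + β * (S.f i).b t ^ π.σ * (w * B)) =
          -(β * ((S.f i).b t ^ π.σ * w - γ) * B) := fun _ _ _ _ _ => by ring
      have k7 : 0 ≤ (S.f i).b t ^ π.σ * S.W π e (‖x‖ ^ dm E, t) -
        (S.f i).gam (dm E) (‖x‖ ^ dm E) t := hη.le.trans k3
      rw [e4, abs_neg, abs_mul, abs_mul, abs_of_pos (inv_pos.2 hb), abs_of_nonneg k7]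
      have k6 : ((S.f i).b t)⁻¹ ≤ _ := h.inv_b_le hπ ht (some i)
      gcongr
    · have hc := hπ.hc
      have hlo := hπ.hlo
      have hbσ : 0 < (S.f i).b t ^ π.σ := Real.rpow_pos_of_pos hb _
      rw [eu, Real.rpow_inv_le_iff_of_pos (by apply div_nonneg <;> linarith) (inv_pos.2 hb).le
        hπ.hσ, Real.inv_rpow hb.le, le_inv_comm₀ (by apply div_pos <;> linarith) hbσ, inv_div,
        le_div_iff₀ (by linarith)]
      nlinarith
  · have eu : S.u π t x = 0 := sum_den_zero' _ (not_exists.1 hxs)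
    refine ⟨fun φ => ?_, fun _ => Or.inl eu⟩
    have ew : S.wf π φ (x, t) = 0 := sum_den_zero _ (not_exists.1 hxs) fun o =>
          fderiv ℝ φ (x, t) ((S.all π (dm E) o).gam (dm E) (‖x‖ ^ dm E) t • x, 1)
    rw [ew, eu, Real.zero_rpow (by linarith)]
    simp only [zero_mul, add_zero, sub_zero, abs_zero]
    positivity

theorem State.Valid.wf_le [Nontrivial E] {S : State} {π : Prm} {e : E}
    (h : S.Valid π e) (hπ : π.Ok (dm E)) {φ : E × ℝ → ℝ} {M : ℝ}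
    (hM : ∀ p : E × ℝ, ‖p.1‖ ≤ 2 → p.2 ∈ Ioo 0 π.T → ‖fderiv ℝ φ p‖ ≤ M) (p : E × ℝ)
    (hp : p.2 ∈ Ioo 0 π.T) :
    ‖S.wf π φ p‖ ≤ (closedBall (0 : E) 2 ×ˢ Icc (0 : ℝ) π.T).indicator
      (fun _ => (2 * π.hi / π.c) ^ π.σ⁻¹ * (|M| * (2 * (2 * π.c) + 1))) p := by
  have ht := Ioo_subset_Icc_self hp
  have hP := (h.adm hπ ht).nonneg
  have hc := hπ.hc
  by_cases hxs : ∃ o, p.1 ∈ (S.all π (dm E) o).S E p.2
  · obtain ⟨o, ho⟩ := hxs
    have h2 := (h.ok_all hπ o).norm_le ht ho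
    have ew : S.wf π φ p = ((S.all π (dm E) o).b p.2)⁻¹ *
        fderiv ℝ φ p ((S.all π (dm E) o).gam (dm E) (‖p.1‖ ^ dm E) p.2 • p.1, 1) :=
      sum_den_eq _ (h.disj _ ht) ho fun o =>
        fderiv ℝ φ p ((S.all π (dm E) o).gam (dm E) (‖p.1‖ ^ dm E) p.2 • p.1, 1)
    rw [indicator_of_mem (show p ∈ closedBall (0 : E) 2 ×ˢ Icc (0 : ℝ) π.T from
      ⟨mem_closedBall_zero_iff.2 h2, ht⟩), ew, norm_mul,
      Real.norm_of_nonneg (inv_pos.2 ((h.ok_all hπ o).bpos _ ht)).le]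
    have k1 := norm_D_le ((hM p h2 hp).trans (le_abs_self _))
      (h.gam_le hπ o _ ht _ ho.1 ho.2) h2
    have k2 := h.inv_b_le hπ ht o
    gcongr
  · have ew : S.wf π φ p = 0 := sum_den_zero _ (not_exists.1 hxs) fun o =>
        fderiv ℝ φ p ((S.all π (dm E) o).gam (dm E) (‖p.1‖ ^ dm E) p.2 • p.1, 1)
    rw [ew, norm_zero]
    exact indicator_nonneg (fun _ _ => by positivity) _

theorem exists_sol_of_valid [Nontrivial E] {π : Prm} {e : E} (he : ‖e‖ = 1) (hπ : π.Ok (dm E))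
    (hσ1 : π.σ < 1) (h0 : S0.Valid π e) :
    ∃ u : E × ℝ → ℝ, Measurable u ∧ (∀ p, 0 ≤ u p) ∧ (∀ p, u p ≤ (2 * π.hi / π.c) ^ π.σ⁻¹) ∧
      (∀ p, 2 < ‖p.1‖ → u p = 0) ∧
      (∀ p, 0 < p.2 → u p = 0 ∨ (π.lo / (3 * π.c)) ^ π.σ⁻¹ ≤ u p) ∧
      ∀ φ : E × ℝ → ℝ, Test π.T φ → (∫ p in QT E π.T, (u p * fderiv ℝ φ p (0, 1) +
        u p ^ (1 - π.σ) * fderiv ℝ φ p (π.cK • Vk π.a (fun y => u (y, p.2)) p.1, 0))) +
        ∫ x, cb 1 x * φ (x, 0) = 0 := by
  have hc := hπ.hc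
  set ε : ℕ → ℝ := fun k => π.c / (k + 1) with hε
  have hε0 : ∀ k, 0 < ε k := fun k => by positivity
  have hεc : ∀ k, ε k ≤ π.c := fun k => div_le_self hc.le (by linarith [Nat.cast_nonneg (α := ℝ) k])
  have hεt : Tendsto ε atTop (𝓝 0) := by
    simpa [hε, div_eq_mul_inv] using
      (tendsto_one_div_add_atTop_nhds_zero_nat (𝕜 := ℝ)).const_mul π.c
  have hstep := fun (k : ℕ) (S : {S : State // S.Valid π e}) => S.2.step he hπ (hε0 k)
  choose nx hnx1 hnx2 hnx3 using hstep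
  set Sq : ℕ → {S : State // S.Valid π e} :=
    fun k => Nat.rec ⟨S0, h0⟩ (fun k S => ⟨nx k S, hnx1 k S⟩) k with hSq
  have hsucc : ∀ k, (Sq (k + 1)).1 = nx k (Sq k) := fun k => rfl
  have hμ : ∀ k, (Sq k).1.μ0 = (1 / 2) ^ k := by
    intro k
    induction k with
    | zero => simp [hSq, S0]
    | succ k ih => rw [hsucc, hnx2, ih, pow_succ]; ring
  set P := (2 * π.hi / π.c) ^ π.σ⁻¹ with hP
  have hP0 : 0 ≤ P := (h0.adm hπ (left_mem_Icc.2 hπ.hT.le)).nonneg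
  set U : ℕ → E × ℝ → ℝ := fun k =>
    ((univ : Set E) ×ˢ Icc 0 π.T).indicator fun p => (Sq k).1.u π p.2 p.1 with hU
  have hUm : ∀ k, Measurable (U k) := fun k =>
    (Finset.measurable_sum _ fun o _ => ((Sq k).2.ok_all hπ o).meas_den).indicator
      (MeasurableSet.univ.prod measurableSet_Icc)
  have hUin : ∀ k (p : E × ℝ), p.2 ∈ Icc 0 π.T → U k p = (Sq k).1.u π p.2 p.1 :=
    fun k p hp => indicator_of_mem (show p ∈ (univ : Set E) ×ˢ Icc 0 π.T from ⟨mem_univ _, hp⟩) _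
  have hUout : ∀ k (p : E × ℝ), p.2 ∉ Icc 0 π.T → U k p = 0 :=
    fun k p hp => indicator_of_notMem (fun h => hp h.2) _
  have hUb : ∀ k p, 0 ≤ U k p ∧ U k p ≤ P := by
    intro k p
    by_cases hp : p.2 ∈ Icc 0 π.T
    · rw [hUin k p hp]
      exact ⟨(Sq k).2.nonneg hπ hp _, (le_abs_self _).trans (((Sq k).2.adm hπ hp).bd _)⟩
    · rw [hUout k p hp]
      exact ⟨le_rfl, hP0⟩
  have hlim := fun p : E × ℝ => seq_limit (v := fun k => U k p) (fun k => (hUb k p).2) (by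
    intro k
    by_cases hp : p.2 ∈ Icc 0 π.T
    · rw [hUin k p hp, hUin (k + 1) p hp, hsucc]
      exact (hnx3 k (Sq k) _ hp).1 _
    · exact Or.inl (hUout (k + 1) p hp))
  choose u hu hu' using hlim
  have hev : ∀ x : E, x ≠ 0 → ∀ t, 0 < t → ∀ᶠ k in atTop,
      (Sq (k + 1)).1.μ0 * 2 ^ dm E < ‖x‖ ^ dm E ∧ ε k ≤ t := by
    intro x hx t ht
    have h1 : Tendsto (fun k : ℕ => (Sq (k + 1)).1.μ0 * 2 ^ dm E) atTop (𝓝 0) := by
      simp only [hμ]
      have := ((tendsto_pow_atTop_nhds_zero_of_lt_one (r := (1 / 2 : ℝ)) (by norm_num)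
        (by norm_num)).comp (tendsto_add_atTop_nat 1)).mul_const ((2 : ℝ) ^ dm E)
      simpa [Function.comp_def] using this
    exact (h1.eventually (gt_mem_nhds (pow_pos (norm_pos_iff.2 hx) _))).and
      (hεt.eventually (ge_mem_nhds ht))
  have hdef := fun (k : ℕ) (x : E) (t : ℝ) (ht : t ∈ Icc 0 π.T)
    (h : (Sq (k + 1)).1.μ0 * 2 ^ dm E < ‖x‖ ^ dm E ∧ ε k ≤ t) =>
    (Sq (k + 1)).2.defect he hπ hσ1 ht (hε0 k).le h.1 ((hnx3 k (Sq k) t ht).2 h.2)
  refine ⟨u, measurable_of_tendsto_metrizable hUm (tendsto_pi_nhds.2 hu),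
    fun p => ge_of_tendsto' (hu p) fun k => (hUb k p).1,
    fun p => le_of_tendsto' (hu p) fun k => (hUb k p).2, fun p hp => ?_, fun p hp => ?_,
    fun φ hφ => ?_⟩
  · refine tendsto_nhds_unique (hu p) (tendsto_const_nhds.congr fun k => ?_)
    by_cases ht : p.2 ∈ Icc 0 π.T
    · rw [hUin k p ht, ((Sq k).2.adm hπ ht).supp _ hp]
    · rw [hUout k p ht]
  · rcases hu' p with h1 | h1
    · exact Or.inl h1
    right
    have ht : p.2 ∈ Icc 0 π.T := by
      by_contra ht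
      exact absurd (hUout 0 p ht) (h1 0).1.ne'
    have hx : p.1 ≠ 0 := by
      intro hx
      refine absurd ?_ (h1 0).1.ne'
      rw [hUin 0 p ht]
      refine sum_den_zero' _ fun o ho => ?_
      have k1 := ho.1
      rw [hx, norm_zero, zero_pow (dm_pos (E := E)).ne'] at k1
      exact absurd k1 (not_lt.2 (((Sq 0).2.ok_all hπ o).Lnn _ ht))
    obtain ⟨k, hk⟩ := (hev p.1 hx p.2 hp).exists
    have h2 := (hdef k p.1 p.2 ht hk).2 (hεc k)
    rw [← hUin (k + 1) p ht] at h2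
    exact (h2.resolve_left (h1 (k + 1)).1.ne').trans (h1 (k + 1)).2
  · obtain ⟨M, hM⟩ := hφ.bdd
    have hK : IsCompact (closedBall (0 : E) 2 ×ˢ Icc (0 : ℝ) π.T) :=
      (isCompact_closedBall _ _).prod isCompact_Icc
    have hconv : Tendsto (fun k => ∫ p in QT E π.T, (Sq (k + 1)).1.wf π φ p) atTop
        (𝓝 (∫ p in QT E π.T, (u p * fderiv ℝ φ p (0, 1) + u p ^ (1 - π.σ) *
          fderiv ℝ φ p (π.cK • Vk π.a (fun y => u (y, p.2)) p.1, 0)))) := by
      refine tendsto_integral_of_dominated_convergence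
        ((closedBall (0 : E) 2 ×ˢ Icc (0 : ℝ) π.T).indicator
          (fun _ => P * (|M| * (2 * (2 * π.c) + 1)))) (fun k => ?_) ?_ (fun k => ?_) ?_
      · exact (Finset.measurable_sum _ fun o _ =>
          ((Sq (k + 1)).2.ok_all hπ o).meas_wf φ).aestronglyMeasurable
      · exact ((integrable_indicator_iff hK.measurableSet).2
          (integrableOn_const hK.measure_lt_top.ne)).integrableOn
      · filter_upwards [ae_restrict_mem (measurableSet_QT π.T)] with p hp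
        exact (Sq (k + 1)).2.wf_le hπ hM p hp.2
      · have a0 : ∀ᵐ p ∂(volume.restrict (QT E π.T)), p.1 ≠ 0 := by
          rw [restrict_QT]
          refine Measure.quasiMeasurePreserving_fst.ae (p := fun x : E => x ≠ 0) ?_
          rw [ae_iff]
          simp
        filter_upwards [ae_restrict_mem (measurableSet_QT π.T), a0] with p hp hx
        obtain ⟨x, t⟩ := p
        have ht : t ∈ Icc 0 π.T := Ioo_subset_Icc_self hp.2
        have t1 : ∀ y : E, Tendsto (fun k => (Sq (k + 1)).1.u π t y) atTop (𝓝 (u (y, t))) := by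
          intro y
          have := (hu (y, t)).comp (tendsto_add_atTop_nat 1)
          refine this.congr fun k => ?_
          exact hUin (k + 1) (y, t) ht
        have t2 := Vk_tendsto hπ.ha hπ.ha' (fun k => (Sq (k + 1)).2.adm hπ ht) t1 x
        have t3 : Tendsto (fun k => (Sq (k + 1)).1.u π t x * fderiv ℝ φ (x, t) (0, 1) +
            (Sq (k + 1)).1.u π t x ^ (1 - π.σ) *
              fderiv ℝ φ (x, t) (π.cK • Vk π.a ((Sq (k + 1)).1.u π t) x, 0)) atTop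
            (𝓝 (u (x, t) * fderiv ℝ φ (x, t) (0, 1) + u (x, t) ^ (1 - π.σ) *
              fderiv ℝ φ (x, t) (π.cK • Vk π.a (fun y => u (y, t)) x, 0))) := by
          refine ((t1 x).mul_const _).add (((t1 x).rpow_const (Or.inr (by linarith))).mul ?_)
          exact ((fderiv ℝ φ (x, t)).continuous.tendsto _).comp
            ((t2.const_smul π.cK).prodMk_nhds tendsto_const_nhds)
        refine t3.congr_dist ?_
        have t4 : Tendsto (fun k => P * ε k * |fderiv ℝ φ (x, t) (x, 0)|) atTop (𝓝 0) := by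
          simpa using (hεt.const_mul P).mul_const |fderiv ℝ φ (x, t) (x, 0)|
        refine squeeze_zero' (Eventually.of_forall fun _ => dist_nonneg) ?_ t4
        filter_upwards [hev x hx t hp.2.1] with k hk
        rw [dist_comm, Real.dist_eq]
        exact (hdef k x t ht hk).1 φ
    have hconst : ∀ k, ∫ p in QT E π.T, (Sq (k + 1)).1.wf π φ p = -∫ x, cb 1 x * φ (x, 0) :=
      fun k => eq_neg_of_add_eq_zero_left ((Sq (k + 1)).2.weak hπ hφ)
    simp only [hconst] at hconv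
    rw [tendsto_nhds_unique hconv tendsto_const_nhds, neg_add_cancel]

theorem exists_sol [Nontrivial E] {a σ T cK : ℝ} (ha : 0 < a) (ha' : a + 1 < dm E) (hσ : 0 < σ)
    (hσ1 : σ < 1) (hT : 0 < T) (hK : 0 < cK) :
    ∃ lo hi c₀ : ℝ, 0 < lo ∧ 0 < hi ∧ 0 < c₀ ∧ ∀ c, 0 < c → c ≤ c₀ →
    ∃ u : E × ℝ → ℝ, Measurable u ∧ (∀ p, 0 ≤ u p) ∧ (∀ p, u p ≤ (2 * hi / c) ^ σ⁻¹) ∧
      (∀ p, 2 < ‖p.1‖ → u p = 0) ∧
      (∀ p, 0 < p.2 → u p = 0 ∨ (lo / (3 * c)) ^ σ⁻¹ ≤ u p) ∧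
      ∀ φ : E × ℝ → ℝ, Test T φ → (∫ p in QT E T, (u p * fderiv ℝ φ p (0, 1) +
        u p ^ (1 - σ) * fderiv ℝ φ p (cK • Vk a (fun y => u (y, p.2)) p.1, 0))) +
        ∫ x, cb 1 x * φ (x, 0) = 0 := by
  obtain ⟨lo, hi, hlo, h⟩ := exists_S0 (E := E) ha ha' hK
  obtain ⟨e, he⟩ := exists_norm_eq E zero_le_one
  have hl : 0 < Real.log 2 := Real.log_pos one_lt_two
  have key : ∀ c, 0 < c → c ≤ min lo (Real.log 2 / T) →
      (⟨a, σ, c, T, lo, hi, cK⟩ : Prm).Ok (dm E) := fun c hc hc' =>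
    ⟨ha, ha', hσ, hc, hT, (le_div_iff₀ hT).1 (hc'.trans (min_le_right _ _)),
      hc'.trans (min_le_left _ _), hK⟩
  have hc0 : 0 < min lo (Real.log 2 / T) := lt_min hlo (by positivity)
  refine ⟨lo, hi, min lo (Real.log 2 / T), hlo, ?_, hc0, fun c hc hc' => ?_⟩
  · exact hlo.trans_le ((h _ (key _ hc0 le_rfl) rfl rfl rfl rfl e he).lo_le_hi (key _ hc0 le_rfl))
  · exact exists_sol_of_valid he (key c hc hc') hσ1 (h _ (key c hc hc') rfl rfl rfl rfl e he)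

end Pool.Agent.H361Z.PM
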