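import Mathlib
import Pool.Agent.H361Z.PM.Limit
import Pool.Agent.H361Z.PM.Grad

set_option autoImplicit false
set_option linter.unusedSectionVars false

open MeasureTheory Set Metric Filter Topology
open scoped ENNReal

namespace Pool.Agent.H361Z.PM

variable {E : Type*} [NormedAddCommGroup E] [InnerProductSpace ℝ E] [FiniteDimensional ℝ E]
  [MeasurableSpace E] [BorelSpace E]

theorem locInt_of_bdd {F : Type*} [NormedAddCommGroup F] [MeasurableSpace F] [BorelSpace F]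
    [SecondCountableTopology F] {f : E × ℝ → F} (hf : Measurable f) {M : ℝ}
    (hM : ∀ p, ‖f p‖ ≤ M) : LocallyIntegrable f volume :=
  (locallyIntegrable_const M).mono hf.aestronglyMeasurable
    (Eventually.of_forall fun p => (hM p).trans (le_abs_self _))

/-- everything that is known about the constructed solutions -/
structure Sol (a m T cP : ℝ) (u : E × ℝ → ℝ) (G : E × ℝ → E) : Prop where
  meas : Measurable u
  nonneg : ∀ p, 0 ≤ u p
  bdd : ∃ P, ∀ p, ‖u p‖ ≤ P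
  supp : ∀ p, 2 < ‖p.1‖ → u p = 0
  ipot : ∀ p : E × ℝ, Integrable fun y => ‖p.1 - y‖ ^ (-a) * u (y, p.2)
  mpot : Measurable fun p : E × ℝ => ∫ y, ‖p.1 - y‖ ^ (-a) * u (y, p.2)
  bpot : ∃ C, ∀ p : E × ℝ, ‖∫ y, ‖p.1 - y‖ ^ (-a) * u (y, p.2)‖ ≤ C
  mG : Measurable G
  bG : ∃ C, ∀ p, ‖G p‖ ≤ C
  mF : Measurable fun p => u p ^ (m - 1) • G p
  bF : ∃ C, ∀ p, ‖u p ^ (m - 1) • G p‖ ≤ C
  grad : ∀ ψ : E × ℝ → ℝ, ContDiff ℝ 1 ψ → HasCompactSupport ψ → ∀ e : E,
    ∫ p : E × ℝ, cP * (∫ y, ‖p.1 - y‖ ^ (-a) * u (y, p.2)) * fderiv ℝ ψ p (e, 0) =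
      -∫ p : E × ℝ, inner ℝ (G p) e * ψ p
  weak : ∀ φ : E × ℝ → ℝ, Test T φ →
    IntegrableOn (fun p => u p * fderiv ℝ φ p (0, 1)) (QT E T) ∧
    IntegrableOn (fun p => u p ^ (m - 1) * fderiv ℝ φ p (G p, 0)) (QT E T) ∧
    (∫ p in QT E T, u p * fderiv ℝ φ p (0, 1)) -
      (∫ p in QT E T, u p ^ (m - 1) * fderiv ℝ φ p (G p, 0)) + ∫ x, cb 1 x * φ (x, 0) = 0

theorem exists_Sol [Nontrivial E] {a m T cP : ℝ} (ha : 0 < a) (ha' : a + 1 < dm E) (hm1 : 1 < m)
    (hm2 : m < 2) (hT : 0 < T) (hP : 0 < cP) :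
    ∃ lo hi c₀ : ℝ, 0 < lo ∧ 0 < hi ∧ 0 < c₀ ∧ ∀ c, 0 < c → c ≤ c₀ →
    ∃ (u : E × ℝ → ℝ) (G : E × ℝ → E), Sol a m T cP u G ∧ (∀ p, u p ≤ (2 * hi / c) ^ (2 - m)⁻¹) ∧
      (∀ p, 0 < p.2 → u p = 0 ∨ (lo / (3 * c)) ^ (2 - m)⁻¹ ≤ u p) := by
  obtain ⟨lo, hi, c₀, h1, h2, h3, h⟩ := exists_sol (E := E) (σ := 2 - m) ha ha' (by linarith)
    (by linarith) hT (mul_pos hP ha)
  refine ⟨lo, hi, c₀, h1, h2, h3, fun c hc hc' => ?_⟩
  obtain ⟨u, um, u0, uP, us, ul, uw⟩ := h c hc hc'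
  set P := (2 * hi / c) ^ (2 - m)⁻¹ with hPdef
  have hP0 : 0 ≤ P := (u0 0).trans (uP 0)
  have ub : ∀ p, ‖u p‖ ≤ P := fun p => by rw [Real.norm_of_nonneg (u0 p)]; exact uP p
  have adm : ∀ t, Adm P fun y => u (y, t) := fun t =>
    ⟨um.comp (measurable_id.prodMk measurable_const), fun y => ub (y, t), fun y hy => us _ hy⟩
  obtain ⟨C₁, hC10, hC₁⟩ := exists_pot_bound (E := E) ha.le (by linarith)
  obtain ⟨C₂, hC20, hC₂⟩ := exists_Vk_bound (E := E) ha ha'
  set G : E × ℝ → E := fun p => -((cP * a) • Vk a (fun y => u (y, p.2)) p.1) with hG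
  have mG : Measurable G := ((measurable_Vk a um).const_smul (cP * a)).neg
  have bG : ∀ p, ‖G p‖ ≤ cP * a * (P * C₂) := fun p => by
    simp only [hG]
    rw [norm_neg, norm_smul, Real.norm_of_nonneg (mul_pos hP ha).le]
    exact mul_le_mul_of_nonneg_left (hC₂ P _ (adm p.2) p.1) (mul_pos hP ha).le
  have mu : Measurable fun p => u p ^ (m - 1) := um.pow_const _
  have bu : ∀ p, ‖u p ^ (m - 1)‖ ≤ P ^ (m - 1) := fun p => by
    rw [Real.norm_of_nonneg (Real.rpow_nonneg (u0 p) _)]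
    exact Real.rpow_le_rpow (u0 p) (uP p) (by linarith)
  refine ⟨u, G, ⟨um, u0, ⟨P, ub⟩, us, fun p => (adm p.2).integrable_pot ha.le (by linarith) p.1,
    measurable_conv um (g := fun z => ‖z‖ ^ (-a)) (by fun_prop),
    ⟨1 * P * C₁, fun p => hC₁ P 1 _ (adm p.2) zero_le_one p.1 _ fun y _ => abs_rpow_le a _⟩,
    mG, ⟨_, bG⟩, mu.smul mG, ⟨P ^ (m - 1) * (cP * a * (P * C₂)), fun p => ?_⟩,
    fun ψ hψ hc e => ?_, fun φ hφ => ?_⟩, uP, ul⟩
  · rw [norm_smul]
    exact mul_le_mul (bu p) (bG p) (norm_nonneg _) (Real.rpow_nonneg hP0 _)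
  · have := weak_grad ha ha' um adm hψ hc e
    simp only [mul_assoc cP]
    rw [integral_const_mul, this, ← integral_const_mul, ← integral_neg]
    refine integral_congr_ae (Eventually.of_forall fun p => ?_)
    simp only [hG, inner_neg_left, inner_smul_left, conj_trivial]
    ring
  · obtain ⟨M, hM⟩ := hφ.bdd
    have i1 : IntegrableOn (fun p => u p * fderiv ℝ φ p (0, 1)) (QT E T) := by
      refine integrableOn_QT (um.mul (meas_D φ measurable_id measurable_const)).aestronglyMeasurable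
        (P * (M * ‖((0, 1) : E × ℝ)‖)) (fun p hp h2 => ?_) fun p _ h2 => by rw [us p h2, zero_mul]
      rw [norm_mul]
      exact mul_le_mul (ub p) ((fderiv ℝ φ p).le_of_opNorm_le (hM p h2 hp) _) (norm_nonneg _) hP0
    have i2 : IntegrableOn (fun p => u p ^ (m - 1) * fderiv ℝ φ p (G p, 0)) (QT E T) := by
      refine integrableOn_QT (mu.mul (meas_D φ measurable_id
        (mG.prodMk measurable_const))).aestronglyMeasurable
        (P ^ (m - 1) * (M * (cP * a * (P * C₂)))) (fun p hp h2 => ?_)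
        fun p _ h2 => by rw [us p h2, Real.zero_rpow (by linarith), zero_mul]
      rw [norm_mul]
      refine mul_le_mul (bu p) (((fderiv ℝ φ p).le_of_opNorm_le (hM p h2 hp) _).trans ?_)
        (norm_nonneg _) (Real.rpow_nonneg hP0 _)
      refine mul_le_mul_of_nonneg_left ?_ ((norm_nonneg (fderiv ℝ φ p)).trans (hM p h2 hp))
      rw [Prod.norm_def]
      exact max_le (bG p) (by simp only [norm_zero]; positivity)
    refine ⟨i1, i2, ?_⟩
    rw [← integral_sub i1 i2]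
    refine Eq.trans ?_ (uw φ hφ)
    congr 1
    refine integral_congr_ae (Eventually.of_forall fun p => ?_)
    have e1 : ((G p, 0) : E × ℝ) = -((cP * a) • Vk a (fun y => u (y, p.2)) p.1, 0) := by
      simp [hG]
    simp only
    rw [e1, map_neg, show 1 - (2 - m) = m - 1 by ring]
    ring

theorem integrable_cb : Integrable (cb 1 : E → ℝ) :=
  (integrable_indicator_iff measurableSet_closedBall).2
    (integrableOn_const measure_closedBall_lt_top.ne)

theorem cb_nonneg (R : ℝ) (x : E) : 0 ≤ cb R x := indicator_nonneg (fun _ _ => zero_le_one) _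

theorem memLp_cb_top : MemLp (cb 1 : E → ℝ) ⊤ volume :=
  memLp_top_of_bound (adm_cb one_le_two).meas.aestronglyMeasurable 1
    (Eventually.of_forall (adm_cb one_le_two).bd)

theorem integral_cb_pos : 0 < ∫ x : E, cb 1 x := by
  rw [cb, integral_indicator measurableSet_closedBall, setIntegral_const, smul_eq_mul, mul_one]
  exact ENNReal.toReal_pos (measure_closedBall_pos _ _ one_pos).ne' measure_closedBall_lt_top.ne

theorem test_of_contDiff {T : ℝ} {φ : E × ℝ → ℝ} (hφ : ContDiff ℝ 1 φ) (h : ∀ x, φ (x, T) = 0) :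
    Test T φ := by
  refine ⟨hφ.continuous.continuousOn, fun p _ => hφ.differentiable one_ne_zero p, ?_, h⟩
  obtain ⟨M, hM⟩ := ((isCompact_closedBall (0 : E) 2).prod
    (isCompact_Icc (a := (0 : ℝ)) (b := T))).exists_bound_of_continuousOn
    (hφ.continuous_fderiv one_ne_zero).continuousOn
  exact ⟨M, fun p h1 h2 => hM p ⟨mem_closedBall_zero_iff.2 h1, Ioo_subset_Icc_self h2⟩⟩

theorem Sol.not_zero {a m T cP : ℝ} (hm : 1 < m) (hT : 0 < T) {u : E × ℝ → ℝ} {G : E × ℝ → E}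
    (h : Sol a m T cP u G) : ¬ (∀ᵐ p ∂(volume.restrict (QT E T)), u p = 0) := by
  intro h0
  obtain ⟨-, -, h1⟩ := h.weak (fun p => T - p.2) (test_of_contDiff (by fun_prop) (by simp))
  rw [integral_eq_zero_of_ae, integral_eq_zero_of_ae (f := fun p => u p ^ (m - 1) * _)] at h1
  · simp only [sub_zero, zero_add] at h1
    rw [integral_mul_const] at h1
    exact absurd h1 (mul_pos integral_cb_pos hT).ne'
  · filter_upwards [h0] with p hp
    simp only [hp, Pi.zero_apply]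
    rw [Real.zero_rpow (by linarith), zero_mul]
  · filter_upwards [h0] with p hp
    simp [hp]

theorem exists_two [Nontrivial E] {a m T cP : ℝ} (ha : 0 < a) (ha' : a + 1 < dm E) (hm1 : 1 < m)
    (hm2 : m < 2) (hT : 0 < T) (hP : 0 < cP) :
    ∃ (u v : E × ℝ → ℝ) (G H : E × ℝ → E), Sol a m T cP u G ∧ Sol a m T cP v H ∧
      ¬ (u =ᵐ[volume.restrict (QT E T)] v) := by
  obtain ⟨lo, hi, c₀, h1, h2, h3, h⟩ := exists_Sol (E := E) ha ha' hm1 hm2 hT hP
  obtain ⟨v, H, hv, hv1, -⟩ := h c₀ h3 le_rfl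
  set c := min c₀ (lo * c₀ / (12 * hi)) with hc
  have hc0 : 0 < c := lt_min h3 (by positivity)
  obtain ⟨u, G, hu, -, hu1⟩ := h c hc0 (min_le_left _ _)
  refine ⟨u, v, G, H, hu, hv, fun huv => hu.not_zero hm1 hT ?_⟩
  have hlt : (2 * hi / c₀) ^ (2 - m)⁻¹ < (lo / (3 * c)) ^ (2 - m)⁻¹ := by
    refine Real.rpow_lt_rpow (by positivity) ?_ (inv_pos.2 (by linarith))
    have k : c ≤ lo * c₀ / (12 * hi) := min_le_right _ _
    rw [le_div_iff₀ (by positivity)] at k
    rw [div_lt_div_iff₀ h3 (by positivity)]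
    nlinarith [mul_pos hc0 h2]
  filter_upwards [huv, ae_restrict_mem (measurableSet_QT T)] with p hp hq
  refine (hu1 p hq.2.1).resolve_right fun k => ?_
  have := hv1 p
  linarith

theorem test_of_contDiffOn {T δ : ℝ} (hδ : 0 < δ) {φ : E × ℝ → ℝ}
    (hφ : ContDiffOn ℝ 1 φ (univ ×ˢ Ico 0 T))
    (h : ∀ x t, T - δ < t → t < T → φ (x, t) = 0) :
    Test T (fun p => if p.2 < T then φ p else 0) ∧
      ∀ p : E × ℝ, p.2 < T → (fun p : E × ℝ => if p.2 < T then φ p else 0) =ᶠ[𝓝 p] φ := by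
  have hev : ∀ p : E × ℝ, p.2 < T → (fun p : E × ℝ => if p.2 < T then φ p else 0) =ᶠ[𝓝 p] φ := by
    intro p hp
    filter_upwards [(isOpen_lt continuous_snd continuous_const).mem_nhds hp] with q hq
    exact if_pos hq
  have hev0 : ∀ p : E × ℝ, T - δ < p.2 →
      (fun p : E × ℝ => if p.2 < T then φ p else 0) =ᶠ[𝓝 p] fun _ => 0 := by
    intro p hp
    filter_upwards [(isOpen_lt continuous_const continuous_snd).mem_nhds hp] with q hq
    split_ifs with h1
    · exact h q.1 q.2 hq h1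
    · rfl
  have hnh : ∀ p : E × ℝ, p.2 ∈ Ioo 0 T → (univ : Set E) ×ˢ Ico 0 T ∈ 𝓝 p := fun p hp =>
    mem_of_superset ((isOpen_univ.prod isOpen_Ioo).mem_nhds ⟨mem_univ _, hp⟩)
      (prod_mono Subset.rfl Ioo_subset_Ico_self)
  refine ⟨⟨fun p hp => ?_, fun p hp => ?_, ?_, fun x => if_neg (lt_irrefl _)⟩, hev⟩
  · rcases lt_or_ge p.2 T with h1 | h1
    · have k1 : ContinuousWithinAt φ (univ ×ˢ Ico 0 T) p :=
        hφ.continuousOn p ⟨mem_univ _, hp.2.1, h1⟩
      have k2 : ContinuousWithinAt φ (univ ×ˢ Icc 0 T) p := by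
        refine k1.mono_of_mem_nhdsWithin ?_
        filter_upwards [self_mem_nhdsWithin, mem_nhdsWithin_of_mem_nhds
          ((isOpen_lt continuous_snd continuous_const).mem_nhds h1)] with q hq hq'
        exact ⟨mem_univ _, hq.2.1, hq'⟩
      exact k2.congr_of_eventuallyEq ((hev p h1).filter_mono nhdsWithin_le_nhds) (if_pos h1)
    · exact (continuousAt_const.congr (hev0 p (by linarith)).symm).continuousWithinAt
  · exact ((hφ.contDiffAt (hnh p hp.2)).differentiableAt one_ne_zero).congr_of_eventuallyEq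
      (hev p hp.2.2)
  · have hu : UniqueDiffOn ℝ ((univ : Set E) ×ˢ Ico 0 T) :=
      uniqueDiffOn_univ.prod (uniqueDiffOn_Ico 0 T)
    obtain ⟨M, hM⟩ := ((isCompact_closedBall (0 : E) 2).prod
      (isCompact_Icc (a := (0 : ℝ)) (b := T - δ / 2))).exists_bound_of_continuousOn
      ((hφ.continuousOn_fderivWithin hu le_rfl).mono
        (prod_mono (subset_univ _) (Icc_subset_Ico_right (by linarith))))
    refine ⟨max M 0, fun p h1 h2 => ?_⟩
    rcases le_or_gt p.2 (T - δ / 2) with h3 | h3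
    · rw [(hev p h2.2).fderiv_eq, ← fderivWithin_of_mem_nhds (hnh p h2)]
      exact (hM p ⟨mem_closedBall_zero_iff.2 h1, h2.1.le, h3⟩).trans (le_max_left _ _)
    · rw [(hev0 p (by linarith)).fderiv_eq, fderiv_const_apply]
      exact (ContinuousLinearMap.opNorm_zero).le.trans (le_max_right _ _)

end Pool.Agent.H361Z.PM
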